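import Mathlib
set_option autoImplicit false
set_option linter.unusedVariables false
set_option linter.unusedSectionVars false
/-! Regular triples and the elementary acyclicity argument. -/
namespace Pool.Agent.H950R2.PS
variable {A : Type} [CommRing A]

/-- Elementwise form of a (weakly) regular sequence of length three. -/
structure Reg3 (f1 f2 f3 : A) : Prop where
  r1 : ∀ p, f1 * p = 0 → p = 0
  r1' : ∀ p, f2 * p = 0 → p = 0
  r2 : ∀ p q, f2 * p = f1 * q → ∃ t, p = f1 * t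
  r3 : ∀ p q r, f3 * p = f1 * q + f2 * r → ∃ t t', p = f1 * t + f2 * t'

theorem Reg3.unit {f1 f2 f3 : A} (h : Reg3 f1 f2 f3) {e1 e2 e3 : A} (h1 : IsUnit e1)
    (h2 : IsUnit e2) (h3 : IsUnit e3) : Reg3 (e1 * f1) (e2 * f2) (e3 * f3) := by
  obtain ⟨i1, hi1⟩ := h1.exists_right_inv
  obtain ⟨i2, hi2⟩ := h2.exists_right_inv
  obtain ⟨i3, hi3⟩ := h3.exists_right_inv
  refine ⟨fun p hp => h.r1 p ?_, fun p hp => h.r1' p ?_, fun p q hp => ?_, fun p q r hp => ?_⟩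
  · linear_combination i1 * hp - f1 * p * hi1
  · linear_combination i2 * hp - f2 * p * hi2
  · obtain ⟨t, ht⟩ := h.r2 p (i2 * e1 * q) (by linear_combination i2 * hp - f2 * p * hi2)
    exact ⟨i1 * t, by linear_combination ht - f1 * t * hi1⟩
  · obtain ⟨t, t', ht⟩ := h.r3 p (i3 * e1 * q) (i3 * e2 * r)
      (by linear_combination i3 * hp - f3 * p * hi3)
    exact ⟨i1 * t, i2 * t', by linear_combination ht - f1 * t * hi1 - f2 * t' * hi2⟩

section vec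
variable {n : ℕ} {f1 f2 f3 : A}

theorem Reg3.v1 (h : Reg3 f1 f2 f3) (p : Fin n → A) (hp : f1 • p = 0) : p = 0 := by
  funext i; exact h.r1 _ (congrFun hp i)

theorem Reg3.v1' (h : Reg3 f1 f2 f3) (p : Fin n → A) (hp : f2 • p = 0) : p = 0 := by
  funext i; exact h.r1' _ (congrFun hp i)

theorem Reg3.v2 (h : Reg3 f1 f2 f3) (p q : Fin n → A) (hp : f2 • p = f1 • q) :
    ∃ t, p = f1 • t := by
  choose t ht using fun i => h.r2 (p i) (q i) (congrFun hp i)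
  exact ⟨t, funext ht⟩

theorem Reg3.v3 (h : Reg3 f1 f2 f3) (p q r : Fin n → A) (hp : f3 • p = f1 • q + f2 • r) :
    ∃ t t', p = f1 • t + f2 • t' := by
  choose t t' ht using fun i => h.r3 (p i) (q i) (r i) (congrFun hp i)
  exact ⟨t, t', funext ht⟩
end vec

section core
variable {n0 n1 n2 n3 : ℕ}
  (p1 : (Fin n1 → A) →ₗ[A] (Fin n0 → A)) (p2 : (Fin n2 → A) →ₗ[A] (Fin n1 → A))
  (p3 : (Fin n3 → A) →ₗ[A] (Fin n2 → A))

theorem core_inj {α β γ : A} (h : Reg3 α β γ) (K2 : (Fin n2 → A) →ₗ[A] (Fin n3 → A))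
    (h5 : ∀ v, K2 (p3 v) = β • v) : Function.Injective p3 := by
  refine (injective_iff_map_eq_zero p3).2 fun w hw => h.v1' w ?_
  rw [← h5, hw, map_zero]

theorem core_ex2 {α β γ : A} (h : Reg3 α β γ) (H2 K2 : (Fin n2 → A) →ₗ[A] (Fin n3 → A))
    (G : (Fin n1 → A) →ₗ[A] (Fin n2 → A))
    (h2 : ∀ v, p3 (H2 v) + G (p2 v) = α • v)
    (h5 : ∀ v, K2 (p3 v) = β • v) (v : Fin n2 → A) (hv : p2 v = 0) : ∃ u, p3 u = v := by
  have e1 : p3 (H2 v) = α • v := by rw [← h2 v, hv, map_zero, add_zero]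
  have e2 : β • H2 v = α • K2 v := by rw [← h5, e1, map_smul]
  obtain ⟨u, hu⟩ := h.v2 _ _ e2
  refine ⟨u, ?_⟩
  have e3 : α • (p3 u - v) = 0 := by rw [smul_sub, ← e1, hu, map_smul, sub_self]
  exact sub_eq_zero.1 (h.v1 _ e3)

theorem core_ex1 {α β γ : A} (h : Reg3 α β γ) (K2 L2 : (Fin n2 → A) →ₗ[A] (Fin n3 → A))
    (H0 : (Fin n0 → A) →ₗ[A] (Fin n1 → A)) (H1 K1 : (Fin n1 → A) →ₗ[A] (Fin n2 → A))
    (h1 : ∀ v, p2 (H1 v) + H0 (p1 v) = α • v)
    (h4 : ∀ v, p3 (K2 v) + K1 (p2 v) = β • v)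
    (h6 : ∀ v, L2 (p3 v) = γ • v) (h23 : ∀ v, p2 (p3 v) = 0)
    (v : Fin n1 → A) (hv : p1 v = 0) : ∃ u, p2 u = v := by
  have e1 : p2 (H1 v) = α • v := by rw [← h1 v, hv, map_zero, add_zero]
  have e2 : β • H1 v = p3 (K2 (H1 v)) + α • K1 v := by rw [← h4 (H1 v), e1, map_smul]
  have e3 : γ • K2 (H1 v) = α • (- L2 (K1 v)) + β • L2 (H1 v) := by
    have := congrArg L2 e2
    rw [map_smul, map_add, h6, map_smul] at this
    rw [this, smul_neg]; abel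
  obtain ⟨u', u, hu⟩ := h.v3 _ _ _ e3
  have e4 : β • (H1 v - p3 u) = α • (p3 u' + K1 v) := by
    rw [smul_sub, e2, hu, map_add, map_smul, map_smul, smul_add]; abel
  obtain ⟨t, ht⟩ := h.v2 _ _ e4
  refine ⟨t, ?_⟩
  have e5 : α • (p2 t - v) = 0 := by
    rw [smul_sub, ← e1, ← map_smul, ← ht, map_sub, h23, sub_zero, sub_self]
  exact sub_eq_zero.1 (h.v1 _ e5)
end core

end Pool.Agent.H950R2.PS
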