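import Mathlib
set_option autoImplicit false
set_option linter.unusedVariables false
set_option linter.unusedSectionVars false
/-! General lemmas on dimension and length over Noetherian local rings. -/
namespace Pool.Agent.H950R2.PS
open IsLocalRing RingTheory.Sequence
open scoped Pointwise
set_option linter.style.haveILetI false

/-- An ideal of a local ring such that every prime above it is the maximal ideal. -/
def Prim {A : Type} [CommRing A] [IsLocalRing A] (J : Ideal A) : Prop :=
  ∀ q : Ideal A, q.IsPrime → J ≤ q → q = maximalIdeal A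

theorem krullDimLE_zero {A : Type} [CommRing A] [IsLocalRing A] {J : Ideal A} (hJ : Prim J) :
    Ring.KrullDimLE 0 (A ⧸ J) := by
  rw [Ideal.krullDimLE_zero_quotient_iff_forall_minimalPrimes_isMaximal]
  intro q hq
  rw [hJ q hq.1.1 hq.1.2]
  infer_instance

theorem artinian_quot {A : Type} [CommRing A] [IsLocalRing A] [IsNoetherianRing A] {J : Ideal A}
    (hJ : Prim J) : IsArtinianRing (A ⧸ J) :=
  isArtinianRing_iff_krullDimLE_zero.2 (krullDimLE_zero hJ)

theorem finiteLength {A : Type} [CommRing A] [IsLocalRing A] [IsNoetherianRing A] {J : Ideal A}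
    (hJ : Prim J) {T : Type} [AddCommGroup T] [Module A T] (hT : Module.Finite A T)
    (hk : ∀ j ∈ J, ∀ t : T, j • t = 0) : IsFiniteLength A T := by
  rw [isFiniteLength_iff_isNoetherian_isArtinian]
  refine ⟨inferInstance, ?_⟩
  have htor : Module.IsTorsionBySet A T (J : Set A) := by
    intro t j
    exact hk j.1 j.2 t
  letI : Module (A ⧸ J) T := htor.module
  haveI : IsScalarTower A (A ⧸ J) T := htor.isScalarTower
  haveI : Module.Finite (A ⧸ J) T := Module.Finite.of_restrictScalars_finite A (A ⧸ J) T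
  haveI : IsArtinianRing (A ⧸ J) := artinian_quot hJ
  haveI : IsArtinian (A ⧸ J) T := inferInstance
  exact isArtinian_of_surjective_algebraMap (R := A ⧸ J) Ideal.Quotient.mk_surjective

theorem dim_le_three {A : Type} [CommRing A] [IsLocalRing A] [IsNoetherianRing A] {f1 f2 f3 : A}
    (h1 : f1 ∈ maximalIdeal A) (h2 : f2 ∈ maximalIdeal A) (h3 : f3 ∈ maximalIdeal A)
    (hJ : Prim (Ideal.span {f1, f2, f3})) : ringKrullDim A ≤ 3 := by
  classical
  have hS : (((({f1, f2, f3} : Finset A)) : Finset A) : Set A) ⊆ Ring.jacobson A := by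
    rw [IsLocalRing.ringJacobson_eq_maximalIdeal]
    intro g hg
    simp only [Finset.coe_insert, Finset.coe_singleton, Set.mem_insert_iff,
      Set.mem_singleton_iff] at hg
    rcases hg with rfl | rfl | rfl <;> assumption
  have h := ringKrullDim_le_ringKrullDim_quotient_add_card (s := ({f1, f2, f3} : Finset A)) hS
  have h0 : ringKrullDim (A ⧸ Ideal.span (({f1, f2, f3} : Finset A) : Set A)) ≤ 0 := by
    have hc : (({f1, f2, f3} : Finset A) : Set A) = {f1, f2, f3} := by simp
    rw [hc]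
    exact (Ring.krullDimLE_iff).1 (krullDimLE_zero hJ)
  have hcard : ((({f1, f2, f3} : Finset A).card : ℕ) : WithBot ℕ∞) ≤ 3 := by
    have : ({f1, f2, f3} : Finset A).card ≤ 3 := Finset.card_le_three
    exact_mod_cast this
  calc ringKrullDim A ≤ _ := h
    _ ≤ 0 + 3 := add_le_add h0 hcard
    _ = 3 := by simp

theorem weaklyRegular_three {A : Type} [CommRing A] {M : Type} [AddCommGroup M] [Module A M]
    {f1 f2 f3 : A} (h1 : ∀ m : M, f1 • m = 0 → m = 0)
    (h2 : ∀ m m' : M, f2 • m = f1 • m' → ∃ t : M, m = f1 • t)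
    (h3 : ∀ m m' m'' : M, f3 • m = f1 • m' + f2 • m'' → ∃ t t' : M, m = f1 • t + f2 • t') :
    IsWeaklyRegular M [f1, f2, f3] := by
  rw [isWeaklyRegular_iff_Fin]
  intro i
  rw [isSMulRegular_quotient_iff_mem_of_smul_mem]
  fin_cases i
  · intro m hm
    have e : Ideal.ofList ([f1, f2, f3].take 0) • (⊤ : Submodule A M) = ⊥ := by
      simp
    change f1 • m ∈ Ideal.ofList ([f1, f2, f3].take 0) • (⊤ : Submodule A M) at hm
    change m ∈ Ideal.ofList ([f1, f2, f3].take 0) • (⊤ : Submodule A M)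
    rw [e, Submodule.mem_bot] at hm ⊢
    exact h1 m hm
  · intro m hm
    have e : Ideal.ofList ([f1, f2, f3].take 1) • (⊤ : Submodule A M) = f1 • ⊤ := by
      simp [Submodule.ideal_span_singleton_smul, Submodule.sup_smul]
    change f2 • m ∈ Ideal.ofList ([f1, f2, f3].take 1) • (⊤ : Submodule A M) at hm
    change m ∈ Ideal.ofList ([f1, f2, f3].take 1) • (⊤ : Submodule A M)
    rw [e, Submodule.mem_smul_pointwise_iff_exists] at hm ⊢
    obtain ⟨m', -, hm'⟩ := hm
    obtain ⟨t, ht⟩ := h2 m m' hm'.symm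
    exact ⟨t, trivial, ht.symm⟩
  · intro m hm
    have e : Ideal.ofList ([f1, f2, f3].take 2) • (⊤ : Submodule A M) = f1 • ⊤ ⊔ f2 • ⊤ := by
      simp [Submodule.ideal_span_singleton_smul, Submodule.sup_smul]
    change f3 • m ∈ Ideal.ofList ([f1, f2, f3].take 2) • (⊤ : Submodule A M) at hm
    change m ∈ Ideal.ofList ([f1, f2, f3].take 2) • (⊤ : Submodule A M)
    rw [e, Submodule.mem_sup] at hm ⊢
    obtain ⟨p, hp, q, hq, hpq⟩ := hm
    rw [Submodule.mem_smul_pointwise_iff_exists] at hp hq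
    obtain ⟨m', -, hm'⟩ := hp
    obtain ⟨m'', -, hm''⟩ := hq
    obtain ⟨t, t', ht⟩ := h3 m m' m'' (by rw [hm', hm'', hpq])
    exact ⟨f1 • t, Submodule.smul_mem_pointwise_smul _ _ _ trivial, f2 • t',
      Submodule.smul_mem_pointwise_smul _ _ _ trivial, ht.symm⟩

theorem supportDim_ge_three {A : Type} [CommRing A] [IsLocalRing A] [IsNoetherianRing A]
    {M : Type} [AddCommGroup M] [Module A M] [Module.Finite A M] [Nontrivial M] {f1 f2 f3 : A}
    (m1 : f1 ∈ maximalIdeal A) (m2 : f2 ∈ maximalIdeal A) (m3 : f3 ∈ maximalIdeal A)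
    (h1 : ∀ m : M, f1 • m = 0 → m = 0)
    (h2 : ∀ m m' : M, f2 • m = f1 • m' → ∃ t : M, m = f1 • t)
    (h3 : ∀ m m' m'' : M, f3 • m = f1 • m' + f2 • m'' → ∃ t t' : M, m = f1 • t + f2 • t') :
    3 ≤ Module.supportDim A M := by
  have hr : IsRegular M [f1, f2, f3] :=
    IsRegular.of_isWeaklyRegular_of_mem_maximalIdeal M (by
      intro r hr
      simp only [List.mem_cons, List.not_mem_nil, or_false] at hr
      rcases hr with rfl | rfl | rfl <;> assumption)
      (weaklyRegular_three h1 h2 h3)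
  have h := Module.supportDim_add_length_eq_supportDim_of_isRegular _ hr
  have hn : Nontrivial (M ⧸ Ideal.ofList [f1, f2, f3] • (⊤ : Submodule A M)) :=
    hr.quot_ofList_smul_nontrivial ⊤ 
  rw [← h]
  have h0 : 0 ≤ Module.supportDim A (M ⧸ Ideal.ofList [f1, f2, f3] • (⊤ : Submodule A M)) := by
    have := Module.supportDim_ne_bot_of_nontrivial A
      (M ⧸ Ideal.ofList [f1, f2, f3] • (⊤ : Submodule A M))
    obtain ⟨n, hn⟩ := WithBot.ne_bot_iff_exists.1 this
    rw [← hn]
    exact_mod_cast (bot_le : (0 : ℕ∞) ≤ n)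
  calc (3 : WithBot ℕ∞) = 0 + 3 := by simp
    _ ≤ _ := add_le_add h0 (by simp)

theorem supportDim_ge_one {A : Type} [CommRing A] [IsLocalRing A] [IsNoetherianRing A]
    {M : Type} [AddCommGroup M] [Module A M] [Module.Finite A M] [Nontrivial M] {f1 : A}
    (m1 : f1 ∈ maximalIdeal A) (h1 : ∀ m : M, f1 • m = 0 → m = 0) :
    1 ≤ Module.supportDim A M := by
  have hreg : IsSMulRegular M f1 := isSMulRegular_iff_right_eq_zero_of_smul.2 h1
  have h := Module.supportDim_quotSMulTop_succ_eq_supportDim hreg m1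
  have hn : Nontrivial (QuotSMulTop f1 M) := nontrivial_quotSMulTop_of_mem_maximalIdeal M m1
  rw [← h]
  have h0 : 0 ≤ Module.supportDim A (QuotSMulTop f1 M) := by
    have := Module.supportDim_ne_bot_of_nontrivial A (QuotSMulTop f1 M)
    obtain ⟨n, hn⟩ := WithBot.ne_bot_iff_exists.1 this
    rw [← hn]
    exact_mod_cast (bot_le : (0 : ℕ∞) ≤ n)
  calc (1 : WithBot ℕ∞) = 0 + 1 := by simp
    _ ≤ _ := add_le_add h0 le_rfl

end Pool.Agent.H950R2.PS
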