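import Mathlib
set_option autoImplicit false
set_option linter.unusedVariables false
set_option linter.unusedSectionVars false
/-! The ring `P ⊕ P c ⊕ P d` with `c² = -z c`, `c d = -z d`, `d² = (x - z) c - y d`. -/
namespace Pool.Agent.H950R2.PS
open IsLocalRing

variable {P : Type} [CommRing P]

/-- The underlying type of the ring `P ⊕ P c ⊕ P d`. -/
def CA (_ _ _ : P) : Type := P × P × P

namespace CA
variable (x y z : P)

instance : AddCommGroup (CA x y z) := inferInstanceAs (AddCommGroup (P × P × P))
instance : Module P (CA x y z) := inferInstanceAs (Module P (P × P × P))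

variable {x y z}

def mk (u v w : P) : CA x y z := (u, v, w)
def u (g : CA x y z) : P := g.1
def v (g : CA x y z) : P := g.2.1
def w (g : CA x y z) : P := g.2.2

@[ext] theorem ext {g h : CA x y z} (h1 : g.u = h.u) (h2 : g.v = h.v) (h3 : g.w = h.w) : g = h :=
  Prod.ext h1 (Prod.ext h2 h3)

@[simp] theorem u_mk (p q r : P) : (mk p q r : CA x y z).u = p := rfl
@[simp] theorem v_mk (p q r : P) : (mk p q r : CA x y z).v = q := rfl
@[simp] theorem w_mk (p q r : P) : (mk p q r : CA x y z).w = r := rfl
@[simp] theorem u_add (g h : CA x y z) : (g + h).u = g.u + h.u := rfl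
@[simp] theorem v_add (g h : CA x y z) : (g + h).v = g.v + h.v := rfl
@[simp] theorem w_add (g h : CA x y z) : (g + h).w = g.w + h.w := rfl
@[simp] theorem u_neg (g : CA x y z) : (-g).u = -g.u := rfl
@[simp] theorem v_neg (g : CA x y z) : (-g).v = -g.v := rfl
@[simp] theorem w_neg (g : CA x y z) : (-g).w = -g.w := rfl
@[simp] theorem u_sub (g h : CA x y z) : (g - h).u = g.u - h.u := rfl
@[simp] theorem v_sub (g h : CA x y z) : (g - h).v = g.v - h.v := rfl
@[simp] theorem w_sub (g h : CA x y z) : (g - h).w = g.w - h.w := rfl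
@[simp] theorem u_zero : (0 : CA x y z).u = 0 := rfl
@[simp] theorem v_zero : (0 : CA x y z).v = 0 := rfl
@[simp] theorem w_zero : (0 : CA x y z).w = 0 := rfl
@[simp] theorem u_smul (p : P) (g : CA x y z) : (p • g).u = p * g.u := rfl
@[simp] theorem v_smul (p : P) (g : CA x y z) : (p • g).v = p * g.v := rfl
@[simp] theorem w_smul (p : P) (g : CA x y z) : (p • g).w = p * g.w := rfl

instance : Mul (CA x y z) :=
  ⟨fun g h => mk (g.u * h.u) (g.u * h.v + g.v * h.u - z * g.v * h.v + (x - z) * g.w * h.w)
    (g.u * h.w + g.w * h.u - z * (g.v * h.w + g.w * h.v) - y * g.w * h.w)⟩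
instance : One (CA x y z) := ⟨mk 1 0 0⟩

@[simp] theorem u_mul (g h : CA x y z) : (g * h).u = g.u * h.u := rfl
@[simp] theorem v_mul (g h : CA x y z) :
    (g * h).v = g.u * h.v + g.v * h.u - z * g.v * h.v + (x - z) * g.w * h.w := rfl
@[simp] theorem w_mul (g h : CA x y z) :
    (g * h).w = g.u * h.w + g.w * h.u - z * (g.v * h.w + g.w * h.v) - y * g.w * h.w := rfl
@[simp] theorem u_one : (1 : CA x y z).u = 1 := rfl
@[simp] theorem v_one : (1 : CA x y z).v = 0 := rfl
@[simp] theorem w_one : (1 : CA x y z).w = 0 := rfl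

instance : CommRing (CA x y z) :=
  { (inferInstance : AddCommGroup (CA x y z)) with
    mul := (· * ·)
    one := 1
    left_distrib := fun f g h => by ext <;> simp <;> ring
    right_distrib := fun f g h => by ext <;> simp <;> ring
    zero_mul := fun g => by ext <;> simp
    mul_zero := fun g => by ext <;> simp
    mul_assoc := fun f g h => by ext <;> simp <;> ring
    one_mul := fun g => by ext <;> simp
    mul_one := fun g => by ext <;> simp
    mul_comm := fun g h => by ext <;> simp <;> ring }

variable (x y z) in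
/-- The structure map. -/
def inc : P →+* CA x y z where
  toFun p := mk p 0 0
  map_one' := rfl
  map_mul' p q := by ext <;> simp
  map_zero' := rfl
  map_add' p q := by ext <;> simp

@[simp] theorem u_inc (p : P) : (inc x y z p).u = p := rfl
@[simp] theorem v_inc (p : P) : (inc x y z p).v = 0 := rfl
@[simp] theorem w_inc (p : P) : (inc x y z p).w = 0 := rfl

instance : Algebra P (CA x y z) where
  algebraMap := inc x y z
  commutes' p g := mul_comm _ _
  smul_def' p g := by ext <;> simp

@[simp] theorem algebraMap_eq (p : P) : algebraMap P (CA x y z) p = inc x y z p := rfl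

/-- The retraction killing `c` and `d`. -/
def ret : CA x y z →+* P where
  toFun g := g.u
  map_one' := rfl
  map_mul' _ _ := rfl
  map_zero' := rfl
  map_add' _ _ := rfl

instance [Nontrivial P] : Nontrivial (CA x y z) :=
  ⟨⟨0, 1, fun h => zero_ne_one (congrArg u h)⟩⟩

instance : Module.Finite P (CA x y z) := inferInstanceAs (Module.Finite P (P × P × P))

instance [IsNoetherianRing P] : IsNoetherianRing (CA x y z) :=
  isNoetherian_of_tower P (inferInstance : IsNoetherian P (CA x y z))

theorem isUnit_of [IsLocalRing P] (hx : x ∈ maximalIdeal P) (hy : y ∈ maximalIdeal P)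
    (hz : z ∈ maximalIdeal P) (g : CA x y z) (hg : IsUnit g.u) : IsUnit g := by
  obtain ⟨i, hi⟩ := hg.exists_right_inv
  have hq : IsUnit ((g.u - z * g.v) * (g.u - z * g.v - y * g.w) + z * (x - z) * g.w ^ 2) := by
    have h1 : IsUnit (g.u * g.u) := hg.mul hg
    have h2 : (g.u - z * g.v) * (g.u - z * g.v - y * g.w) + z * (x - z) * g.w ^ 2 - g.u * g.u ∈
        maximalIdeal P := by
      have : (g.u - z * g.v) * (g.u - z * g.v - y * g.w) + z * (x - z) * g.w ^ 2 - g.u * g.u =
          (-2 * g.u * g.v + z * g.v ^ 2 + g.v * y * g.w + (x - z) * g.w ^ 2) * z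
            + (- g.u * g.w) * y := by ring
      rw [this]
      exact Ideal.add_mem _ (Ideal.mul_mem_left _ _ hz) (Ideal.mul_mem_left _ _ hy)
    by_contra hc
    have h3 : (g.u - z * g.v) * (g.u - z * g.v - y * g.w) + z * (x - z) * g.w ^ 2 ∈
        maximalIdeal P := (mem_maximalIdeal _).2 hc
    have h4 : g.u * g.u ∈ maximalIdeal P := by
      have := Ideal.sub_mem _ h3 h2
      have e : (g.u - z * g.v) * (g.u - z * g.v - y * g.w) + z * (x - z) * g.w ^ 2 -
        ((g.u - z * g.v) * (g.u - z * g.v - y * g.w) + z * (x - z) * g.w ^ 2 - g.u * g.u) =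
        g.u * g.u := by ring
      rwa [e] at this
    exact (mem_maximalIdeal _).1 h4 h1
  obtain ⟨j, hj⟩ := hq.exists_right_inv
  refine IsUnit.of_mul_eq_one (mk i (-(i * j) * ((g.u - z * g.v - y * g.w) * g.v - (x - z) * g.w ^ 2))
    (-(i * j) * (g.u * g.w))) ?_
  ext
  · simpa using hi
  · simp only [v_mul, u_mk, v_mk, w_mk, v_one]
    linear_combination (-(i * g.v)) * hj
  · simp only [w_mul, u_mk, v_mk, w_mk, w_one]
    linear_combination (-(i * g.w)) * hj

theorem isLocalRing [IsLocalRing P] (hx : x ∈ maximalIdeal P) (hy : y ∈ maximalIdeal P)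
    (hz : z ∈ maximalIdeal P) : IsLocalRing (CA x y z) := by

  have : IsLocalHom (ret : CA x y z →+* P) := ⟨fun g hg => isUnit_of hx hy hz g hg⟩
  exact RingHom.domain_isLocalRing (ret : CA x y z →+* P)

theorem mem_maximalIdeal_iff [IsLocalRing P] [IsLocalRing (CA x y z)] (hx : x ∈ maximalIdeal P)
    (hy : y ∈ maximalIdeal P) (hz : z ∈ maximalIdeal P) (g : CA x y z) :
    g ∈ maximalIdeal (CA x y z) ↔ g.u ∈ maximalIdeal P := by
  rw [mem_maximalIdeal, mem_maximalIdeal, mem_nonunits_iff, mem_nonunits_iff, not_iff_not]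
  exact ⟨fun h => h.map (ret : CA x y z →+* P), isUnit_of hx hy hz g⟩

/-- The element `c`. -/
def gc : CA x y z := mk 0 1 0
/-- The element `d`. -/
def gd : CA x y z := mk 0 0 1
/-- The element `b = x + c`. -/
def gb : CA x y z := mk x 1 0
/-- The element `a = y + d`. -/
def ga : CA x y z := mk y 0 1
/-- The element `s = z + c`. -/
def gs : CA x y z := mk z 1 0

theorem hsc : (gs : CA x y z) * gc = 0 := by
  ext <;> simp [gs, gc]
theorem hsd : (gs : CA x y z) * gd = 0 := by
  ext <;> simp [gs, gd]
theorem had : (ga : CA x y z) * gd = gb * gc := by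
  ext <;> simp [ga, gb, gc, gd] 
theorem hbc : (gb : CA x y z) - gc = inc x y z x := by
  ext <;> simp [gb, gc]
theorem had' : (ga : CA x y z) - gd = inc x y z y := by
  ext <;> simp [ga, gd]
theorem hsc' : (gs : CA x y z) - gc = inc x y z z := by
  ext <;> simp [gs, gc]

end CA

end Pool.Agent.H950R2.PS
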