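import Pool.Agent.H950R2.PS.Core
import Pool.Agent.H950R2.PS.Ring
import Pool.Agent.H950R2.PS.Dim
set_option autoImplicit false
set_option linter.unusedVariables false
set_option linter.unusedSectionVars false
/-! Regular triples in iterated power series rings and in `CA`. -/
namespace Pool.Agent.H950R2.PS
open IsLocalRing PowerSeries

section ps
variable {S : Type} [CommRing S]

theorem ps_X_reg (k : ℕ) (p : S⟦X⟧) (h : (X : S⟦X⟧) ^ k * p = 0) : p = 0 := by
  ext n
  have := congrArg (coeff (n + k)) h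
  rwa [coeff_X_pow_mul] at this

theorem ps_C_reg {g : S} (hg : ∀ p, g * p = 0 → p = 0) (p : S⟦X⟧) (h : C g * p = 0) : p = 0 := by
  ext n
  have := congrArg (coeff n) h
  rw [coeff_C_mul] at this
  simpa using hg _ (by simpa using this)

theorem ps_dvd (k : ℕ) (p : S⟦X⟧) (h : ∀ m < k, coeff m p = 0) : ∃ t, p = X ^ k * t :=
  X_pow_dvd_iff.2 h

theorem ps_pair {g : S} (hg : ∀ p, g * p = 0 → p = 0) (k : ℕ) (p q : S⟦X⟧)
    (h : C g * p = X ^ k * q) : ∃ t, p = X ^ k * t := by
  refine ps_dvd k p fun m hm => hg _ ?_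
  have := congrArg (coeff m) h
  rwa [coeff_C_mul, coeff_X_pow_mul', if_neg (by omega)] at this

theorem ps_triple {g1 g2 : S} (h0 : ∀ p, g1 * p = 0 → p = 0)
    (h1 : ∀ p q, g2 * p = g1 * q → ∃ t, p = g1 * t) (k : ℕ) :
    Reg3 (X ^ k : S⟦X⟧) (C g1) (C g2) := by
  refine ⟨ps_X_reg k, ps_C_reg h0, ps_pair h0 k, fun p q r h => ?_⟩
  have key : ∀ m, ∃ t, m < k → coeff m p = g1 * t := by
    intro m
    by_cases hm : m < k
    · have := congrArg (coeff m) h
      rw [map_add, coeff_C_mul, coeff_C_mul, coeff_X_pow_mul', if_neg (by omega), zero_add] at this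
      obtain ⟨t, ht⟩ := h1 _ _ this
      exact ⟨t, fun _ => ht⟩
    · exact ⟨0, fun h => absurd h hm⟩
  choose t ht using key
  obtain ⟨t', ht'⟩ := ps_dvd k (p - C g1 * mk t) (by
    intro m hm
    rw [map_sub, coeff_C_mul, coeff_mk, ht m hm, sub_self])
  exact ⟨t', mk t, by rw [← ht']; ring⟩
end ps

/-- The regular local ring of dimension three. -/
abbrev P1 : Type := ℚ⟦X⟧
abbrev P2 : Type := P1⟦X⟧
abbrev PP : Type := P2⟦X⟧

noncomputable def px : PP := X
noncomputable def py : PP := C X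
noncomputable def pz : PP := C (C X)

theorem reg_PP : Reg3 (px ^ 3) (py ^ 3) (pz ^ 3) := by
  have h := ps_triple (S := P2) (g1 := X ^ 3) (g2 := C X ^ 3) (ps_X_reg 3) (fun p q hpq =>
    ps_pair (S := P1) (g := X ^ 3) (ps_X_reg 3) 3 p q (by rw [map_pow]; exact hpq)) 3
  simpa [px, py, pz] using h

theorem local_ps (S : Type) [CommRing S] [IsLocalRing S] : IsLocalRing S⟦X⟧ := inferInstance

instance : IsLocalRing P2 := local_ps _
instance : IsLocalRing PP := local_ps _

theorem mem_max_ps {S : Type} [CommRing S] [IsLocalRing S] (f : S⟦X⟧) :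
    f ∈ maximalIdeal S⟦X⟧ ↔ constantCoeff f ∈ maximalIdeal S := by
  rw [mem_maximalIdeal, mem_maximalIdeal, mem_nonunits_iff, mem_nonunits_iff,
    isUnit_iff_constantCoeff]

theorem px_mem : px ∈ maximalIdeal PP := by
  rw [mem_max_ps]; simp [px]
theorem py_mem : py ∈ maximalIdeal PP := by
  rw [mem_max_ps]; simp only [py, constantCoeff_C]; rw [mem_max_ps]; simp
theorem pz_mem : pz ∈ maximalIdeal PP := by
  rw [mem_max_ps]; simp only [pz, constantCoeff_C]; rw [mem_max_ps, constantCoeff_C, mem_max_ps]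
  simp

theorem PP_span (f : PP) (hf : f ∈ maximalIdeal PP) : ∃ p q r, f = px * p + py * q + pz * r := by
  rw [mem_max_ps] at hf
  obtain ⟨p, hp⟩ := ps_dvd 1 (f - C (constantCoeff f)) (by
    intro m hm
    obtain rfl : m = 0 := by omega
    simp)
  set g : P2 := constantCoeff f with hg
  rw [mem_max_ps] at hf
  obtain ⟨q, hq⟩ := ps_dvd 1 (g - C (constantCoeff g)) (by
    intro m hm
    obtain rfl : m = 0 := by omega
    simp)
  set h : P1 := constantCoeff g with hh
  rw [mem_max_ps] at hf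
  obtain ⟨r, hr⟩ := ps_dvd 1 h (by
    intro m hm
    obtain rfl : m = 0 := by omega
    simpa using hf)
  refine ⟨p, C q, C (C r), ?_⟩
  have e1 : f = C g + X ^ 1 * p := by rw [← hp]; ring
  have e2 : g = C h + X ^ 1 * q := by rw [← hq]; ring
  rw [e1, e2, hr]
  simp only [px, py, pz, map_add, map_mul, pow_one]
  ring

namespace CA
variable {P : Type} [CommRing P] {x y z : P}

theorem reg3 {f1 f2 f3 : P} (h : Reg3 f1 f2 f3) :
    Reg3 (inc x y z f1) (inc x y z f2) (inc x y z f3) := by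
  refine ⟨fun p hp => ?_, fun p hp => ?_, fun p q hp => ?_, fun p q r hp => ?_⟩
  · have h1 := congrArg u hp
    have h2 := congrArg v hp
    have h3 := congrArg w hp
    simp at h1 h2 h3
    ext
    · exact h.r1 _ h1
    · exact h.r1 _ h2
    · exact h.r1 _ h3
  · have h1 := congrArg u hp
    have h2 := congrArg v hp
    have h3 := congrArg w hp
    simp at h1 h2 h3
    ext
    · exact h.r1' _ h1
    · exact h.r1' _ h2
    · exact h.r1' _ h3
  · have h1 := congrArg u hp
    have h2 := congrArg v hp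
    have h3 := congrArg w hp
    simp at h1 h2 h3
    obtain ⟨t1, ht1⟩ := h.r2 _ _ h1
    obtain ⟨t2, ht2⟩ := h.r2 _ _ h2
    obtain ⟨t3, ht3⟩ := h.r2 _ _ h3
    exact ⟨mk t1 t2 t3, by ext <;> simp [ht1, ht2, ht3]⟩
  · have h1 := congrArg u hp
    have h2 := congrArg v hp
    have h3 := congrArg w hp
    simp at h1 h2 h3
    obtain ⟨t1, s1, ht1⟩ := h.r3 _ _ _ h1
    obtain ⟨t2, s2, ht2⟩ := h.r3 _ _ _ h2
    obtain ⟨t3, s3, ht3⟩ := h.r3 _ _ _ h3
    exact ⟨mk t1 t2 t3, mk s1 s2 s3, by ext <;> simp [ht1, ht2, ht3]⟩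

/-- membership in the ideal of `s` -/
theorem mem_span_gs (g : CA x y z) : g ∈ Ideal.span {(gs : CA x y z)} ↔ g.w = 0 ∧ g.u = z * g.v := by
  rw [Ideal.mem_span_singleton]
  constructor
  · rintro ⟨k, rfl⟩
    constructor
    · simp [gs]
    · simp [gs]
  · rintro ⟨h1, h2⟩
    refine ⟨mk g.v 0 0, ?_⟩
    ext <;> simp [gs, h1, h2]

/-- elements of the ideal `(a, b, c, d)` have `u`-component in `(x, y)` -/
theorem mem_span_abcd (g : CA x y z)
    (hg : g ∈ Ideal.span {(ga : CA x y z), gb, gc, gd}) : g.u ∈ Ideal.span {x, y} := by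
  have : Ideal.span {(ga : CA x y z), gb, gc, gd} ≤ (Ideal.span {x, y}).comap (ret : CA x y z →+* P) := by
    rw [Ideal.span_le]
    intro k hk
    simp only [Set.mem_insert_iff, Set.mem_singleton_iff] at hk
    rcases hk with rfl | rfl | rfl | rfl
    · exact Ideal.subset_span (by simp [ret, ga])
    · exact Ideal.subset_span (by simp [ret, gb])
    · simp [ret, gc]
    · simp [ret, gd]
  exact this hg

/-- every prime containing the cubes of `x`, `y`, `z` is the maximal ideal. -/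
theorem prim [IsLocalRing P] [IsLocalRing (CA x y z)] (hx : x ∈ maximalIdeal P)
    (hy : y ∈ maximalIdeal P) (hz : z ∈ maximalIdeal P)
    (hP : ∀ f ∈ maximalIdeal P, ∃ p q r, f = x * p + y * q + z * r)
    (J : Ideal (CA x y z)) (h1 : inc x y z x ^ 3 ∈ J) (h2 : inc x y z y ^ 3 ∈ J)
    (h3 : inc x y z z ^ 3 ∈ J) : Prim J := by
  intro q hq hJ
  have hx' : inc x y z x ∈ q := hq.mem_of_pow_mem _ (hJ h1)
  have hy' : inc x y z y ∈ q := hq.mem_of_pow_mem _ (hJ h2)
  have hz' : inc x y z z ∈ q := hq.mem_of_pow_mem _ (hJ h3)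
  have hc : (gc : CA x y z) ∈ q := by
    refine hq.mem_of_pow_mem 2 ?_
    have : (gc : CA x y z) ^ 2 = - inc x y z z * gc := by
      rw [pow_two]; ext <;> simp [gc]
    rw [this]
    exact q.mul_mem_right _ (q.neg_mem hz')
  have hd : (gd : CA x y z) ∈ q := by
    refine hq.mem_of_pow_mem 2 ?_
    have : (gd : CA x y z) ^ 2 = (inc x y z x - inc x y z z) * gc - inc x y z y * gd := by
      rw [pow_two]; ext <;> simp [gc, gd]
    rw [this]
    exact q.sub_mem (q.mul_mem_right _ (q.sub_mem hx' hz')) (q.mul_mem_right _ hy')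
  refine le_antisymm (le_maximalIdeal hq.ne_top) fun g hg => ?_
  rw [mem_maximalIdeal_iff hx hy hz] at hg
  obtain ⟨p1, p2, p3, hp⟩ := hP _ hg
  have : g = inc x y z x * inc x y z p1 + inc x y z y * inc x y z p2 + inc x y z z * inc x y z p3
      + inc x y z g.v * gc + inc x y z g.w * gd := by
    ext
    · simp [gc, gd, hp]
    · simp [gc, gd]
    · simp [gc, gd]
  rw [this]
  exact q.add_mem (q.add_mem (q.add_mem (q.add_mem (q.mul_mem_right _ hx') (q.mul_mem_right _ hy'))
    (q.mul_mem_right _ hz')) (q.mul_mem_left _ hc)) (q.mul_mem_left _ hd)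

end CA
end Pool.Agent.H950R2.PS
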