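import Mathlib
set_option autoImplicit false
set_option linter.unusedVariables false
/-! A finite exact sequence of projective modules gives a finite projective resolution. -/
namespace Pool.Agent.H950R2.PS
open CategoryTheory CategoryTheory.Limits

section
variable {A : Type} [CommRing A] (P0 P1 P2 P3 : ModuleCat.{0} A)

def Xs : ℕ → ModuleCat.{0} A
  | 0 => P0
  | 1 => P1
  | 2 => P2
  | 3 => P3
  | _ + 4 => ModuleCat.of A PUnit

variable {P0 P1 P2 P3} (d1 : P1 ⟶ P0) (d2 : P2 ⟶ P1) (d3 : P3 ⟶ P2)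

def ds : ∀ n, Xs P0 P1 P2 P3 (n + 1) ⟶ Xs P0 P1 P2 P3 n
  | 0 => d1
  | 1 => d2
  | 2 => d3
  | _ + 3 => 0

theorem ds_comp (h21 : d2 ≫ d1 = 0) (h32 : d3 ≫ d2 = 0) (n : ℕ) :
    ds d1 d2 d3 (n + 1) ≫ ds d1 d2 d3 n = 0 := by
  match n with
  | 0 => exact h21
  | 1 => exact h32
  | 2 => exact zero_comp
  | n + 3 => exact zero_comp

noncomputable def cx (h21 : d2 ≫ d1 = 0) (h32 : d3 ≫ d2 = 0) : ChainComplex (ModuleCat.{0} A) ℕ :=
  ChainComplex.of (Xs P0 P1 P2 P3) (ds d1 d2 d3) (ds_comp d1 d2 d3 h21 h32)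

theorem cx_d (h21 : d2 ≫ d1 = 0) (h32 : d3 ≫ d2 = 0) (n : ℕ) :
    (cx d1 d2 d3 h21 h32).d (n + 1) n = ds d1 d2 d3 n := ChainComplex.of_d _ _ _

end

theorem exists_resolution {A : Type} [CommRing A] {M P0 P1 P2 P3 : Type}
    [AddCommGroup M] [Module A M] [AddCommGroup P0] [Module A P0] [AddCommGroup P1] [Module A P1]
    [AddCommGroup P2] [Module A P2] [AddCommGroup P3] [Module A P3]
    [Module.Projective A P0] [Module.Projective A P1] [Module.Projective A P2]
    [Module.Projective A P3]
    (d1 : P1 →ₗ[A] P0) (d2 : P2 →ₗ[A] P1) (d3 : P3 →ₗ[A] P2) (e : P0 →ₗ[A] M)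
    (he : Function.Surjective e) (h0 : Function.Exact d1 e) (h1 : Function.Exact d2 d1)
    (h2 : Function.Exact d3 d2) (h3 : Function.Injective d3) :
    ∃ P : ProjectiveResolution (ModuleCat.of A M), ∃ n : ℕ,
      ∀ i : ℕ, n < i → IsZero (P.complex.X i) := by
  let D1 : ModuleCat.of A P1 ⟶ ModuleCat.of A P0 := ModuleCat.ofHom d1
  let D2 : ModuleCat.of A P2 ⟶ ModuleCat.of A P1 := ModuleCat.ofHom d2
  let D3 : ModuleCat.of A P3 ⟶ ModuleCat.of A P2 := ModuleCat.ofHom d3
  let E : ModuleCat.of A P0 ⟶ ModuleCat.of A M := ModuleCat.ofHom e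
  have h21 : D2 ≫ D1 = 0 := by
    ext x
    exact h1.apply_apply_eq_zero x
  have h32 : D3 ≫ D2 = 0 := by
    ext x
    exact h2.apply_apply_eq_zero x
  have h10 : D1 ≫ E = 0 := by
    ext x
    exact h0.apply_apply_eq_zero x
  let K := cx D1 D2 D3 h21 h32
  have hz : ∀ n : ℕ, IsZero (K.X (n + 4)) := by
    intro n
    exact ModuleCat.isZero_of_subsingleton (ModuleCat.of A PUnit)
  have hproj : ∀ n : ℕ, Projective (K.X n) := by
    intro n
    match n with
    | 0 => exact (IsProjective.iff_projective P0).1 inferInstance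
    | 1 => exact (IsProjective.iff_projective P1).1 inferInstance
    | 2 => exact (IsProjective.iff_projective P2).1 inferInstance
    | 3 => exact (IsProjective.iff_projective P3).1 inferInstance
    | n + 4 => exact (hz n).projective
  have hex : ∀ n : ℕ, K.ExactAt (n + 1) := by
    intro n
    rw [HomologicalComplex.exactAt_iff' _ (n + 1 + 1) (n + 1) n (by simp) (by simp)]
    have hsc : (K.sc' (n + 1 + 1) (n + 1) n) = ShortComplex.mk (ds D1 D2 D3 (n + 1)) (ds D1 D2 D3 n)
        (ds_comp D1 D2 D3 h21 h32 n) := by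
      simp only [HomologicalComplex.sc', HomologicalComplex.shortComplexFunctor', K]
      congr 1
      · exact cx_d D1 D2 D3 h21 h32 (n + 1)
      · exact cx_d D1 D2 D3 h21 h32 n
    rw [hsc, ShortComplex.moduleCat_exact_iff]
    match n with
    | 0 =>
      intro x hx
      exact (h1 x).1 hx
    | 1 =>
      intro x hx
      exact (h2 x).1 hx
    | 2 =>
      intro x hx
      refine ⟨0, ?_⟩
      have hx' : d3 x = 0 := hx
      have : x = 0 := h3 (by rw [hx']; exact (map_zero d3).symm)
      rw [this]; rfl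
    | n + 3 =>
      intro x hx
      exact ⟨0, Subsingleton.elim (α := PUnit) _ _⟩
  have hK10 : K.d 1 0 = D1 := cx_d D1 D2 D3 h21 h32 0
  refine ⟨{
    complex := K
    projective := hproj
    π := (ChainComplex.toSingle₀Equiv _ _).symm ⟨E, by rw [hK10]; exact h10⟩
    quasiIso := ⟨fun n => ?_⟩ }, 3, fun i hi => ?_⟩
  · cases n with
    | zero =>
      rw [ChainComplex.quasiIsoAt₀_iff, ShortComplex.quasiIso_iff_of_zeros']
      · have hE : Function.Surjective E := he
        have hex0 : (ShortComplex.mk D1 E h10).Exact := by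
          rw [ShortComplex.moduleCat_exact_iff]
          intro x hx
          exact (h0 x).1 hx
        have hepi : Epi E := (ModuleCat.epi_iff_surjective E).2 hE
        refine (ShortComplex.exact_and_epi_g_iff_of_iso ?_).2
          (⟨hex0, hepi⟩ : (ShortComplex.mk D1 E h10).Exact ∧ Epi (ShortComplex.mk D1 E h10).g)
        refine ShortComplex.isoMk (Iso.refl _) (Iso.refl _) (Iso.refl _) ?_ ?_
        · exact (Category.id_comp D1).trans (hK10.symm.trans (Category.comp_id _).symm)
        · refine (Category.id_comp E).trans (Eq.trans ?_ (Category.comp_id _).symm)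
          exact (ChainComplex.toSingle₀Equiv_symm_apply_f_zero (C := K) (X := ModuleCat.of A M) E (by rw [hK10]; exact h10)).symm
      all_goals rfl
    | succ n =>
      rw [quasiIsoAt_iff_exactAt']
      · exact hex n
      · apply ChainComplex.exactAt_succ_single_obj
  · obtain ⟨j, rfl⟩ : ∃ j, i = j + 4 := ⟨i - 4, by omega⟩
    exact hz j

end Pool.Agent.H950R2.PS
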