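import Pool.Agent.H950R2.PS.Lins
import Pool.Agent.H950R2.PS.Reg
import Pool.Agent.H950R2.PS.Resn
set_option autoImplicit false
set_option linter.unusedVariables false
set_option linter.unusedSectionVars false
set_option linter.style.haveILetI false
set_option linter.unusedSimpArgs false
/-! The counterexample. -/
namespace Pool.Agent.H950R2.PS
open IsLocalRing PowerSeries TensorProduct

section gen
variable {A : Type} [CommRing A] (a b c d s : A)

/-- The cokernel of `phi1`. -/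
abbrev MM : Type := (Fin 4 → A) ⧸ LinearMap.range (phi1L a b c d s)

variable {a b c d s}

theorem resolution_MM (hsc : s*c = 0) (hsd : s*d = 0) (had : a*d = b*c)
    (u1 : IsUnit (36 : A)) (u2 : IsUnit (288*(4+3*d))) (u3 : IsUnit (432*(4+3*d)))
    (hr : Reg3 ((b-c)^3) ((a-d)^3) ((s-c)^3)) :
    ∃ P : CategoryTheory.ProjectiveResolution (ModuleCat.of A (MM a b c d s)), ∃ n : ℕ,
      ∀ i : ℕ, n < i → CategoryTheory.Limits.IsZero (P.complex.X i) := by
  have hr1 : Reg3 (36*(b-c)^3) (432*(4+3*d)*(a-d)^3) (288*(4+3*d)*(s-c)^3) := hr.unit u1 u3 u2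
  have hr2 : Reg3 (288*(4+3*d)*(b-c)^3) (432*(4+3*d)*(a-d)^3) (288*(4+3*d)*(s-c)^3) :=
    hr.unit u2 u3 u2
  refine exists_resolution (phi1L a b c d s) (phi2L a b c d s) (phi3L a b c d s)
    (Submodule.mkQ _) (Submodule.mkQ_surjective _) ?_ ?_ ?_ ?_
  · intro x
    rw [Submodule.mkQ_apply, Submodule.Quotient.mk_eq_zero]
    exact Iff.rfl
  · intro x
    constructor
    · intro hx
      exact core_ex1 (phi1L a b c d s) (phi2L a b c d s) (phi3L a b c d s) hr1
        (K2L a b c d s) (L2L a b c d s) (H0L a b c d s) (H1L a b c d s)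
        ((4+3*d) • (K1L a b c d s)) (id1 a b c d s hsc hsd had)
        (fun v => by
          rw [LinearMap.smul_apply]; exact id4 a b c d s hsc hsd had v)
        (id6 a b c d s hsc hsd had) (c23 a b c d s hsc hsd had) x hx
    · rintro ⟨v, rfl⟩
      exact c12 a b c d s hsc hsd had v
  · intro x
    constructor
    · intro hx
      exact core_ex2 (phi2L a b c d s) (phi3L a b c d s) hr2 (H2L a b c d s) (K2L a b c d s)
        ((8*(4+3*d)) • (H1L a b c d s))
        (fun v => by rw [LinearMap.smul_apply]; exact id2 a b c d s hsc hsd had v)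
        (id5 a b c d s hsc hsd had) x hx
    · rintro ⟨v, rfl⟩
      exact c23 a b c d s hsc hsd had v
  · exact core_inj (phi3L a b c d s) hr2 (K2L a b c d s) (id5 a b c d s hsc hsd had)

theorem smul_mk_eq_zero {g : A} (h : ∀ v : Fin 4 → A, ∃ k, phi1L a b c d s k = g • v)
    (m : MM a b c d s) : g • m = 0 := by
  obtain ⟨v, rfl⟩ := Submodule.mkQ_surjective _ m
  obtain ⟨k, hk⟩ := h v
  rw [← map_smul, Submodule.mkQ_apply, Submodule.Quotient.mk_eq_zero, ← hk]
  exact ⟨k, rfl⟩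

theorem kill_of_unit {n g : A} (hn : IsUnit n) {T : Type} [AddCommGroup T] [Module A T] {m : T}
    (h : (n * g) • m = 0) : g • m = 0 := by
  rw [mul_smul] at h
  exact (hn.smul_eq_zero).1 h

end gen

/-- The ring. -/
abbrev AA : Type := CA px py pz

instance : IsLocalRing AA := CA.isLocalRing px_mem py_mem pz_mem

theorem isUnit_AA (g : AA) (h : IsUnit g.u) : IsUnit g := CA.isUnit_of px_mem py_mem pz_mem g h

theorem isUnit_nat_PP (n : ℕ) (hn : n ≠ 0) : IsUnit (n : PP) := by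
  have h : IsUnit (algebraMap ℚ PP n) := (IsUnit.mk0 (n : ℚ) (by exact_mod_cast hn)).map _
  simpa using h

theorem u_natCast (n : ℕ) : CA.u ((n : AA)) = (n : PP) := map_natCast (CA.ret : AA →+* PP) n

theorem isUnit_nat_AA (n : ℕ) (hn : n ≠ 0) : IsUnit (n : AA) := by
  apply isUnit_AA
  rw [u_natCast]
  exact isUnit_nat_PP n hn

theorem unitU (n : ℕ) (hn : n ≠ 0) : IsUnit ((n : AA) * (4 + 3 * CA.gd)) := by
  apply isUnit_AA
  have h4 : CA.u (4 : AA) = 4 := by exact_mod_cast u_natCast 4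
  rw [CA.u_mul, u_natCast, CA.u_add, CA.u_mul, h4]
  have : CA.u (CA.gd : AA) = 0 := rfl
  rw [this, mul_zero, add_zero]
  have := isUnit_nat_PP (n * 4) (by omega)
  exact_mod_cast this

theorem reg_AA : Reg3 (((CA.gb : AA) - CA.gc)^3) ((CA.ga - CA.gd)^3) ((CA.gs - CA.gc)^3) := by
  rw [CA.hbc, CA.had', CA.hsc', ← map_pow, ← map_pow, ← map_pow]
  exact CA.reg3 reg_PP

/-- The module `M`. -/
abbrev M0 : Type := MM (CA.ga : AA) CA.gb CA.gc CA.gd CA.gs
/-- The module `N`. -/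
abbrev N0 : Type := AA ⧸ Ideal.span {(CA.gs : AA)}

theorem res_M0 : ∃ P : CategoryTheory.ProjectiveResolution (ModuleCat.of AA M0), ∃ n : ℕ,
      ∀ i : ℕ, n < i → CategoryTheory.Limits.IsZero (P.complex.X i) := by
  refine resolution_MM CA.hsc CA.hsd CA.had ?_ ?_ ?_ reg_AA
  · exact_mod_cast isUnit_nat_AA 36 (by norm_num)
  · exact_mod_cast unitU 288 (by norm_num)
  · exact_mod_cast unitU 432 (by norm_num)

theorem prim_AA (J : Ideal AA) (h1 : CA.inc px py pz px ^ 3 ∈ J) (h2 : CA.inc px py pz py ^ 3 ∈ J)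
    (h3 : CA.inc px py pz pz ^ 3 ∈ J) : Prim J :=
  CA.prim px_mem py_mem pz_mem PP_span J h1 h2 h3

theorem inc_mem {p : PP} (hp : p ∈ maximalIdeal PP) : CA.inc px py pz p ∈ maximalIdeal AA := by
  rw [CA.mem_maximalIdeal_iff px_mem py_mem pz_mem]
  exact hp

theorem dim_AA : ringKrullDim AA ≤ 3 := by
  refine dim_le_three (f1 := CA.inc px py pz px ^ 3) (f2 := CA.inc px py pz py ^ 3)
    (f3 := CA.inc px py pz pz ^ 3) ?_ ?_ ?_ (prim_AA _ ?_ ?_ ?_)
  · exact Ideal.pow_mem_of_mem _ (inc_mem px_mem) 3 (by norm_num)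
  · exact Ideal.pow_mem_of_mem _ (inc_mem py_mem) 3 (by norm_num)
  · exact Ideal.pow_mem_of_mem _ (inc_mem pz_mem) 3 (by norm_num)
  · exact Ideal.subset_span (by simp)
  · exact Ideal.subset_span (by simp)
  · exact Ideal.subset_span (by simp)

theorem finlen : IsFiniteLength AA (M0 ⊗[AA] N0) := by
  have hM : Module.Finite AA M0 := inferInstance
  have hN : Module.Finite AA N0 := inferInstance
  have kx' : ∀ m : M0, CA.inc px py pz px ^ 3 • m = 0 := by
    intro m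
    refine kill_of_unit (n := (36 : AA)) (by exact_mod_cast isUnit_nat_AA 36 (by norm_num)) ?_
    refine smul_mk_eq_zero (fun v => ⟨H0L CA.ga CA.gb CA.gc CA.gd CA.gs v, ?_⟩) m
    rw [← CA.hbc]
    exact kx CA.ga CA.gb CA.gc CA.gd CA.gs CA.hsc CA.hsd CA.had v
  have ky' : ∀ m : M0, CA.inc px py pz py ^ 3 • m = 0 := by
    intro m
    refine kill_of_unit (n := (12 : AA)) (by exact_mod_cast isUnit_nat_AA 12 (by norm_num)) ?_
    refine smul_mk_eq_zero (fun v => ⟨K0L CA.ga CA.gb CA.gc CA.gd CA.gs v, ?_⟩) m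
    rw [← CA.had']
    exact ky CA.ga CA.gb CA.gc CA.gd CA.gs CA.hsc CA.hsd CA.had v
  have kc' : ∀ m : M0, (CA.gc : AA) ^ 3 • m = 0 := by
    intro m
    refine kill_of_unit (n := (3 : AA)) (by exact_mod_cast isUnit_nat_AA 3 (by norm_num)) ?_
    refine smul_mk_eq_zero (fun v => ⟨HCL CA.ga CA.gb CA.gc CA.gd CA.gs v, ?_⟩) m
    exact kc CA.ga CA.gb CA.gc CA.gd CA.gs CA.hsc CA.hsd CA.had v
  have ks : ∀ n : N0, (CA.gs : AA) • n = 0 := by
    intro n
    obtain ⟨g, rfl⟩ := Ideal.Quotient.mk_surjective n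
    rw [← Ideal.Quotient.mkₐ_eq_mk AA, ← map_smul, Ideal.Quotient.mkₐ_eq_mk,
      Ideal.Quotient.eq_zero_iff_mem, smul_eq_mul]
    exact Ideal.mul_mem_right _ _ (Ideal.mem_span_singleton_self _)
  have hk : ∀ (g : AA), (∀ (m : M0) (n : N0), g • (m ⊗ₜ[AA] n) = 0) → ∀ t : M0 ⊗[AA] N0, g • t = 0 := by
    intro g hg t
    induction t using TensorProduct.induction_on with
    | zero => exact smul_zero _
    | tmul m n => exact hg m n
    | add p q hp hq => rw [smul_add, hp, hq, add_zero]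
  have tx : ∀ t : M0 ⊗[AA] N0, CA.inc px py pz px ^ 3 • t = 0 := hk _ fun m n => by
    rw [TensorProduct.smul_tmul', kx', TensorProduct.zero_tmul]
  have ty : ∀ t : M0 ⊗[AA] N0, CA.inc px py pz py ^ 3 • t = 0 := hk _ fun m n => by
    rw [TensorProduct.smul_tmul', ky', TensorProduct.zero_tmul]
  have tz : ∀ t : M0 ⊗[AA] N0, CA.inc px py pz pz ^ 3 • t = 0 := hk _ fun m n => by
    have e : CA.inc px py pz pz ^ 3 = (CA.gs : AA) * (CA.gs ^ 2 - 3 * CA.gs * CA.gc + 3 * CA.gc ^ 2)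
        - CA.gc ^ 3 := by
      rw [← CA.hsc']; ring
    have e2 : CA.inc px py pz pz ^ 3 • m
        = (CA.gs : AA) • ((CA.gs ^ 2 - 3 * CA.gs * CA.gc + 3 * CA.gc ^ 2 : AA) • m) := by
      rw [e, sub_smul, kc', sub_zero, mul_smul]
    rw [TensorProduct.smul_tmul', e2, TensorProduct.smul_tmul, ks, TensorProduct.tmul_zero]
  refine finiteLength (J := Ideal.span {CA.inc px py pz px ^ 3, CA.inc px py pz py ^ 3,
    CA.inc px py pz pz ^ 3}) (prim_AA _ ?_ ?_ ?_) inferInstance ?_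
  · exact Ideal.subset_span (by simp)
  · exact Ideal.subset_span (by simp)
  · exact Ideal.subset_span (by simp)
  · intro j hj t
    have hle : Ideal.span {CA.inc px py pz px ^ 3, CA.inc px py pz py ^ 3,
        CA.inc px py pz pz ^ 3} ≤ Module.annihilator AA (M0 ⊗[AA] N0) := by
      rw [Ideal.span_le]
      intro k hk'
      simp only [Set.mem_insert_iff, Set.mem_singleton_iff] at hk'
      simp only [SetLike.mem_coe, Module.mem_annihilator]
      rcases hk' with rfl | rfl | rfl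
      · exact tx
      · exact ty
      · exact tz
    exact Module.mem_annihilator.1 (hle hj) t

theorem N_reg' {f1 f2 f3 : PP} (hR : Reg3 f1 f2 f3) (m1 : f1 ∈ maximalIdeal PP)
    (m2 : f2 ∈ maximalIdeal PP) (m3 : f3 ∈ maximalIdeal PP) : 3 ≤ Module.supportDim AA N0 := by
  haveI : Nontrivial N0 := by
    rw [Ideal.Quotient.nontrivial_iff]
    intro h
    have : (1 : AA) ∈ Ideal.span {(CA.gs : AA)} := by rw [h]; trivial
    rw [CA.mem_span_gs] at this
    have h1 := this.2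
    simp at h1
  have hsurj := Ideal.Quotient.mk_surjective (I := Ideal.span {(CA.gs : AA)})
  have hsm : ∀ (p : PP) (g : AA), CA.inc px py pz p • (Ideal.Quotient.mk (Ideal.span {(CA.gs : AA)}) g)
      = Ideal.Quotient.mk (Ideal.span {(CA.gs : AA)}) (CA.inc px py pz p * g) := fun p g => rfl
  refine supportDim_ge_three (f1 := CA.inc px py pz f1) (f2 := CA.inc px py pz f2)
    (f3 := CA.inc px py pz f3) (inc_mem m1) (inc_mem m2) (inc_mem m3) ?_ ?_ ?_
  · intro m hm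
    obtain ⟨g, rfl⟩ := hsurj m
    rw [hsm, Ideal.Quotient.eq_zero_iff_mem, CA.mem_span_gs] at hm
    rw [Ideal.Quotient.eq_zero_iff_mem, CA.mem_span_gs]
    obtain ⟨h1, h2⟩ := hm
    simp only [CA.w_mul, CA.u_mul, CA.v_mul, CA.u_inc, CA.v_inc, CA.w_inc] at h1 h2
    refine ⟨hR.r1 _ (by linear_combination h1), ?_⟩
    have := hR.r1 (g.u - pz * g.v) (by linear_combination h2)
    linear_combination this
  · intro m m' hm
    obtain ⟨g, rfl⟩ := hsurj m
    obtain ⟨g', rfl⟩ := hsurj m'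
    rw [hsm, hsm, Ideal.Quotient.eq, CA.mem_span_gs] at hm
    obtain ⟨h1, h2⟩ := hm
    simp only [CA.w_mul, CA.u_mul, CA.v_mul, CA.u_inc, CA.v_inc, CA.w_inc, CA.u_sub, CA.v_sub,
      CA.w_sub] at h1 h2
    obtain ⟨t1, ht1⟩ := hR.r2 g.w g'.w (by linear_combination h1)
    obtain ⟨t2, ht2⟩ := hR.r2 (g.u - pz * g.v) (g'.u - pz * g'.v) (by linear_combination h2)
    refine ⟨Ideal.Quotient.mk _ (CA.mk t2 0 t1), ?_⟩
    rw [hsm, Ideal.Quotient.eq, CA.mem_span_gs]
    constructor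
    · simp only [CA.w_mul, CA.u_mul, CA.v_mul, CA.u_inc, CA.v_inc, CA.w_inc, CA.u_sub, CA.v_sub,
        CA.w_sub, CA.u_mk, CA.v_mk, CA.w_mk]
      linear_combination ht1
    · simp only [CA.w_mul, CA.u_mul, CA.v_mul, CA.u_inc, CA.v_inc, CA.w_inc, CA.u_sub, CA.v_sub,
        CA.w_sub, CA.u_mk, CA.v_mk, CA.w_mk]
      linear_combination ht2
  · intro m m' m'' hm
    obtain ⟨g, rfl⟩ := hsurj m
    obtain ⟨g', rfl⟩ := hsurj m'
    obtain ⟨g'', rfl⟩ := hsurj m''
    rw [hsm, hsm, hsm, ← map_add, Ideal.Quotient.eq, CA.mem_span_gs] at hm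
    obtain ⟨h1, h2⟩ := hm
    simp only [CA.w_mul, CA.u_mul, CA.v_mul, CA.u_inc, CA.v_inc, CA.w_inc, CA.u_sub, CA.v_sub,
      CA.w_sub, CA.u_add, CA.v_add, CA.w_add] at h1 h2
    obtain ⟨t1, s1, ht1⟩ := hR.r3 g.w g'.w g''.w (by linear_combination h1)
    obtain ⟨t2, s2, ht2⟩ := hR.r3 (g.u - pz * g.v) (g'.u - pz * g'.v) (g''.u - pz * g''.v)
      (by linear_combination h2)
    refine ⟨Ideal.Quotient.mk _ (CA.mk t2 0 t1), Ideal.Quotient.mk _ (CA.mk s2 0 s1), ?_⟩
    rw [hsm, hsm, ← map_add, Ideal.Quotient.eq, CA.mem_span_gs]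
    constructor
    · simp only [CA.w_mul, CA.u_mul, CA.v_mul, CA.u_inc, CA.v_inc, CA.w_inc, CA.u_sub, CA.v_sub,
        CA.w_sub, CA.u_mk, CA.v_mk, CA.w_mk, CA.u_add, CA.v_add, CA.w_add]
      linear_combination ht1
    · simp only [CA.w_mul, CA.u_mul, CA.v_mul, CA.u_inc, CA.v_inc, CA.w_inc, CA.u_sub, CA.v_sub,
        CA.w_sub, CA.u_mk, CA.v_mk, CA.w_mk, CA.u_add, CA.v_add, CA.w_add]
      linear_combination ht2

theorem N_reg : 3 ≤ Module.supportDim AA N0 :=
  N_reg' reg_PP (Ideal.pow_mem_of_mem _ px_mem 3 (by norm_num))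
    (Ideal.pow_mem_of_mem _ py_mem 3 (by norm_num)) (Ideal.pow_mem_of_mem _ pz_mem 3 (by norm_num))

/-- the quotient `A / (a, b, c, d)` -/
abbrev L0 : Type := AA ⧸ Ideal.span {(CA.ga : AA), CA.gb, CA.gc, CA.gd}

theorem reg_PP1 (p : PP) (h : pz * p ∈ Ideal.span {px, py}) : p ∈ Ideal.span {px, py} := by
  rw [Ideal.mem_span_pair] at h ⊢
  obtain ⟨q, r, hqr⟩ := h
  have hX : ∀ p : P1, (X : P1) ^ 1 * p = 0 → p = 0 := ps_X_reg 1
  have hX2 : ∀ p : P2, (X : P2) ^ 1 * p = 0 → p = 0 := ps_X_reg 1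
  have h := ps_triple (S := P2) (g1 := X ^ 1) (g2 := C (X ^ 1)) hX2 (fun p q hpq =>
    ps_pair (S := P1) (g := X ^ 1) hX 1 p q hpq) 1
  obtain ⟨t, t', ht⟩ := h.r3 p q r (by
    simp only [px, py, pz, pow_one] at hqr ⊢
    linear_combination -hqr)
  exact ⟨t, t', by
    simp only [px, py, pz, pow_one] at ht ⊢
    linear_combination -ht⟩

theorem one_notMem : (1 : PP) ∉ Ideal.span {px, py} := by
  intro h
  have hle : Ideal.span {px, py} ≤ maximalIdeal PP := by
    rw [Ideal.span_le]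
    intro k hk
    simp only [Set.mem_insert_iff, Set.mem_singleton_iff] at hk
    rcases hk with rfl | rfl
    · exact px_mem
    · exact py_mem
  exact (Ideal.ne_top_iff_one _).1 (maximalIdeal.isMaximal PP).ne_top (hle h)

theorem mem_abcd_iff (g : AA) : g ∈ Ideal.span {(CA.ga : AA), CA.gb, CA.gc, CA.gd} ↔
    g.u ∈ Ideal.span {px, py} := by
  refine ⟨CA.mem_span_abcd g, fun h => ?_⟩
  rw [Ideal.mem_span_pair] at h
  obtain ⟨p, q, hpq⟩ := h
  have : g = CA.inc px py pz q * CA.ga + CA.inc px py pz p * CA.gb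
      + CA.inc px py pz (g.v - p) * CA.gc + CA.inc px py pz (g.w - q) * CA.gd := by
    ext
    · have e1 : CA.u (CA.ga : AA) = py := rfl
      have e2 : CA.u (CA.gb : AA) = px := rfl
      have e3 : CA.u (CA.gc : AA) = 0 := rfl
      have e4 : CA.u (CA.gd : AA) = 0 := rfl
      simp only [CA.u_add, CA.u_mul, CA.u_inc, e1, e2, e3, e4]
      rw [← hpq]
      ring_nf
    · simp [CA.ga, CA.gb, CA.gc, CA.gd]
    · simp [CA.ga, CA.gb, CA.gc, CA.gd]
  rw [this]
  refine Ideal.add_mem _ (Ideal.add_mem _ (Ideal.add_mem _ ?_ ?_) ?_) ?_ <;>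
  exact Ideal.mul_mem_left _ _ (Ideal.subset_span (by simp))

theorem L_dim : 1 ≤ Module.supportDim AA L0 := by
  haveI : Nontrivial L0 := by
    rw [Ideal.Quotient.nontrivial_iff]
    intro h
    have : (1 : AA) ∈ Ideal.span {(CA.ga : AA), CA.gb, CA.gc, CA.gd} := by rw [h]; trivial
    rw [mem_abcd_iff] at this
    exact one_notMem this
  refine supportDim_ge_one (f1 := CA.inc px py pz pz) (inc_mem pz_mem) ?_
  intro m hm
  obtain ⟨g, rfl⟩ := Ideal.Quotient.mk_surjective m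
  change Ideal.Quotient.mk _ (CA.inc px py pz pz * g) = 0 at hm
  rw [Ideal.Quotient.eq_zero_iff_mem, mem_abcd_iff] at hm ⊢
  exact reg_PP1 _ hm

theorem M_dim : 1 ≤ Module.supportDim AA M0 := by
  let f : (Fin 4 → AA) →ₗ[AA] L0 :=
    (Ideal.Quotient.mkₐ AA (Ideal.span {(CA.ga : AA), CA.gb, CA.gc, CA.gd})).toLinearMap ∘ₗ
      ((LinearMap.proj 0 : (Fin 4 → AA) →ₗ[AA] AA) - (LinearMap.proj 3 : (Fin 4 → AA) →ₗ[AA] AA))
  have hf : ∀ v, f v = Ideal.Quotient.mk _ (v 0 - v 3) := fun v => rfl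
  have hle : LinearMap.range (phi1L (CA.ga : AA) CA.gb CA.gc CA.gd CA.gs) ≤ LinearMap.ker f := by
    rintro _ ⟨v, rfl⟩
    rw [LinearMap.mem_ker, hf, Ideal.Quotient.eq_zero_iff_mem]
    have e : phi1L (CA.ga : AA) CA.gb CA.gc CA.gd CA.gs v 0 - phi1L (CA.ga : AA) CA.gb CA.gc CA.gd CA.gs v 3 =
      (v 4 - 2 * v 4 - v 5 + CA.gc * v 7) * CA.ga + (-2 * v 1 - CA.gd * v 1 - 3 * v 3 + v 1) * CA.gb
        + (-v 7 + 3 * v 2 + 2 * v 7) * CA.gc + (v 5 + 2 * v 8 - v 8) * CA.gd := by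
      change (((-2*CA.gb - CA.gb*CA.gd) * v 1 + (-3*CA.gb) * v 3 + (CA.ga) * v 4 + (CA.gd) * v 5
        + (CA.gs) * v 6 + (-CA.gc) * v 7 + (2*CA.gd) * v 8) : AA) - ((-CA.gb) * v 1 + (-3*CA.gc) * v 2
        + (2*CA.ga) * v 4 + (CA.ga) * v 5 + (CA.gs) * v 6 + (-2*CA.gc - CA.ga*CA.gc) * v 7
        + (CA.gd) * v 8) = _
      ring
    rw [e]
    refine Ideal.add_mem _ (Ideal.add_mem _ (Ideal.add_mem _ ?_ ?_) ?_) ?_ <;>
    exact Ideal.mul_mem_left _ _ (Ideal.subset_span (by simp))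
  let F : M0 →ₗ[AA] L0 := Submodule.liftQ _ f hle
  have hF : Function.Surjective F := by
    intro l
    obtain ⟨g, rfl⟩ := Ideal.Quotient.mk_surjective l
    refine ⟨Submodule.mkQ _ (fun i => if i = 0 then g else 0), ?_⟩
    change f _ = _
    rw [hf]
    simp
  exact L_dim.trans (Module.supportDim_le_of_surjective F hF)

theorem final : ¬ (∀ (A : Type) [CommRing A] [IsNoetherianRing A] [IsLocalRing A]
      (M N : Type) [AddCommGroup M] [Module A M] [AddCommGroup N] [Module A N],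
      Module.Finite A M → Module.Finite A N →
      (∃ P : CategoryTheory.ProjectiveResolution (ModuleCat.of A M), ∃ n : ℕ,
        ∀ i : ℕ, n < i → CategoryTheory.Limits.IsZero (P.complex.X i)) →
      IsFiniteLength A (TensorProduct A M N) →
      Module.supportDim A M + Module.supportDim A N ≤ ringKrullDim A) := by
  intro H
  have h := H AA M0 N0 inferInstance inferInstance res_M0 finlen
  have h1 := add_le_add M_dim N_reg
  have h2 := (h1.trans h).trans dim_AA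
  revert h2
  have : ¬ ((1 : WithBot ℕ∞) + 3 ≤ 3) := by
    have e : ((1 : WithBot ℕ∞) + 3) = ((4 : ℕ) : WithBot ℕ∞) := by norm_num
    rw [e]
    intro h
    have : (4 : ℕ) ≤ 3 := by exact_mod_cast h
    omega
  exact this

end Pool.Agent.H950R2.PS
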