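import Pool.Agent.H950R2.PS.Mats
set_option autoImplicit false
set_option linter.unusedVariables false
set_option linter.unusedSectionVars false
/-! Generated matrix identities. -/
namespace Pool.Agent.H950R2.PS
variable {A : Type} [CommRing A]

theorem id2_0 (a b c d s : A) (hsc : s*c = 0) (hsd : s*d = 0) (had : a*d = b*c) (v0 v1 v2 v3 v4 v5 v6 v7 v8 : A) :
    ((4*s) * ((-384*a*c - 576*b*c^2 + 96*a^2*c - 216*b*c^2*d + 72*a*b*c^2) * v0 + (-96*b*c + 192*a^2 - 72*b*c*d + 240*a*b*c + 72*b^2*c^2) * v1 + (1152*c^2 - 1152*b*c + 384*b^2 + 864*c^2*d - 864*b*c*d + 288*b^2*d - 288*c^4 - 216*c^4*d) * v2 + (-864*c^3 - 648*c^3*d) * v3 + (384*a*s + 288*a*c^2 + 216*b*c^3) * v4 + (576*b*s + 96*c^3 + 72*c^3*d) * v5 + (384*c^2 + 288*c^2*d - 96*a*c^2 - 72*b*c^3) * v6 + (96*a*c^2 + 72*b*c^3) * v7 +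 (192*s^2 + 192*a*c + 240*b*c^2 + 72*b*c^2*d) * v8) + (24*c + 12*c*d) * ((216*b*c - 216*b^2 + 108*c^2*d + 162*b*c*d + 81*c^2*d^2) * v0 + (-24*a*c + 27*c*d^2 - 81*b*d^2 - 54*b*c^2 - 27*b*c^2*d) * v1 + (576*c*d + 288*b*s - 192*b*d + 96*a*b + 396*c*d^2 - 108*b*d^2 - 324*c*d^3) * v2 + (216*d^2 + 288*b^2) * v3 + (-216*b*d) * v4 + (-288*a + 432*s^2 - 72*d^2 + 54*b^2*d) * v5 + (-576*b - 288*b*s + 216*b*d + 324*b*d^2) * v6 + (-288*c - 648*c*d - 216*b*d - 324*c*d^2) * v7 + (-72*d - 162*d^2 - 24*c^2 - 81*d^3 - 54*c^2*d - 27*c^2*d^2) * v8) + (-24*c - 36*c*d) * ((48*c^2 + 72*b*c + 72*c^2*d + 54*b*c*d + 27*c^2*d^2) * v0 + (12*c*d - 36*b*d - 24*a*c + 9*c*d^2 - 27*b*d^2 - 30*b*c^2 - 9*b*c^2*d) * v1 + (144*c*d - 48*b*d - 36*c*d^2 - 36*b*d^2 - 108*c*d^3) * v2 + (24*b^2 + 18*b^2*d) * v5 + (144*b*d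 + 108*b*d^2) * v6 + (-288*c - 360*c*d - 108*c*d^2) * v7 + (-72*d - 90*d^2 - 24*c^2 - 27*d^3 - 30*c^2*d - 9*c^2*d^2) * v8) + (-d) * ((-1728*a*b) * v0 + (-288*c^2 + 864*b*c) * v1 + (-3456*c^2 - 384*b*c + 2304*a*s + 768*a^2 + 576*c^2*d - 384*b*c*d - 288*b*c*d^2) * v2 + (1728*c*d - 1152*b*d + 2304*a*b - 864*b*d^2) * v3 + (-1728*b*c + 1152*b^2 + 864*b^2*d) * v4 + (-576*c*d + 384*b*d + 1728*a*c - 576*a*b + 288*b*d^2) * v5 + (-6912*s^2 + 1728*b*c - 1152*b^2 - 2304*a*s - 864*b^2*d) * v6 + (4608*a - 2304*b*s + 1728*b*c + 1152*b^2 + 864*b^2*d) * v7 + (1152*b + 864*b*d) * v8)) + ((8*(4+3*d)) * ((8*s) * ((-4*c*d + 8*a*c - 3*c*d^2) * v0 + (-d^2 + 2*b*c - 3*a^2 + b*c*d) * v1 + (6*c^2 - 6*a*s) * v4 + (-8*c^2) * v6 + (8*c^2) * v7 + (-3*s^2 + 2*c*d - 3*a*c + c*d^2) * v8) + (12*b) * ((3*b^2) * v0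 + (8*c*d - 4*b*s - 4*a*c - c*d^2) * v2 + (-3*d^2 - 12*b*c) * v3 + (3*b*d) * v4 + (-6*s^2 + d^2) * v5 + (-3*b*d) * v6 + (3*b*d) * v7) + (36*c) * ((-12*c*d) * v2 + (6*a) * v5 + (12*b) * v6) + (12*d) * ((-3*c^2*d) * v2 + (-9*c*d) * v3 + (9*b*c) * v4 + (3*c*d) * v5 + (-9*b*c) * v6 + (12*a + 9*b*c) * v7 + (3*b) * v8))) = (288*(4+3*d)*(b-c)^3) * v0 := by
  linear_combination ((-1024*d + 512*a - 1536*d^2 - 2304*b*c + 1536*a*d + 384*a^2 - 576*d^3 - 864*b*c*d + 288*a*b*c) * v0 + (128*b + 352*b*d + 960*a*b + 192*b*d^2 + 288*b^2*c) * v1 + (4608*c + 2304*b + 3456*c*d - 1152*c^3 - 864*c^3*d) * v2 + (-3456*c^2 - 2592*c^2*d) * v3 + (1536*c + 1152*c*d + 1152*a*c + 864*b*c^2) * v4 + (10368*s + 5184*d*s + 384*c^2 + 288*c^2*d) * v5 + (-512*c - 6912*b - 384*c*d - 3456*b*d - 384*a*c - 288*b*c^2) * v6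 + (2048*c + 1536*c*d + 384*a*c + 288*b*c^2) * v7 + (512*d + 640*d^2 + 960*b*c - 576*a*d + 192*d^3 + 288*b*c*d) * v8) * hsc + ((-256*d - 192*d^2 - 576*a^2) * v1 + (-2304*a) * v2 + (-1152*a*s) * v4 + (-1728*b*s) * v5 + (6912*s + 2304*a) * v6 + (2304*b) * v7 + (-576*s^2) * v8) * hsd + ((1728*b) * v0 + (576*c^2) * v1 + (-768*a) * v2 + (-2304*b) * v3 + (576*b) * v5 + (3456*d) * v7) * had

theorem id2_1 (a b c d s : A) (hsc : s*c = 0) (hsd : s*d = 0) (had : a*d = b*c) (v0 v1 v2 v3 v4 v5 v6 v7 v8 : A) :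
    ((16*s) * ((216*b*c - 216*b^2 + 108*c^2*d + 162*b*c*d + 81*c^2*d^2) * v0 + (-24*a*c + 27*c*d^2 - 81*b*d^2 - 54*b*c^2 - 27*b*c^2*d) * v1 + (576*c*d + 288*b*s - 192*b*d + 96*a*b + 396*c*d^2 - 108*b*d^2 - 324*c*d^3) * v2 + (216*d^2 + 288*b^2) * v3 + (-216*b*d) * v4 + (-288*a + 432*s^2 - 72*d^2 + 54*b^2*d) * v5 + (-576*b - 288*b*s + 216*b*d + 324*b*d^2) * v6 + (-288*c - 648*c*d - 216*b*d - 324*c*d^2) * v7 + (-72*d - 162*d^2 - 24*c^2 - 81*d^3 - 54*c^2*d - 27*c^2*d^2) * v8) + (4*c + 3*c*d) * ((-1728*a*b) * v0 + (-288*c^2 + 864*b*c) * v1 + (-3456*c^2 - 384*b*c + 2304*a*s + 768*a^2 + 576*c^2*d - 384*b*c*d - 288*b*c*d^2) * v2 + (1728*c*d - 1152*b*d + 2304*a*b - 864*b*d^2) * v3 + (-1728*b*c + 1152*b^2 + 864*b^2*d) * v4 + (-576*c*d + 384*b*d + 1728*a*c - 576*a*b + 288*b*d^2) * v5 + (-6912*s^2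 + 1728*b*c - 1152*b^2 - 2304*a*s - 864*b^2*d) * v6 + (4608*a - 2304*b*s + 1728*b*c + 1152*b^2 + 864*b^2*d) * v7 + (1152*b + 864*b*d) * v8)) + ((8*(4+3*d)) * ((36*s) * ((3*b^2) * v0 + (8*c*d - 4*b*s - 4*a*c - c*d^2) * v2 + (-3*d^2 - 12*b*c) * v3 + (3*b*d) * v4 + (-6*s^2 + d^2) * v5 + (-3*b*d) * v6 + (3*b*d) * v7) + (24*b) * ((3*a*b) * v0 + (-4*a*s - 9*c^2*d) * v2 + (-27*c*d) * v3 + (9*b*c) * v4 + (6*c + 3*c*d) * v5 + (12*d + 12*s^2 - 3*b*c) * v6 + (3*b*c) * v7) + (-36*c + 12*b) * ((-6*a*b) * v0 + (3*b^2) * v1 + (-12*c^2 + 4*a*s + 6*c^2*d) * v2 + (18*c*d - 12*b*s) * v3 + (-18*b*c) * v4 + (-6*c*d + 6*a*c) * v5 + (-12*s^2 + 18*b*c) * v6 + (-6*b*c) * v7 + (3*b*d) * v8) + (-24*c) * ((12*d^2 - 8*b*c + 4*a^2 - 8*b*c*d) * v2 + (-24*b*d + 12*a*b) * v3 + (6*b^2) * v4 + (2*b*d) * v5 + (-12*a*s)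 * v6 + (-12*b*s) * v7) + (24*s - 24*d) * ((-12*c*d) * v2 + (6*a) * v5 + (12*b) * v6) + (-48*c - 12*b*d) * ((-3*c^2*d) * v2 + (-9*c*d) * v3 + (9*b*c) * v4 + (3*c*d) * v5 + (-9*b*c) * v6 + (12*a + 9*b*c) * v7 + (3*b) * v8))) = (288*(4+3*d)*(b-c)^3) * v1 := by
  linear_combination ((3456*b + 1728*c*d + 2592*b*d + 1296*c*d^2) * v0 + (-384*a + 432*d^2 - 864*b*c - 432*b*c*d) * v1 + (9216*d + 5184*d^2 - 6048*d^3) * v2 + (-13824*s - 10368*d*s) * v6 + (-4608 - 10368*d - 5184*d^2) * v7 + (-384*c - 864*c*d - 432*c*d^2) * v8) * hsc + ((2592*b^2) * v0 + (-1296*b*d) * v1 + (-3072*b - 3456*b*s - 1728*b*d - 1152*a*b) * v2 + (-2592*d^2 - 3456*b^2) * v3 + (2592*b*d) * v4 + (3456*a - 5184*s^2 + 864*d^2 + 864*b^2) * v5 + (6912*b + 3456*b*s + 2592*b*d) * v6 + (2592*b*d) * v7 + (-1152 - 2592*d - 1296*d^2)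 * v8) * hsd + ((-4608 - 3456*d) * v5 + (-4608*b - 3456*b*d) * v7) * had

theorem id2_2 (a b c d s : A) (hsc : s*c = 0) (hsd : s*d = 0) (had : a*d = b*c) (v0 v1 v2 v3 v4 v5 v6 v7 v8 : A) :
    ((3*b) * ((-384*a*c - 576*b*c^2 + 96*a^2*c - 216*b*c^2*d + 72*a*b*c^2) * v0 + (-96*b*c + 192*a^2 - 72*b*c*d + 240*a*b*c + 72*b^2*c^2) * v1 + (1152*c^2 - 1152*b*c + 384*b^2 + 864*c^2*d - 864*b*c*d + 288*b^2*d - 288*c^4 - 216*c^4*d) * v2 + (-864*c^3 - 648*c^3*d) * v3 + (384*a*s + 288*a*c^2 + 216*b*c^3) * v4 + (576*b*s + 96*c^3 + 72*c^3*d) * v5 + (384*c^2 + 288*c^2*d - 96*a*c^2 - 72*b*c^3) * v6 + (96*a*c^2 + 72*b*c^3) * v7 + (192*s^2 + 192*a*c + 240*b*c^2 + 72*b*c^2*d) * v8) + (-72*s) * ((48*c^2 + 72*b*c + 72*c^2*d + 54*b*c*d + 27*c^2*d^2) * v0 + (12*c*d - 36*b*d - 24*a*c + 9*c*d^2 - 27*b*d^2 -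 30*b*c^2 - 9*b*c^2*d) * v1 + (144*c*d - 48*b*d - 36*c*d^2 - 36*b*d^2 - 108*c*d^3) * v2 + (24*b^2 + 18*b^2*d) * v5 + (144*b*d + 108*b*d^2) * v6 + (-288*c - 360*c*d - 108*c*d^2) * v7 + (-72*d - 90*d^2 - 24*c^2 - 27*d^3 - 30*c^2*d - 9*c^2*d^2) * v8)) + ((8*(4+3*d)) * ((-6*a - 3*b*c) * ((-9*b*c) * v0 + (3*a*b) * v1 + (6*b*s) * v4 + (12*c - 12*s^2) * v7 + (3*d + 3*b*c) * v8) + (-3*a*c) * ((3*a*b) * v0 + (-4*a*s - 9*c^2*d) * v2 + (-27*c*d) * v3 + (9*b*c) * v4 + (6*c + 3*c*d) * v5 + (12*d + 12*s^2 - 3*b*c) * v6 + (3*b*c) * v7) + (3*c) * ((-6*a*b) * v0 + (3*b^2) * v1 + (-12*c^2 + 4*a*s + 6*c^2*d) * v2 + (18*c*d - 12*b*s) * v3 + (-18*b*c) * v4 + (-6*c*d + 6*a*c) * v5 + (-12*s^2 + 18*b*c) * v6 + (-6*b*c) * v7 + (3*b*d) * v8) + (6*c - 6*s^2) * ((-3*c^2*d) * v2 + (-9*c*d) * v3 + (9*b*c) * v4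 + (3*c*d) * v5 + (-9*b*c) * v6 + (12*a + 9*b*c) * v7 + (3*b) * v8))) = (288*(4+3*d)*(b-c)^3) * v2 := by
  linear_combination ((-3456*c - 5184*b - 5184*c*d - 3888*b*d - 1944*c*d^2) * v0 + (-864*d + 1728*a - 648*d^2 + 2160*b*c + 648*b*c*d) * v1 + (-10368*d + 384*a + 2592*d^2 + 288*a*d + 384*a^2 + 7776*d^3 + 576*c*d*s + 288*a^2*d + 432*c*d^2*s) * v2 + (-1152*b + 1728*d*s - 864*b*d + 1296*d^2*s) * v3 + (-1728*b*s - 576*b^2 - 1296*b*d*s - 432*b^2*d) * v4 + (-576*d*s - 432*d^2*s) * v5 + (-1152*s - 864*d*s + 1728*b*s - 1152*a*s + 1296*b*d*s - 864*a*d*s) * v6 + (20736 + 25920*d + 7776*d^2 - 576*b*s - 432*b*d*s) * v7 + (1728*c + 2160*c*d + 648*c*d^2) * v8) * hsc + ((2592*b + 1944*b*d) * v1 + (3456*b + 2592*b*d) * v2 + (-864*a*b) * v4 + (-1296*b^2) * v5 + (-10368*b - 7776*b*d) * v6 + (5184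 + 6480*d + 1944*d^2 - 432*b*s) * v8) * hsd + ((864*b*c - 216*a*b*c) * v0 + (-432*a*b - 216*b^2*c) * v1 + (864*c^3 + 648*c^3*d) * v2 + (2592*c^2 + 1944*c^2*d) * v3 + (-648*b*c^2) * v4 + (-288*c^2 - 216*c^2*d) * v5 + (-1152*c - 864*c*d + 216*b*c^2) * v6 + (-216*b*c^2) * v7 + (-576 - 432*d - 432*b*c) * v8) * had

theorem id2_3 (a b c d s : A) (hsc : s*c = 0) (hsd : s*d = 0) (had : a*d = b*c) (v0 v1 v2 v3 v4 v5 v6 v7 v8 : A) :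
    ((2*d - a) * ((-384*a*c - 576*b*c^2 + 96*a^2*c - 216*b*c^2*d + 72*a*b*c^2) * v0 + (-96*b*c + 192*a^2 - 72*b*c*d + 240*a*b*c + 72*b^2*c^2) * v1 + (1152*c^2 - 1152*b*c + 384*b^2 + 864*c^2*d - 864*b*c*d + 288*b^2*d - 288*c^4 - 216*c^4*d) * v2 + (-864*c^3 - 648*c^3*d) * v3 + (384*a*s + 288*a*c^2 + 216*b*c^3) * v4 + (576*b*s + 96*c^3 + 72*c^3*d) * v5 + (384*c^2 + 288*c^2*d - 96*a*c^2 - 72*b*c^3) * v6 + (96*a*c^2 + 72*b*c^3) * v7 + (192*s^2 + 192*a*c + 240*b*c^2 + 72*b*c^2*d) * v8) + (4*b + 3*b*d) * ((216*b*c - 216*b^2 + 108*c^2*d + 162*b*c*d + 81*c^2*d^2) * v0 + (-24*a*c + 27*c*d^2 - 81*b*d^2 - 54*b*c^2 - 27*b*c^2*d) * v1 + (576*c*d + 288*b*s - 192*b*d + 96*a*b + 396*c*d^2 - 108*b*d^2 - 324*c*d^3) * v2 + (216*d^2 + 288*b^2) * v3 + (-216*b*d) * v4 + (-288*a + 432*s^2 - 72*d^2 + 54*b^2*d)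 * v5 + (-576*b - 288*b*s + 216*b*d + 324*b*d^2) * v6 + (-288*c - 648*c*d - 216*b*d - 324*c*d^2) * v7 + (-72*d - 162*d^2 - 24*c^2 - 81*d^3 - 54*c^2*d - 27*c^2*d^2) * v8) + (-9*b*d) * ((48*c^2 + 72*b*c + 72*c^2*d + 54*b*c*d + 27*c^2*d^2) * v0 + (12*c*d - 36*b*d - 24*a*c + 9*c*d^2 - 27*b*d^2 - 30*b*c^2 - 9*b*c^2*d) * v1 + (144*c*d - 48*b*d - 36*c*d^2 - 36*b*d^2 - 108*c*d^3) * v2 + (24*b^2 + 18*b^2*d) * v5 + (144*b*d + 108*b*d^2) * v6 + (-288*c - 360*c*d - 108*c*d^2) * v7 + (-72*d - 90*d^2 - 24*c^2 - 27*d^3 - 30*c^2*d - 9*c^2*d^2) * v8)) + ((8*(4+3*d)) * ((-2*a) * ((-4*c*d + 8*a*c - 3*c*d^2) * v0 + (-d^2 + 2*b*c - 3*a^2 + b*c*d) * v1 + (6*c^2 - 6*a*s) * v4 + (-8*c^2) * v6 + (8*c^2) * v7 + (-3*s^2 + 2*c*d - 3*a*c + c*d^2) * v8) + (3*a*c + b*c^2) * ((-9*b*c) * v0 + (3*a*b) * v1 + (6*b*s)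 * v4 + (12*c - 12*s^2) * v7 + (3*d + 3*b*c) * v8) + (-9*c + 9*b) * ((3*b^2) * v0 + (8*c*d - 4*b*s - 4*a*c - c*d^2) * v2 + (-3*d^2 - 12*b*c) * v3 + (3*b*d) * v4 + (-6*s^2 + d^2) * v5 + (-3*b*d) * v6 + (3*b*d) * v7) + (4*c + 3*a*c) * ((4*b*c + a^2 + 3*b*c*d) * v0 + (b*d - 2*a*b - b^2*c) * v1 + (-3*c^3) * v2 + (-9*c^2 + 4*a*s) * v3 + (-2*b*s + 3*a*c) * v4 + (3*c^2) * v5 + (-a*c) * v6 + (4*s^2 + a*c) * v7 + (-2*b*c - b*c*d) * v8) + (-2*c^2) * ((3*a*b) * v0 + (-4*a*s - 9*c^2*d) * v2 + (-27*c*d) * v3 + (9*b*c) * v4 + (6*c + 3*c*d) * v5 + (12*d + 12*s^2 - 3*b*c) * v6 + (3*b*c) * v7) + (-c^2) * ((-6*a*b) * v0 + (3*b^2) * v1 + (-12*c^2 + 4*a*s + 6*c^2*d) * v2 + (18*c*d - 12*b*s) * v3 + (-18*b*c) * v4 + (-6*c*d + 6*a*c) * v5 + (-12*s^2 + 18*b*c) * v6 + (-6*b*c) * v7 + (3*b*d) * v8) + (6*b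 + 3*b*s) * ((-12*c*d) * v2 + (6*a) * v5 + (12*b) * v6) + (3*d - 2*c^2) * ((-3*c^2*d) * v2 + (-9*c*d) * v3 + (9*b*c) * v4 + (3*c*d) * v5 + (-9*b*c) * v6 + (12*a + 9*b*c) * v7 + (3*b) * v8))) = (288*(4+3*d)*(b-c)^3) * v3 := by
  linear_combination ((1152*b - 288*b*d + 128*a*c - 864*b*d^2 + 96*a*c*d) * v2 + (512*a + 384*b*c + 384*a*d + 384*a^2 + 288*b*c*d + 288*a^2*d) * v3 + (-256*b - 192*b*d + 384*a*b + 192*b^2*c + 288*a*b*d + 144*b^2*c*d) * v4 + (1728*s + 1296*d*s) * v5 + (-384*c*s - 288*c*d*s) * v6 + (512*s + 384*d*s - 768*a*s - 384*b*c*s - 576*a*d*s - 288*b*c*d*s) * v7) * hsc + ((768*a + 288*a^2) * v4 + (1152*b + 432*a*b) * v5 + (384*s + 144*a*s) * v8) * hsd + ((-512*c + 384*c*d - 96*a*c + 144*c*d^2 + 288*b*c^2 + 72*a^2*c + 216*b*c^2*d) * v0 + (64*d + 384*a + 48*d^2 + 440*b*c +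 144*a^2 + 24*b*c*d + 72*a*b*c) * v1 + (576*c^2 + 216*a*c^2) * v4 + (-192*c^2 - 72*a*c^2) * v6 + (1152 + 864*d + 192*c^2 + 72*a*c^2) * v7 + (544*c + 56*c*d + 144*a*c - 48*c*d^2 - 96*b*c^2 - 72*b*c^2*d) * v8) * had

theorem id2_4 (a b c d s : A) (hsc : s*c = 0) (hsd : s*d = 0) (had : a*d = b*c) (v0 v1 v2 v3 v4 v5 v6 v7 v8 : A) :
    ((-4*c + 4*c*d) * ((-384*a*c - 576*b*c^2 + 96*a^2*c - 216*b*c^2*d + 72*a*b*c^2) * v0 + (-96*b*c + 192*a^2 - 72*b*c*d + 240*a*b*c + 72*b^2*c^2) * v1 + (1152*c^2 - 1152*b*c + 384*b^2 + 864*c^2*d - 864*b*c*d + 288*b^2*d - 288*c^4 - 216*c^4*d) * v2 + (-864*c^3 - 648*c^3*d) * v3 + (384*a*s + 288*a*c^2 + 216*b*c^3) * v4 + (576*b*s + 96*c^3 + 72*c^3*d) * v5 + (384*c^2 + 288*c^2*d - 96*a*c^2 - 72*b*c^3) * v6 + (96*a*c^2 + 72*b*c^3) * v7 + (192*s^2 + 192*a*c + 240*b*c^2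 + 72*b*c^2*d) * v8) + (16*d - 8*a + 12*d^2 - 6*b*c) * ((216*b*c - 216*b^2 + 108*c^2*d + 162*b*c*d + 81*c^2*d^2) * v0 + (-24*a*c + 27*c*d^2 - 81*b*d^2 - 54*b*c^2 - 27*b*c^2*d) * v1 + (576*c*d + 288*b*s - 192*b*d + 96*a*b + 396*c*d^2 - 108*b*d^2 - 324*c*d^3) * v2 + (216*d^2 + 288*b^2) * v3 + (-216*b*d) * v4 + (-288*a + 432*s^2 - 72*d^2 + 54*b^2*d) * v5 + (-576*b - 288*b*s + 216*b*d + 324*b*d^2) * v6 + (-288*c - 648*c*d - 216*b*d - 324*c*d^2) * v7 + (-72*d - 162*d^2 - 24*c^2 - 81*d^3 - 54*c^2*d - 27*c^2*d^2) * v8) + (-16*d - 36*d^2 + 18*b*c) * ((48*c^2 + 72*b*c + 72*c^2*d + 54*b*c*d + 27*c^2*d^2) * v0 + (12*c*d - 36*b*d - 24*a*c + 9*c*d^2 - 27*b*d^2 - 30*b*c^2 - 9*b*c^2*d) * v1 + (144*c*d - 48*b*d - 36*c*d^2 - 36*b*d^2 - 108*c*d^3) * v2 + (24*b^2 + 18*b^2*d) * v5 + (144*b*d + 108*b*d^2)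 * v6 + (-288*c - 360*c*d - 108*c*d^2) * v7 + (-72*d - 90*d^2 - 24*c^2 - 27*d^3 - 30*c^2*d - 9*c^2*d^2) * v8) + (2*s) * ((-1728*a*b) * v0 + (-288*c^2 + 864*b*c) * v1 + (-3456*c^2 - 384*b*c + 2304*a*s + 768*a^2 + 576*c^2*d - 384*b*c*d - 288*b*c*d^2) * v2 + (1728*c*d - 1152*b*d + 2304*a*b - 864*b*d^2) * v3 + (-1728*b*c + 1152*b^2 + 864*b^2*d) * v4 + (-576*c*d + 384*b*d + 1728*a*c - 576*a*b + 288*b*d^2) * v5 + (-6912*s^2 + 1728*b*c - 1152*b^2 - 2304*a*s - 864*b^2*d) * v6 + (4608*a - 2304*b*s + 1728*b*c + 1152*b^2 + 864*b^2*d) * v7 + (1152*b + 864*b*d) * v8)) + ((8*(4+3*d)) * ((-6*c) * ((-4*c*d + 8*a*c - 3*c*d^2) * v0 + (-d^2 + 2*b*c - 3*a^2 + b*c*d) * v1 + (6*c^2 - 6*a*s) * v4 + (-8*c^2) * v6 + (8*c^2) * v7 + (-3*s^2 + 2*c*d - 3*a*c + c*d^2) * v8) + (-6*d^2 + 4*c^2) * ((-9*b*c) * v0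 + (3*a*b) * v1 + (6*b*s) * v4 + (12*c - 12*s^2) * v7 + (3*d + 3*b*c) * v8) + (36*d - 18*a) * ((3*b^2) * v0 + (8*c*d - 4*b*s - 4*a*c - c*d^2) * v2 + (-3*d^2 - 12*b*c) * v3 + (3*b*d) * v4 + (-6*s^2 + d^2) * v5 + (-3*b*d) * v6 + (3*b*d) * v7) + (-18*d + 12*c^2) * ((4*b*c + a^2 + 3*b*c*d) * v0 + (b*d - 2*a*b - b^2*c) * v1 + (-3*c^3) * v2 + (-9*c^2 + 4*a*s) * v3 + (-2*b*s + 3*a*c) * v4 + (3*c^2) * v5 + (-a*c) * v6 + (4*s^2 + a*c) * v7 + (-2*b*c - b*c*d) * v8) + (36*s - 4*c^3) * ((3*a*b) * v0 + (-4*a*s - 9*c^2*d) * v2 + (-27*c*d) * v3 + (9*b*c) * v4 + (6*c + 3*c*d) * v5 + (12*d + 12*s^2 - 3*b*c) * v6 + (3*b*c) * v7) + (-12*c) * ((-6*a*b) * v0 + (3*b^2) * v1 + (-12*c^2 + 4*a*s + 6*c^2*d) * v2 + (18*c*d - 12*b*s) * v3 + (-18*b*c) * v4 + (-6*c*d + 6*a*c) * v5 + (-12*s^2 + 18*b*c) * v6 + (-6*b*c)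 * v7 + (3*b*d) * v8) + (-12*s - 18*c + 6*b) * ((12*d^2 - 8*b*c + 4*a^2 - 8*b*c*d) * v2 + (-24*b*d + 12*a*b) * v3 + (6*b^2) * v4 + (2*b*d) * v5 + (-12*a*s) * v6 + (-12*b*s) * v7) + (24*d - 12*a + 6*d^2 + 12*c^2 + 6*b*s) * ((-12*c*d) * v2 + (6*a) * v5 + (12*b) * v6) + (-24*s - 6*c) * ((-3*c^2*d) * v2 + (-9*c*d) * v3 + (9*b*c) * v4 + (3*c*d) * v5 + (-9*b*c) * v6 + (12*a + 9*b*c) * v7 + (3*b) * v8))) = (288*(4+3*d)*(b-c)^3) * v4 := by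
  linear_combination ((-576*c + 1728*b) * v1 + (-6912*c + 2304*b - 1536*a - 6912*c*d + 2304*b*d - 1728*b^2 - 1152*a*d - 6048*c*d^2 + 512*a*c^2 + 384*a*c^2*d) * v2 + (-20736*d + 4608*b - 18144*d^2 + 3456*b*d + 1536*a*c + 1152*a*c*d) * v3 + (-384*a + 2592*b*d + 2400*a*d) * v4 + (6912 + 5184*d - 2304*b + 3456*a + 864*d^2 - 2592*b*s + 2304*b*d) * v5 + (4608*s + 6912*b + 6912*a + 3456*d*s + 2592*b*d + 1728*b^2 + 5184*a*d - 1536*c^2*s - 1152*c^2*d*s) * v6 + (6912*b + 2592*b*d) * v7 + (-192*s + 1200*d*s) * v8) * hsc + ((2592*a*b) * v0 + (-4608*d - 3456*d^2 - 3456*a*s + 1728*a*b - 1152*a^2) * v2 + (6912*b - 2304*a + 5184*b*d - 1728*a*d - 3456*a*b) * v3 + (1152*b - 288*b*d - 864*b*d^2) * v4 + (2592*a*s + 864*a*b) * v5 + (13824 + 10368*d - 4608*b + 10368*s^2 - 3456*b*d + 3456*a*s - 1728*a*b)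 * v6 + (-2304*s - 6912*a + 576*d*s + 3456*b*s + 1728*d^2*s) * v7) * hsd + ((-576*a - 3552*c^2 - 1296*b^2 - 432*a*d - 648*c^2*d + 672*a*c^2) * v0 + (1152*b + 360*c*d + 936*b*d + 1200*a*c - 432*b*d^2 + 888*b*c^2) * v1 + (-9216*c + 3072*b - 6048*c*d + 2016*b*d + 576*a*b + 3024*c*d^2) * v2 + (1296*d^2 + 1728*b^2) * v3 + (-1728*c - 1296*c*d - 1296*b*d + 2016*c^3) * v4 + (1152*d - 1728*a + 432*d^2 - 432*b^2) * v5 + (576*c - 3456*b + 432*c*d - 1296*b*d - 672*c^3) * v6 + (2880*c + 2160*c*d - 1296*b*d + 672*c^3) * v7 + (576 + 1296*d + 648*d^2 + 1632*c^2 + 216*c^2*d) * v8) * had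

theorem id2_5 (a b c d s : A) (hsc : s*c = 0) (hsd : s*d = 0) (had : a*d = b*c) (v0 v1 v2 v3 v4 v5 v6 v7 v8 : A) :
    ((6*d) * ((-384*a*c - 576*b*c^2 + 96*a^2*c - 216*b*c^2*d + 72*a*b*c^2) * v0 + (-96*b*c + 192*a^2 - 72*b*c*d + 240*a*b*c + 72*b^2*c^2) * v1 + (1152*c^2 - 1152*b*c + 384*b^2 + 864*c^2*d - 864*b*c*d + 288*b^2*d - 288*c^4 - 216*c^4*d) * v2 + (-864*c^3 - 648*c^3*d) * v3 + (384*a*s + 288*a*c^2 + 216*b*c^3) * v4 + (576*b*s + 96*c^3 + 72*c^3*d) * v5 + (384*c^2 + 288*c^2*d - 96*a*c^2 - 72*b*c^3) * v6 + (96*a*c^2 + 72*b*c^3) * v7 + (192*s^2 + 192*a*c + 240*b*c^2 + 72*b*c^2*d) * v8) + (48*b) * ((48*c^2 + 72*b*c + 72*c^2*d + 54*b*c*d + 27*c^2*d^2) * v0 + (12*c*d - 36*b*d - 24*a*c + 9*c*d^2 - 27*b*d^2 - 30*b*c^2 - 9*b*c^2*d) * v1 + (144*c*d - 48*b*d - 36*c*d^2 - 36*b*d^2 - 108*c*d^3)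 * v2 + (24*b^2 + 18*b^2*d) * v5 + (144*b*d + 108*b*d^2) * v6 + (-288*c - 360*c*d - 108*c*d^2) * v7 + (-72*d - 90*d^2 - 24*c^2 - 27*d^3 - 30*c^2*d - 9*c^2*d^2) * v8)) + ((8*(4+3*d)) * ((-6*c^2) * ((3*a*b) * v0 + (-4*a*s - 9*c^2*d) * v2 + (-27*c*d) * v3 + (9*b*c) * v4 + (6*c + 3*c*d) * v5 + (12*d + 12*s^2 - 3*b*c) * v6 + (3*b*c) * v7) + (18*d) * ((-6*a*b) * v0 + (3*b^2) * v1 + (-12*c^2 + 4*a*s + 6*c^2*d) * v2 + (18*c*d - 12*b*s) * v3 + (-18*b*c) * v4 + (-6*c*d + 6*a*c) * v5 + (-12*s^2 + 18*b*c) * v6 + (-6*b*c) * v7 + (3*b*d) * v8) + (-18*b*d) * ((-12*c*d) * v2 + (6*a) * v5 + (12*b) * v6) + (36*d) * ((-3*c^2*d) * v2 + (-9*c*d) * v3 + (9*b*c) * v4 + (3*c*d) * v5 + (-9*b*c) * v6 + (12*a + 9*b*c) * v7 + (3*b) * v8))) = (288*(4+3*d)*(b-c)^3) * v5 := by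
  linear_combination ((768*a*c + 576*a*c*d) * v2 + (-2304*c*s - 1728*c*d*s) * v6) * hsc + ((2304*a + 1728*a*d) * v2 + (-6912*b - 5184*b*d) * v3 + (2304*a) * v4 + (3456*b) * v5 + (-6912*s - 5184*d*s) * v6 + (1152*s) * v8) * hsd + ((-2304*c - 3456*b - 2592*b*d + 576*a*c) * v0 + (1152*a + 1440*b*c) * v1 + (1728*c^2) * v4 + (3456*c - 3456*b + 2592*c*d - 2592*b*d) * v5 + (-576*c^2) * v6 + (13824 + 10368*d + 576*c^2) * v7 + (1152*c) * v8) * had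

theorem id2_6 (a b c d s : A) (hsc : s*c = 0) (hsd : s*d = 0) (had : a*d = b*c) (v0 v1 v2 v3 v4 v5 v6 v7 v8 : A) :
    ((-3*c + 3*c*d) * ((-384*a*c - 576*b*c^2 + 96*a^2*c - 216*b*c^2*d + 72*a*b*c^2) * v0 + (-96*b*c + 192*a^2 - 72*b*c*d + 240*a*b*c + 72*b^2*c^2) * v1 + (1152*c^2 - 1152*b*c + 384*b^2 + 864*c^2*d - 864*b*c*d + 288*b^2*d - 288*c^4 - 216*c^4*d) * v2 + (-864*c^3 - 648*c^3*d) * v3 + (384*a*s + 288*a*c^2 + 216*b*c^3) * v4 + (576*b*s + 96*c^3 + 72*c^3*d) * v5 + (384*c^2 + 288*c^2*d - 96*a*c^2 - 72*b*c^3) * v6 + (96*a*c^2 + 72*b*c^3) * v7 + (192*s^2 + 192*a*c + 240*b*c^2 + 72*b*c^2*d) * v8) + (-24*a) * ((48*c^2 + 72*b*c + 72*c^2*d + 54*b*c*d + 27*c^2*d^2) * v0 + (12*c*d - 36*b*d - 24*a*c + 9*c*d^2 - 27*b*d^2 - 30*b*c^2 - 9*b*c^2*d) * v1 + (144*c*d - 48*b*d - 36*c*d^2 - 36*b*d^2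 - 108*c*d^3) * v2 + (24*b^2 + 18*b^2*d) * v5 + (144*b*d + 108*b*d^2) * v6 + (-288*c - 360*c*d - 108*c*d^2) * v7 + (-72*d - 90*d^2 - 24*c^2 - 27*d^3 - 30*c^2*d - 9*c^2*d^2) * v8)) + ((8*(4+3*d)) * ((9*c^2) * ((4*b*c + a^2 + 3*b*c*d) * v0 + (b*d - 2*a*b - b^2*c) * v1 + (-3*c^3) * v2 + (-9*c^2 + 4*a*s) * v3 + (-2*b*s + 3*a*c) * v4 + (3*c^2) * v5 + (-a*c) * v6 + (4*s^2 + a*c) * v7 + (-2*b*c - b*c*d) * v8) + (-3*c^3) * ((3*a*b) * v0 + (-4*a*s - 9*c^2*d) * v2 + (-27*c*d) * v3 + (9*b*c) * v4 + (6*c + 3*c*d) * v5 + (12*d + 12*s^2 - 3*b*c) * v6 + (3*b*c) * v7) + (-9*c) * ((-6*a*b) * v0 + (3*b^2) * v1 + (-12*c^2 + 4*a*s + 6*c^2*d) * v2 + (18*c*d - 12*b*s) * v3 + (-18*b*c) * v4 + (-6*c*d + 6*a*c) * v5 + (-12*s^2 + 18*b*c) * v6 + (-6*b*c) * v7 + (3*b*d) * v8) + (9*c^2 + 3*b^2) * ((-12*c*d) *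 v2 + (6*a) * v5 + (12*b) * v6) + (-18*c) * ((-3*c^2*d) * v2 + (-9*c*d) * v3 + (9*b*c) * v4 + (3*c*d) * v5 + (-9*b*c) * v6 + (12*a + 9*b*c) * v7 + (3*b) * v8))) = (288*(4+3*d)*(b-c)^3) * v6 := by
  linear_combination ((-1152*a - 864*a*d + 384*a*c^2 + 288*a*c^2*d) * v2 + (3456*b + 2592*b*d + 1152*a*c + 864*a*c*d) * v3 + (-1152*a - 576*b*c + 1152*a*d - 432*b*c*d) * v4 + (-1728*b + 1728*b*d) * v5 + (3456*s + 2592*d*s - 1152*c^2*s - 864*c^2*d*s) * v6 + (1152*c*s + 864*c*d*s) * v7 + (-576*s + 576*d*s) * v8) * hsc + ((-2880*c^2 - 648*c^2*d + 504*a*c^2) * v0 + (-288*c + 864*b - 216*c*d + 648*b*d + 576*a*c + 504*b*c^2) * v1 + (-3456*c + 1152*b + 864*c*d + 864*b*d + 2592*c*d^2) * v2 + (1512*c^3) * v4 + (-3456*b - 2592*b*d - 504*c^3) * v6 + (3456*c + 2592*c*d + 504*c^3) * v7 + (1728 + 2160*d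 + 648*d^2 + 1296*c^2 + 216*c^2*d) * v8) * had

theorem id2_7 (a b c d s : A) (hsc : s*c = 0) (hsd : s*d = 0) (had : a*d = b*c) (v0 v1 v2 v3 v4 v5 v6 v7 v8 : A) :
    ((-12*d - 9*d^2 + 6*b*c) * ((216*b*c - 216*b^2 + 108*c^2*d + 162*b*c*d + 81*c^2*d^2) * v0 + (-24*a*c + 27*c*d^2 - 81*b*d^2 - 54*b*c^2 - 27*b*c^2*d) * v1 + (576*c*d + 288*b*s - 192*b*d + 96*a*b + 396*c*d^2 - 108*b*d^2 - 324*c*d^3) * v2 + (216*d^2 + 288*b^2) * v3 + (-216*b*d) * v4 + (-288*a + 432*s^2 - 72*d^2 + 54*b^2*d) * v5 + (-576*b - 288*b*s + 216*b*d + 324*b*d^2) * v6 + (-288*c - 648*c*d - 216*b*d - 324*c*d^2) * v7 + (-72*d - 162*d^2 - 24*c^2 - 81*d^3 - 54*c^2*d - 27*c^2*d^2) * v8) + (27*d^2 - 18*b*c) * ((48*c^2 + 72*b*c + 72*c^2*d + 54*b*c*d + 27*c^2*d^2) * v0 + (12*c*d - 36*b*d - 24*a*c + 9*c*d^2 - 27*b*d^2 - 30*b*c^2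 - 9*b*c^2*d) * v1 + (144*c*d - 48*b*d - 36*c*d^2 - 36*b*d^2 - 108*c*d^3) * v2 + (24*b^2 + 18*b^2*d) * v5 + (144*b*d + 108*b*d^2) * v6 + (-288*c - 360*c*d - 108*c*d^2) * v7 + (-72*d - 90*d^2 - 24*c^2 - 27*d^3 - 30*c^2*d - 9*c^2*d^2) * v8) + (b) * ((-1728*a*b) * v0 + (-288*c^2 + 864*b*c) * v1 + (-3456*c^2 - 384*b*c + 2304*a*s + 768*a^2 + 576*c^2*d - 384*b*c*d - 288*b*c*d^2) * v2 + (1728*c*d - 1152*b*d + 2304*a*b - 864*b*d^2) * v3 + (-1728*b*c + 1152*b^2 + 864*b^2*d) * v4 + (-576*c*d + 384*b*d + 1728*a*c - 576*a*b + 288*b*d^2) * v5 + (-6912*s^2 + 1728*b*c - 1152*b^2 - 2304*a*s - 864*b^2*d) * v6 + (4608*a - 2304*b*s + 1728*b*c + 1152*b^2 + 864*b^2*d) * v7 + (1152*b + 864*b*d) * v8)) + ((8*(4+3*d)) * ((-9*d - 3*c^2) * ((-9*b*c) * v0 + (3*a*b) * v1 + (6*b*s) * v4 + (12*c - 12*s^2) * v7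 + (3*d + 3*b*c) * v8) + (-27*d + 54*a) * ((3*b^2) * v0 + (8*c*d - 4*b*s - 4*a*c - c*d^2) * v2 + (-3*d^2 - 12*b*c) * v3 + (3*b*d) * v4 + (-6*s^2 + d^2) * v5 + (-3*b*d) * v6 + (3*b*d) * v7) + (-36*b) * ((3*a*b) * v0 + (-4*a*s - 9*c^2*d) * v2 + (-27*c*d) * v3 + (9*b*c) * v4 + (6*c + 3*c*d) * v5 + (12*d + 12*s^2 - 3*b*c) * v6 + (3*b*c) * v7) + (54*c - 6*b) * ((12*d^2 - 8*b*c + 4*a^2 - 8*b*c*d) * v2 + (-24*b*d + 12*a*b) * v3 + (6*b^2) * v4 + (2*b*d) * v5 + (-12*a*s) * v6 + (-12*b*s) * v7) + (18*d + 54*s^2 + 3*b^2) * ((-12*c*d) * v2 + (6*a) * v5 + (12*b) * v6) + (-12*b) * ((-3*c^2*d) * v2 + (-9*c*d) * v3 + (9*b*c) * v4 + (3*c*d) * v5 + (-9*b*c) * v6 + (12*a + 9*b*c) * v7 + (3*b) * v8))) = (288*(4+3*d)*(b-c)^3) * v7 := by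
  linear_combination ((-20736*d*s + 1728*b^2 - 15552*d^2*s) * v2 + (-576*b*c - 432*b*c*d) * v4 + (2592*b*s) * v5 + (-20736*a - 1728*b^2 - 15552*a*d) * v6 + (-20736*b + 1152*c*s - 15552*b*d + 864*c*d*s) * v7) * hsc + ((-1728*a*b) * v2 + (-1728*b - 1296*b*d) * v4 + (3456*b + 5184*b*s + 2592*b*d + 1728*a*b) * v6 + (3456*s + 2592*d*s + 1728*b^2) * v7) * hsd + ((1296*b^2) * v0 + (288*c - 864*b - 432*c*d - 648*b*d - 216*b*c^2) * v1 + (17280*c - 1152*b + 11232*c*d - 864*b*d - 576*a*b - 1296*c*d^2) * v2 + (-5184*d - 3888*d^2 - 1728*b^2) * v3 + (5184*b + 3888*b*d) * v4 + (6912 + 6912*d + 1296*d^2 + 432*b^2) * v5 + (-5184*b - 3888*b*d) * v6 + (1728*b + 3888*b*d) * v7) * had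

theorem id2_8 (a b c d s : A) (hsc : s*c = 0) (hsd : s*d = 0) (had : a*d = b*c) (v0 v1 v2 v3 v4 v5 v6 v7 v8 : A) :
    ((48*c + 36*c*d) * ((216*b*c - 216*b^2 + 108*c^2*d + 162*b*c*d + 81*c^2*d^2) * v0 + (-24*a*c + 27*c*d^2 - 81*b*d^2 - 54*b*c^2 - 27*b*c^2*d) * v1 + (576*c*d + 288*b*s - 192*b*d + 96*a*b + 396*c*d^2 - 108*b*d^2 - 324*c*d^3) * v2 + (216*d^2 + 288*b^2) * v3 + (-216*b*d) * v4 + (-288*a + 432*s^2 - 72*d^2 + 54*b^2*d) * v5 + (-576*b - 288*b*s + 216*b*d + 324*b*d^2) * v6 + (-288*c - 648*c*d - 216*b*d - 324*c*d^2) * v7 + (-72*d - 162*d^2 - 24*c^2 - 81*d^3 - 54*c^2*d - 27*c^2*d^2) * v8) + (-108*c*d) * ((48*c^2 + 72*b*c + 72*c^2*d + 54*b*c*d + 27*c^2*d^2) * v0 + (12*c*d - 36*b*d - 24*a*c + 9*c*d^2 - 27*b*d^2 - 30*b*c^2 - 9*b*c^2*d) * v1 + (144*c*d - 48*b*d - 36*c*d^2 - 36*b*d^2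 - 108*c*d^3) * v2 + (24*b^2 + 18*b^2*d) * v5 + (144*b*d + 108*b*d^2) * v6 + (-288*c - 360*c*d - 108*c*d^2) * v7 + (-72*d - 90*d^2 - 24*c^2 - 27*d^3 - 30*c^2*d - 9*c^2*d^2) * v8) + (-4*a - 3*b*c) * ((-1728*a*b) * v0 + (-288*c^2 + 864*b*c) * v1 + (-3456*c^2 - 384*b*c + 2304*a*s + 768*a^2 + 576*c^2*d - 384*b*c*d - 288*b*c*d^2) * v2 + (1728*c*d - 1152*b*d + 2304*a*b - 864*b*d^2) * v3 + (-1728*b*c + 1152*b^2 + 864*b^2*d) * v4 + (-576*c*d + 384*b*d + 1728*a*c - 576*a*b + 288*b*d^2) * v5 + (-6912*s^2 + 1728*b*c - 1152*b^2 - 2304*a*s - 864*b^2*d) * v6 + (4608*a - 2304*b*s + 1728*b*c + 1152*b^2 + 864*b^2*d) * v7 + (1152*b + 864*b*d) * v8)) + ((8*(4+3*d)) * ((36*c - 36*b) * ((-9*b*c) * v0 + (3*a*b) * v1 + (6*b*s) * v4 + (12*c - 12*s^2) * v7 + (3*d + 3*b*c) * v8) + (36*a) * ((-6*a*b) * v0 +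 (3*b^2) * v1 + (-12*c^2 + 4*a*s + 6*c^2*d) * v2 + (18*c*d - 12*b*s) * v3 + (-18*b*c) * v4 + (-6*c*d + 6*a*c) * v5 + (-12*s^2 + 18*b*c) * v6 + (-6*b*c) * v7 + (3*b*d) * v8) + (36*s + 24*a) * ((12*d^2 - 8*b*c + 4*a^2 - 8*b*c*d) * v2 + (-24*b*d + 12*a*b) * v3 + (6*b^2) * v4 + (2*b*d) * v5 + (-12*a*s) * v6 + (-12*b*s) * v7) + (72*c - 12*a*b) * ((-12*c*d) * v2 + (6*a) * v5 + (12*b) * v6) + (36*d + 48*a + 12*b^2) * ((-3*c^2*d) * v2 + (-9*c*d) * v3 + (9*b*c) * v4 + (3*c*d) * v5 + (-9*b*c) * v6 + (12*a + 9*b*c) * v7 + (3*b) * v8))) = (288*(4+3*d)*(b-c)^3) * v8 := by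
  linear_combination ((4608*b - 5760*b*d - 6912*a*b - 6912*b*d^2) * v2 + (6912*b + 5184*b*d) * v4 + (20736*s + 15552*d*s) * v5 + (-13824*b + 20736*b*s - 10368*b*d + 6912*a*b) * v6 + (-13824*s - 10368*d*s + 6912*b^2) * v7) * hsc + ((13824*d + 10368*d^2 + 6912*a^2) * v2 + (-27648*b - 20736*b*d) * v3 + (2304*b + 1728*b*d) * v5 + (-20736*a*s - 6912*a^2) * v6 + (-6912*a*b) * v7) * hsd + ((-5184*a*b) * v0 + (1728*c^2 + 2592*b*c) * v1 + (9216*d + 6912*d^2 - 10368*c^2 - 1152*b*c + 2304*a^2 + 1728*c^2*d) * v2 + (-13824*b + 5184*c*d - 10368*b*d + 6912*a*b) * v3 + (-5184*b*c) * v4 + (-1728*c*d + 5184*a*c - 1728*a*b) * v5 + (5184*b*c) * v6 + (13824 + 10368*d + 13824*a + 5184*b*c) * v7 + (3456*b + 2592*b*d) * v8) * had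

end Pool.Agent.H950R2.PS
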