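import Pool.Agent.H950R2.PS.Mats
set_option autoImplicit false
set_option linter.unusedVariables false
set_option linter.unusedSectionVars false
/-! Generated matrix identities. -/
namespace Pool.Agent.H950R2.PS
variable {A : Type} [CommRing A]

theorem id4_0 (a b c d s : A) (hsc : s*c = 0) (hsd : s*d = 0) (had : a*d = b*c) (v0 v1 v2 v3 v4 v5 v6 v7 v8 : A) :
    ((4*s) * ((144*b^2 + 108*b^2*d) * v0 + (-2880*c*d - 192*b*s - 576*a*c - 2592*c*d^2 + 720*b*c^2 - 324*c*d^3 + 864*b*c^2*d) * v2 + (-1296*d^2 + 3456*b*c - 1728*a^2 - 972*d^3 + 2592*b*c*d - 1296*a*b*c) * v3 + (432*b*d - 864*a*b + 324*b*d^2 - 648*b^2*c) * v4 + (1440*a - 288*s^2 + 144*d^2 + 792*b*c + 108*d^3 - 216*b*c*d) * v5 + (2880*b + 2016*b*d - 108*b*d^2) * v6 + (144*b*d + 108*b*d^2) * v7 + (-432*b*s) * v8) + (24*c + 12*c*d) * ((144*b*d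 - 108*a*b + 324*b*d^2 - 108*b^2*c) * v0 + (36*b^2) * v1 + (-432*c^2 + 96*a*s - 936*c^2*d + 432*a*c^2 - 909*c^2*d^2 + 324*b*c^3 - 216*c^2*d^3) * v2 + (-972*c*d - 144*b*s + 864*a*c - 2079*c*d^2 + 1080*b*c^2 - 648*c*d^3 + 324*b*c^2*d) * v3 + (-324*b*c - 216*a^2 + 243*d^3 - 108*b*c*d - 162*a*b*c + 162*b*c*d^2) * v4 + (360*c + 450*c*d - 72*a*c + 369*c*d^2 - 54*b*c^2 + 54*c*d^3) * v5 + (720*d - 288*s^2 + 972*d^2 + 756*b*c + 837*b*c*d) * v6 + (-864*a + 144*d^2 - 1080*b*c - 216*a^2 + 324*d^3 - 351*b*c*d - 162*a*b*c) * v7 + (-216*b - 45*b*d - 108*a*s - 54*a*b) * v8) + (-24*c - 36*c*d) * ((144*b*d + 108*b*d^2) * v0 + (-144*c^2 - 564*c^2*d + 120*a*c^2 - 438*c^2*d^2 + 90*b*c^3 - 72*c^2*d^3) * v2 + (-1080*c*d + 216*a*c - 1098*c*d^2 + 306*b*c^2 - 216*c*d^3 + 108*b*c^2*d) * v3 + (108*d^2 + 108*b*c + 81*d^3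 + 153*b*c*d + 54*b*c*d^2) * v4 + (216*c + 378*c*d + 186*c*d^2 + 18*c*d^3) * v5 + (432*d + 324*d^2 + 216*b*c - 72*a^2 + 162*b*c*d - 54*a*b*c) * v6 + (144*d^2 + 108*d^3) * v7) + (-d) * ((1728*d^2 - 6336*b*c + 288*a^2 + 1296*d^3 - 3024*b*c*d) * v0 + (-576*b*d + 1632*a*b - 432*b*d^2 + 1008*b^2*c) * v1 + (2592*c^3 + 648*c^3*d) * v2 + (7776*c^2 + 1152*a*s + 1944*c^2*d) * v3 + (-2592*c*d + 3840*b*s - 1728*a*c - 1944*b*c^2) * v4 + (-2592*c^2 - 648*c^2*d) * v5 + (3456*c*d - 288*a*c + 1944*b*c^2) * v6 + (-1536*c - 7680*s^2 - 3456*c*d - 2304*a*c - 1944*b*c^2) * v7 + (-384*d - 864*d^2 + 2280*b*c - 432*a^2 - 432*d^3 + 1008*b*c*d) * v8)) + ((4+3*d) * ((-288*b - 144*b*d) * ((-4*c*d + 8*a*c - 3*c*d^2) * v0 + (-d^2 + 2*b*c - 3*a^2 + b*c*d) * v1 + (6*c^2 - 6*a*s) * v4 + (-8*c^2) * v6 + (8*c^2) * v7 + (-3*s^2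 + 2*c*d - 3*a*c + c*d^2) * v8) + (-32*d - 48*d^2) * ((-9*b*c) * v0 + (3*a*b) * v1 + (6*b*s) * v4 + (12*c - 12*s^2) * v7 + (3*d + 3*b*c) * v8) + (-48*s + 144*c^2) * ((3*b^2) * v0 + (8*c*d - 4*b*s - 4*a*c - c*d^2) * v2 + (-3*d^2 - 12*b*c) * v3 + (3*b*d) * v4 + (-6*s^2 + d^2) * v5 + (-3*b*d) * v6 + (3*b*d) * v7) + (-432*d + 432*a - 144*d^2) * ((4*b*c + a^2 + 3*b*c*d) * v0 + (b*d - 2*a*b - b^2*c) * v1 + (-3*c^3) * v2 + (-9*c^2 + 4*a*s) * v3 + (-2*b*s + 3*a*c) * v4 + (3*c^2) * v5 + (-a*c) * v6 + (4*s^2 + a*c) * v7 + (-2*b*c - b*c*d) * v8) + (-144*c) * ((3*a*b) * v0 + (-4*a*s - 9*c^2*d) * v2 + (-27*c*d) * v3 + (9*b*c) * v4 + (6*c + 3*c*d) * v5 + (12*d + 12*s^2 - 3*b*c) * v6 + (3*b*c) * v7) + (-144*c) * ((-6*a*b) * v0 + (3*b^2) * v1 + (-12*c^2 + 4*a*s + 6*c^2*d) * v2 + (18*c*d - 12*b*s) * v3 + (-18*b*c)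 * v4 + (-6*c*d + 6*a*c) * v5 + (-12*s^2 + 18*b*c) * v6 + (-6*b*c) * v7 + (3*b*d) * v8) + (-240*s) * ((-12*c*d) * v2 + (6*a) * v5 + (12*b) * v6) + (432*c - 144*s^2 + 252*c*d + 72*a*c) * ((-3*c^2*d) * v2 + (-9*c*d) * v3 + (9*b*c) * v4 + (3*c*d) * v5 + (-9*b*c) * v6 + (12*a + 9*b*c) * v7 + (3*b) * v8))) = (432*(4+3*d)*(a-d)^3) * v0 := by
  linear_combination ((-1536*d + 768*a - 2688*d^2 + 576*b*c + 1728*a*d - 1152*d^3 + 1728*c*d*s + 1728*b*c*d + 1296*c*d^2*s) * v2 + (19584*b + 5184*d*s + 15552*b*d - 5184*a*b + 3888*d^2*s) * v3 + (-5184*b*s - 2592*b^2 - 3888*b*d*s) * v4 + (3168*b - 1728*d*s - 3456*c*s - 864*b*d - 1296*d^2*s - 2592*c*d*s) * v5 + (-6912*s - 3456*d*s + 5184*b*s + 3888*b*d*s) * v6 + (-5184*b*s - 3888*b*d*s) * v7 + (-2592*a - 1296*a*d) * v8) * hsc + ((576*b*s) * v2 + (-4608*d - 8064*a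 - 3456*d^2 - 7488*a*d + 5184*a^2 - 1728*a*d^2) * v3 + (2880*b*d + 6048*a*b + 2592*a*b*d) * v4 + (384*d - 4320*a + 864*s^2 + 288*d^2) * v5 + (2304*s - 4032*d*s) * v7 + (3024*b*s + 1296*b*d*s) * v8) * hsd + ((-5184*d + 3168*a - 3888*d^2 + 864*b*c + 2016*a*d - 432*a*d^2) * v0 + (3168*b + 4176*b*d + 1728*a*b + 432*b*d^2 + 1296*a*b*d) * v1 + (-5616*c^3 - 648*c^3*d) * v2 + (-11664*c^2 - 1944*c^2*d) * v3 + (-3456*c - 5616*c*d + 1296*a*c - 1296*c*d^2) * v4 + (1296*c^2 + 648*c^2*d) * v5 + (2016*c + 1872*c*d + 1296*a*c + 432*c*d^2) * v6 + (17856*c + 7200*c*d + 1296*a*c - 432*c*d^2) * v7 + (432*a) * v8) * had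

theorem id4_1 (a b c d s : A) (hsc : s*c = 0) (hsd : s*d = 0) (had : a*d = b*c) (v0 v1 v2 v3 v4 v5 v6 v7 v8 : A) :
    ((16*s) * ((144*b*d - 108*a*b + 324*b*d^2 - 108*b^2*c) * v0 + (36*b^2) * v1 + (-432*c^2 + 96*a*s - 936*c^2*d + 432*a*c^2 - 909*c^2*d^2 + 324*b*c^3 - 216*c^2*d^3) * v2 + (-972*c*d - 144*b*s + 864*a*c - 2079*c*d^2 + 1080*b*c^2 - 648*c*d^3 + 324*b*c^2*d) * v3 + (-324*b*c - 216*a^2 + 243*d^3 - 108*b*c*d - 162*a*b*c + 162*b*c*d^2) * v4 + (360*c + 450*c*d - 72*a*c + 369*c*d^2 - 54*b*c^2 + 54*c*d^3) * v5 + (720*d - 288*s^2 + 972*d^2 + 756*b*c + 837*b*c*d) * v6 + (-864*a + 144*d^2 - 1080*b*c - 216*a^2 + 324*d^3 - 351*b*c*d - 162*a*b*c) * v7 + (-216*b - 45*b*d - 108*a*s - 54*a*b) * v8) + (4*c + 3*c*d) * ((1728*d^2 - 6336*b*c + 288*a^2 + 1296*d^3 - 3024*b*c*d) * v0 + (-576*b*d + 1632*a*b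 - 432*b*d^2 + 1008*b^2*c) * v1 + (2592*c^3 + 648*c^3*d) * v2 + (7776*c^2 + 1152*a*s + 1944*c^2*d) * v3 + (-2592*c*d + 3840*b*s - 1728*a*c - 1944*b*c^2) * v4 + (-2592*c^2 - 648*c^2*d) * v5 + (3456*c*d - 288*a*c + 1944*b*c^2) * v6 + (-1536*c - 7680*s^2 - 3456*c*d - 2304*a*c - 1944*b*c^2) * v7 + (-384*d - 864*d^2 + 2280*b*c - 432*a^2 - 432*d^3 + 1008*b*c*d) * v8)) + ((4+3*d) * ((432*d - 144*a) * ((-4*c*d + 8*a*c - 3*c*d^2) * v0 + (-d^2 + 2*b*c - 3*a^2 + b*c*d) * v1 + (6*c^2 - 6*a*s) * v4 + (-8*c^2) * v6 + (8*c^2) * v7 + (-3*s^2 + 2*c*d - 3*a*c + c*d^2) * v8) + (128*c) * ((-9*b*c) * v0 + (3*a*b) * v1 + (6*b*s) * v4 + (12*c - 12*s^2) * v7 + (3*d + 3*b*c) * v8) + (864*c) * ((4*b*c + a^2 + 3*b*c*d) * v0 + (b*d - 2*a*b - b^2*c) * v1 + (-3*c^3) * v2 + (-9*c^2 + 4*a*s) * v3 + (-2*b*s + 3*a*c) * v4 +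 (3*c^2) * v5 + (-a*c) * v6 + (4*s^2 + a*c) * v7 + (-2*b*c - b*c*d) * v8) + (48*s) * ((3*a*b) * v0 + (-4*a*s - 9*c^2*d) * v2 + (-27*c*d) * v3 + (9*b*c) * v4 + (6*c + 3*c*d) * v5 + (12*d + 12*s^2 - 3*b*c) * v6 + (3*b*c) * v7) + (-48*s) * ((-6*a*b) * v0 + (3*b^2) * v1 + (-12*c^2 + 4*a*s + 6*c^2*d) * v2 + (18*c*d - 12*b*s) * v3 + (-18*b*c) * v4 + (-6*c*d + 6*a*c) * v5 + (-12*s^2 + 18*b*c) * v6 + (-6*b*c) * v7 + (3*b*d) * v8) + (288*s + 216*c^2 + 72*a*s) * ((-3*c^2*d) * v2 + (-9*c*d) * v3 + (9*b*c) * v4 + (3*c*d) * v5 + (-9*b*c) * v6 + (12*a + 9*b*c) * v7 + (3*b) * v8))) = (432*(4+3*d)*(a-d)^3) * v1 := by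
  linear_combination ((-1728*b^2) * v0 + (-4608*c - 19584*c*d + 6912*a*c - 19296*c*d^2 + 5184*b*c^2 - 864*a*c*d - 3456*c*d^3 - 648*a*c*d^2) * v2 + (-34560*d + 32256*a - 47520*d^2 + 17280*b*c + 11232*a*d - 10368*d^3 + 5184*b*c*d - 1944*a*d^2) * v3 + (21888*b + 18576*b*d + 2592*b*d^2 + 1944*a*b*d) * v4 + (6912 + 13248*d - 2304*a + 9792*d^2 - 864*b*c + 864*d^3 + 648*a*d^2) * v5 + (-2304*b + 2592*b*d - 2592*a*b - 1944*a*b*d) * v6 + (-23040*s - 5184*b - 17280*d*s + 3456*b*d + 1944*a*b*d) * v7) * hsc + ((2304*b + 5184*b*d + 1296*a*b) * v0 + (-432*b^2) * v1 + (-1152*a*s) * v2 + (1728*b*s) * v3 + (-10368*a + 3888*d^2 - 7776*a*d + 2592*a^2) * v4 + (13824 + 17280*d + 3456*s^2) * v6 + (2304*d + 10368*a + 5184*d^2 + 2592*a^2) * v7 + (-5184*s + 1296*b - 3888*d*s - 432*b*d + 1296*a*s + 648*a*b) * v8) *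 hsd + ((16128*c + 13824*c*d + 1296*c*d^2) * v0 + (-4608*d - 3456*d^2 - 576*b*c - 432*b*c*d) * v1 + (-6336*c - 5328*c*d - 432*c*d^2) * v8) * had

theorem id4_2 (a b c d s : A) (hsc : s*c = 0) (hsd : s*d = 0) (had : a*d = b*c) (v0 v1 v2 v3 v4 v5 v6 v7 v8 : A) :
    ((3*b) * ((144*b^2 + 108*b^2*d) * v0 + (-2880*c*d - 192*b*s - 576*a*c - 2592*c*d^2 + 720*b*c^2 - 324*c*d^3 + 864*b*c^2*d) * v2 + (-1296*d^2 + 3456*b*c - 1728*a^2 - 972*d^3 + 2592*b*c*d - 1296*a*b*c) * v3 + (432*b*d - 864*a*b + 324*b*d^2 - 648*b^2*c) * v4 + (1440*a - 288*s^2 + 144*d^2 + 792*b*c + 108*d^3 - 216*b*c*d) * v5 + (2880*b + 2016*b*d - 108*b*d^2) * v6 + (144*b*d + 108*b*d^2) * v7 + (-432*b*s) * v8) + (-72*s) * ((144*b*d + 108*b*d^2) * v0 + (-144*c^2 - 564*c^2*d + 120*a*c^2 - 438*c^2*d^2 + 90*b*c^3 - 72*c^2*d^3) * v2 + (-1080*c*d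 + 216*a*c - 1098*c*d^2 + 306*b*c^2 - 216*c*d^3 + 108*b*c^2*d) * v3 + (108*d^2 + 108*b*c + 81*d^3 + 153*b*c*d + 54*b*c*d^2) * v4 + (216*c + 378*c*d + 186*c*d^2 + 18*c*d^3) * v5 + (432*d + 324*d^2 + 216*b*c - 72*a^2 + 162*b*c*d - 54*a*b*c) * v6 + (144*d^2 + 108*d^3) * v7)) + ((4+3*d) * ((-36*b) * ((3*b^2) * v0 + (8*c*d - 4*b*s - 4*a*c - c*d^2) * v2 + (-3*d^2 - 12*b*c) * v3 + (3*b*d) * v4 + (-6*s^2 + d^2) * v5 + (-3*b*d) * v6 + (3*b*d) * v7) + (-36*d + 108*a) * ((12*d^2 - 8*b*c + 4*a^2 - 8*b*c*d) * v2 + (-24*b*d + 12*a*b) * v3 + (6*b^2) * v4 + (2*b*d) * v5 + (-12*a*s) * v6 + (-12*b*s) * v7) + (-180*b) * ((-12*c*d) * v2 + (6*a) * v5 + (12*b) * v6) + (108*b*s) * ((-3*c^2*d) * v2 + (-9*c*d) * v3 + (9*b*c) * v4 + (3*c*d) * v5 + (-9*b*c) * v6 + (12*a + 9*b*c) * v7 + (3*b) * v8))) = (432*(4+3*d)*(a-d)^3)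 * v2 := by
  linear_combination ((10368*c + 40608*c*d - 8640*a*c + 31536*c*d^2 - 1296*b*c*d - 6480*b*c^2 + 5184*c*d^3 - 972*b*c*d^2) * v2 + (77760*d - 15552*a + 79056*d^2 - 3888*b*d - 22032*b*c + 15552*d^3 - 2916*b*d^2 - 7776*b*c*d) * v3 + (-7776*b - 11016*b*d + 3888*b^2 - 3888*b*d^2 + 2916*b^2*d) * v4 + (-15552 - 27216*d - 13392*d^2 + 1296*b*d - 1296*d^3 + 972*b*d^2) * v5 + (-15552*b - 11664*b*d - 3888*b^2 + 3888*a*b - 2916*b^2*d) * v6 + (3888*b^2 + 2916*b^2*d) * v7) * hsc + ((-10368*b - 7776*b*d) * v0 + (432*b^2) * v2 + (-7776*d - 5832*d^2) * v4 + (648*b*s) * v5 + (-31104 - 23328*d + 1728*a + 1296*a*d - 3888*a^2) * v6 + (-10368*d + 1728*b - 7776*d^2 + 1296*b*d) * v7 + (972*b^2) * v8) * hsd + ((4608*a - 2160*b*c + 3456*a*d - 2592*b*c*d) * v2 + (-12096*b - 9072*b*d + 3888*a*b) * v3 + (1944*b^2)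 * v4 + (-2376*b + 648*b*d) * v5) * had

theorem id4_3 (a b c d s : A) (hsc : s*c = 0) (hsd : s*d = 0) (had : a*d = b*c) (v0 v1 v2 v3 v4 v5 v6 v7 v8 : A) :
    ((2*d - a) * ((144*b^2 + 108*b^2*d) * v0 + (-2880*c*d - 192*b*s - 576*a*c - 2592*c*d^2 + 720*b*c^2 - 324*c*d^3 + 864*b*c^2*d) * v2 + (-1296*d^2 + 3456*b*c - 1728*a^2 - 972*d^3 + 2592*b*c*d - 1296*a*b*c) * v3 + (432*b*d - 864*a*b + 324*b*d^2 - 648*b^2*c) * v4 + (1440*a - 288*s^2 + 144*d^2 + 792*b*c + 108*d^3 - 216*b*c*d) * v5 + (2880*b + 2016*b*d - 108*b*d^2) * v6 + (144*b*d + 108*b*d^2) * v7 + (-432*b*s) * v8) + (4*b + 3*b*d) * ((144*b*d - 108*a*b + 324*b*d^2 - 108*b^2*c) * v0 + (36*b^2) * v1 + (-432*c^2 + 96*a*s - 936*c^2*d + 432*a*c^2 - 909*c^2*d^2 + 324*b*c^3 - 216*c^2*d^3) * v2 + (-972*c*d - 144*b*s + 864*a*c - 2079*c*d^2 + 1080*b*c^2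 - 648*c*d^3 + 324*b*c^2*d) * v3 + (-324*b*c - 216*a^2 + 243*d^3 - 108*b*c*d - 162*a*b*c + 162*b*c*d^2) * v4 + (360*c + 450*c*d - 72*a*c + 369*c*d^2 - 54*b*c^2 + 54*c*d^3) * v5 + (720*d - 288*s^2 + 972*d^2 + 756*b*c + 837*b*c*d) * v6 + (-864*a + 144*d^2 - 1080*b*c - 216*a^2 + 324*d^3 - 351*b*c*d - 162*a*b*c) * v7 + (-216*b - 45*b*d - 108*a*s - 54*a*b) * v8) + (-9*b*d) * ((144*b*d + 108*b*d^2) * v0 + (-144*c^2 - 564*c^2*d + 120*a*c^2 - 438*c^2*d^2 + 90*b*c^3 - 72*c^2*d^3) * v2 + (-1080*c*d + 216*a*c - 1098*c*d^2 + 306*b*c^2 - 216*c*d^3 + 108*b*c^2*d) * v3 + (108*d^2 + 108*b*c + 81*d^3 + 153*b*c*d + 54*b*c*d^2) * v4 + (216*c + 378*c*d + 186*c*d^2 + 18*c*d^3) * v5 + (432*d + 324*d^2 + 216*b*c - 72*a^2 + 162*b*c*d - 54*a*b*c) * v6 + (144*d^2 + 108*d^3) * v7)) + ((4+3*d) * ((-72*d + 12*a + 36*b*c)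 * ((3*b^2) * v0 + (8*c*d - 4*b*s - 4*a*c - c*d^2) * v2 + (-3*d^2 - 12*b*c) * v3 + (3*b*d) * v4 + (-6*s^2 + d^2) * v5 + (-3*b*d) * v6 + (3*b*d) * v7) + (12*b) * ((3*a*b) * v0 + (-4*a*s - 9*c^2*d) * v2 + (-27*c*d) * v3 + (9*b*c) * v4 + (6*c + 3*c*d) * v5 + (12*d + 12*s^2 - 3*b*c) * v6 + (3*b*c) * v7) + (-12*b) * ((-6*a*b) * v0 + (3*b^2) * v1 + (-12*c^2 + 4*a*s + 6*c^2*d) * v2 + (18*c*d - 12*b*s) * v3 + (-18*b*c) * v4 + (-6*c*d + 6*a*c) * v5 + (-12*s^2 + 18*b*c) * v6 + (-6*b*c) * v7 + (3*b*d) * v8) + (-24*c) * ((12*d^2 - 8*b*c + 4*a^2 - 8*b*c*d) * v2 + (-24*b*d + 12*a*b) * v3 + (6*b^2) * v4 + (2*b*d) * v5 + (-12*a*s) * v6 + (-12*b*s) * v7) + (-192*d + 60*a - 12*d^2 + 12*b*c) * ((-12*c*d) * v2 + (6*a) * v5 + (12*b) * v6) + (72*b + 27*b*d + 18*a*b) * ((-3*c^2*d) * v2 + (-9*c*d) * v3 + (9*b*c) *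 v4 + (3*c*d) * v5 + (-9*b*c) * v6 + (12*a + 9*b*c) * v7 + (3*b) * v8))) = (432*(4+3*d)*(a-d)^3) * v3 := by
  linear_combination ((-576*b^2 - 432*b^2*d) * v2 + (-864*b*s - 648*b*d*s) * v5 + (1152*a + 864*a*d) * v6 + (1152*b + 864*b*d) * v7) * hsc + ((768*b + 864*b*d - 144*a*b) * v2 + (1152*s + 1296*d*s - 216*a*s) * v5 + (-864*b - 324*a*b) * v8) * hsd + ((384*c + 1536*c*d - 432*a*c + 288*c*d^2 - 1296*b*c^2 - 162*b*c^2*d) * v2 + (-4032*d + 1728*a - 3024*d^2 - 2592*b*c + 3888*a*d - 1296*a^2 - 486*b*c*d) * v3 + (-2016*b - 216*b*d - 648*a*b) * v4 + (-1728 - 3840*d + 1080*a - 288*d^2 + 216*b*c + 162*b*c*d) * v5 + (648*a*b) * v6 + (1296*b + 972*b*d) * v7) * had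

theorem id4_4 (a b c d s : A) (hsc : s*c = 0) (hsd : s*d = 0) (had : a*d = b*c) (v0 v1 v2 v3 v4 v5 v6 v7 v8 : A) :
    ((-4*c + 4*c*d) * ((144*b^2 + 108*b^2*d) * v0 + (-2880*c*d - 192*b*s - 576*a*c - 2592*c*d^2 + 720*b*c^2 - 324*c*d^3 + 864*b*c^2*d) * v2 + (-1296*d^2 + 3456*b*c - 1728*a^2 - 972*d^3 + 2592*b*c*d - 1296*a*b*c) * v3 + (432*b*d - 864*a*b + 324*b*d^2 - 648*b^2*c) * v4 + (1440*a - 288*s^2 + 144*d^2 + 792*b*c + 108*d^3 - 216*b*c*d) * v5 + (2880*b + 2016*b*d - 108*b*d^2) * v6 + (144*b*d + 108*b*d^2) * v7 + (-432*b*s) * v8) + (16*d - 8*a + 12*d^2 - 6*b*c) * ((144*b*d - 108*a*b + 324*b*d^2 - 108*b^2*c) * v0 + (36*b^2) * v1 + (-432*c^2 + 96*a*s - 936*c^2*d + 432*a*c^2 - 909*c^2*d^2 + 324*b*c^3 - 216*c^2*d^3) * v2 + (-972*c*d - 144*b*s + 864*a*c - 2079*c*d^2 + 1080*b*c^2 - 648*c*d^3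 + 324*b*c^2*d) * v3 + (-324*b*c - 216*a^2 + 243*d^3 - 108*b*c*d - 162*a*b*c + 162*b*c*d^2) * v4 + (360*c + 450*c*d - 72*a*c + 369*c*d^2 - 54*b*c^2 + 54*c*d^3) * v5 + (720*d - 288*s^2 + 972*d^2 + 756*b*c + 837*b*c*d) * v6 + (-864*a + 144*d^2 - 1080*b*c - 216*a^2 + 324*d^3 - 351*b*c*d - 162*a*b*c) * v7 + (-216*b - 45*b*d - 108*a*s - 54*a*b) * v8) + (-16*d - 36*d^2 + 18*b*c) * ((144*b*d + 108*b*d^2) * v0 + (-144*c^2 - 564*c^2*d + 120*a*c^2 - 438*c^2*d^2 + 90*b*c^3 - 72*c^2*d^3) * v2 + (-1080*c*d + 216*a*c - 1098*c*d^2 + 306*b*c^2 - 216*c*d^3 + 108*b*c^2*d) * v3 + (108*d^2 + 108*b*c + 81*d^3 + 153*b*c*d + 54*b*c*d^2) * v4 + (216*c + 378*c*d + 186*c*d^2 + 18*c*d^3) * v5 + (432*d + 324*d^2 + 216*b*c - 72*a^2 + 162*b*c*d - 54*a*b*c) * v6 + (144*d^2 + 108*d^3) * v7) + (2*s) * ((1728*d^2 - 6336*b*c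 + 288*a^2 + 1296*d^3 - 3024*b*c*d) * v0 + (-576*b*d + 1632*a*b - 432*b*d^2 + 1008*b^2*c) * v1 + (2592*c^3 + 648*c^3*d) * v2 + (7776*c^2 + 1152*a*s + 1944*c^2*d) * v3 + (-2592*c*d + 3840*b*s - 1728*a*c - 1944*b*c^2) * v4 + (-2592*c^2 - 648*c^2*d) * v5 + (3456*c*d - 288*a*c + 1944*b*c^2) * v6 + (-1536*c - 7680*s^2 - 3456*c*d - 2304*a*c - 1944*b*c^2) * v7 + (-384*d - 864*d^2 + 2280*b*c - 432*a^2 - 432*d^3 + 1008*b*c*d) * v8)) + ((4+3*d) * ((-368*s) * ((-9*b*c) * v0 + (3*a*b) * v1 + (6*b*s) * v4 + (12*c - 12*s^2) * v7 + (3*d + 3*b*c) * v8) + (288*c + 96*c*d - 72*a*c) * ((3*b^2) * v0 + (8*c*d - 4*b*s - 4*a*c - c*d^2) * v2 + (-3*d^2 - 12*b*c) * v3 + (3*b*d) * v4 + (-6*s^2 + d^2) * v5 + (-3*b*d) * v6 + (3*b*d) * v7) + (-144*s) * ((4*b*c + a^2 + 3*b*c*d) * v0 + (b*d - 2*a*b - b^2*c) * v1 + (-3*c^3)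 * v2 + (-9*c^2 + 4*a*s) * v3 + (-2*b*s + 3*a*c) * v4 + (3*c^2) * v5 + (-a*c) * v6 + (4*s^2 + a*c) * v7 + (-2*b*c - b*c*d) * v8) + (-96*d - 24*a) * ((3*a*b) * v0 + (-4*a*s - 9*c^2*d) * v2 + (-27*c*d) * v3 + (9*b*c) * v4 + (6*c + 3*c*d) * v5 + (12*d + 12*s^2 - 3*b*c) * v6 + (3*b*c) * v7) + (-48*d + 24*a) * ((-6*a*b) * v0 + (3*b^2) * v1 + (-12*c^2 + 4*a*s + 6*c^2*d) * v2 + (18*c*d - 12*b*s) * v3 + (-18*b*c) * v4 + (-6*c*d + 6*a*c) * v5 + (-12*s^2 + 18*b*c) * v6 + (-6*b*c) * v7 + (3*b*d) * v8) + (144*c^2) * ((12*d^2 - 8*b*c + 4*a^2 - 8*b*c*d) * v2 + (-24*b*d + 12*a*b) * v3 + (6*b^2) * v4 + (2*b*d) * v5 + (-12*a*s) * v6 + (-12*b*s) * v7) + (384*c - 96*c*d - 48*a*c) * ((-12*c*d) * v2 + (6*a) * v5 + (12*b) * v6) + (288*d - 144*a + 108*d^2 + 18*b*c - 36*a^2) * ((-3*c^2*d) * v2 + (-9*c*d) * v3 + (9*b*c)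 * v4 + (3*c*d) * v5 + (-9*b*c) * v6 + (12*a + 9*b*c) * v7 + (3*b) * v8))) = (432*(4+3*d)*(a-d)^3) * v4 := by
  linear_combination ((-1728*b + 432*b*d - 1296*b*d^2) * v0 + (2592*b^2 + 432*b^2*d) * v1 + (-3840*b + 6912*c^2 - 5760*b*d + 576*a*b + 2592*c^2*d - 1152*b*d^2 + 864*a*b*d) * v2 + (20736*c + 7776*c*d + 864*b^2) * v3 + (-5184*d - 5184*a - 3888*b*c - 1296*a*d) * v4 + (-5760*s - 6912*c - 8640*d*s - 2592*c*d + 1728*a*s - 1728*d^2*s + 1296*a*d*s) * v5 + (6912*d + 1728*b*s + 3888*b*c + 432*a*d - 6912*a*c - 5184*a*c*d) * v6 + (-20736 - 20160*d - 5184*a - 10800*b*c - 432*a*d - 5184*b*c*d) * v7 + (3024*b - 1584*b*d + 648*a*b + 432*b*d^2) * v8) * hsc + ((3456*d + 2592*d^2 - 432*a^2) * v0 + (-1728*b - 1296*b*d - 2448*a*b) * v1 + (2304*a + 1728*a*d + 576*a^2) * v2 + (-1728*a*s - 864*a*b) * v3 +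 (-5760*b*s) * v4 + (-6912*s - 5184*d*s - 1728*a*s) * v6 + (11520*s^2) * v7 + (-5184 - 5040*d - 1728*a - 864*d^2 - 1296*a*d) * v8) * hsd + ((-2880*b - 3888*b*d - 648*a*b - 648*b^2*c) * v0 + (216*b^2) * v1 + (7488*c^2 + 9648*c^2*d + 3024*a*c^2 + 1944*c^2*d^2 + 324*b*c^3 + 324*a*c^2*d) * v2 + (27648*c + 27216*c*d - 5616*a*c + 5832*c*d^2 + 972*b*c^2 + 972*a*c*d) * v3 + (-5184*d + 1728*a - 5832*d^2 - 10584*b*c + 1296*a*d - 1296*a^2 - 3888*b*c*d - 972*a*b*c) * v4 + (1440*c - 8640*c*d - 864*a*c - 648*c*d^2 - 324*b*c^2 - 324*a*c*d) * v5 + (-6912 - 8640*d + 1152*a + 1296*b*c + 2592*a*d + 2592*b*c*d + 972*a*b*c) * v6 + (4032*d - 8640*a + 1296*d^2 - 7128*b*c - 2592*a*d - 1296*a^2 - 2592*b*c*d - 972*a*b*c) * v7 + (-1512*b - 432*b*d - 324*a*b) * v8) * had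

theorem id4_5 (a b c d s : A) (hsc : s*c = 0) (hsd : s*d = 0) (had : a*d = b*c) (v0 v1 v2 v3 v4 v5 v6 v7 v8 : A) :
    ((6*d) * ((144*b^2 + 108*b^2*d) * v0 + (-2880*c*d - 192*b*s - 576*a*c - 2592*c*d^2 + 720*b*c^2 - 324*c*d^3 + 864*b*c^2*d) * v2 + (-1296*d^2 + 3456*b*c - 1728*a^2 - 972*d^3 + 2592*b*c*d - 1296*a*b*c) * v3 + (432*b*d - 864*a*b + 324*b*d^2 - 648*b^2*c) * v4 + (1440*a - 288*s^2 + 144*d^2 + 792*b*c + 108*d^3 - 216*b*c*d) * v5 + (2880*b + 2016*b*d - 108*b*d^2) * v6 + (144*b*d + 108*b*d^2) * v7 + (-432*b*s) * v8) + (48*b) * ((144*b*d + 108*b*d^2) * v0 + (-144*c^2 - 564*c^2*d + 120*a*c^2 - 438*c^2*d^2 + 90*b*c^3 - 72*c^2*d^3) * v2 + (-1080*c*d + 216*a*c - 1098*c*d^2 + 306*b*c^2 - 216*c*d^3 + 108*b*c^2*d) * v3 + (108*d^2 + 108*b*c + 81*d^3 + 153*b*c*d + 54*b*c*d^2) * v4 + (216*c +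 378*c*d + 186*c*d^2 + 18*c*d^3) * v5 + (432*d + 324*d^2 + 216*b*c - 72*a^2 + 162*b*c*d - 54*a*b*c) * v6 + (144*d^2 + 108*d^3) * v7)) + ((4+3*d) * ((-648*d + 216*a) * ((3*b^2) * v0 + (8*c*d - 4*b*s - 4*a*c - c*d^2) * v2 + (-3*d^2 - 12*b*c) * v3 + (3*b*d) * v4 + (-6*s^2 + d^2) * v5 + (-3*b*d) * v6 + (3*b*d) * v7) + (-216*b) * ((3*a*b) * v0 + (-4*a*s - 9*c^2*d) * v2 + (-27*c*d) * v3 + (9*b*c) * v4 + (6*c + 3*c*d) * v5 + (12*d + 12*s^2 - 3*b*c) * v6 + (3*b*c) * v7) + (216*c - 144*c*d) * ((12*d^2 - 8*b*c + 4*a^2 - 8*b*c*d) * v2 + (-24*b*d + 12*a*b) * v3 + (6*b^2) * v4 + (2*b*d) * v5 + (-12*a*s) * v6 + (-12*b*s) * v7) + (-576*d + 216*s^2 - 144*d^2 - 216*b*c + 72*a^2) * ((-12*c*d) * v2 + (6*a) * v5 + (12*b) * v6))) = (432*(4+3*d)*(a-d)^3) * v5 := by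
  linear_combination ((-10368*d*s - 7776*d^2*s) * v2 + (-10368*a - 864*a*d + 5184*a*d^2) * v6 + (-10368*b - 864*b*d + 5184*b*d^2) * v7) * hsc + ((9216*b + 7776*b*d) * v2 + (13824*s + 11664*d*s) * v5 + (-2592*b) * v8) * hsd + ((13824*c + 12096*c*d - 5760*a*c - 648*c*d^2 - 4320*b*c^2 - 4320*a*c*d) * v2 + (-2592*d - 10368*a - 1944*d^2 - 14688*b*c - 5184*b*c*d) * v3 + (-2592*b + 1944*b*d) * v4 + (-5184 - 18144*d + 5184*a - 5832*d^2 + 3888*a*d) * v5 + (-2592*b - 1944*b*d + 2592*a*b) * v6 + (2592*b + 1944*b*d) * v7) * had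

theorem id4_6 (a b c d s : A) (hsc : s*c = 0) (hsd : s*d = 0) (had : a*d = b*c) (v0 v1 v2 v3 v4 v5 v6 v7 v8 : A) :
    ((-3*c + 3*c*d) * ((144*b^2 + 108*b^2*d) * v0 + (-2880*c*d - 192*b*s - 576*a*c - 2592*c*d^2 + 720*b*c^2 - 324*c*d^3 + 864*b*c^2*d) * v2 + (-1296*d^2 + 3456*b*c - 1728*a^2 - 972*d^3 + 2592*b*c*d - 1296*a*b*c) * v3 + (432*b*d - 864*a*b + 324*b*d^2 - 648*b^2*c) * v4 + (1440*a - 288*s^2 + 144*d^2 + 792*b*c + 108*d^3 - 216*b*c*d) * v5 + (2880*b + 2016*b*d - 108*b*d^2) * v6 + (144*b*d + 108*b*d^2) * v7 + (-432*b*s) * v8) + (-24*a) * ((144*b*d + 108*b*d^2) * v0 + (-144*c^2 - 564*c^2*d + 120*a*c^2 - 438*c^2*d^2 + 90*b*c^3 - 72*c^2*d^3) * v2 + (-1080*c*d + 216*a*c - 1098*c*d^2 + 306*b*c^2 - 216*c*d^3 + 108*b*c^2*d) * v3 + (108*d^2 + 108*b*c + 81*d^3 + 153*b*c*d + 54*b*c*d^2) * v4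 + (216*c + 378*c*d + 186*c*d^2 + 18*c*d^3) * v5 + (432*d + 324*d^2 + 216*b*c - 72*a^2 + 162*b*c*d - 54*a*b*c) * v6 + (144*d^2 + 108*d^3) * v7)) + ((4+3*d) * ((324*c) * ((3*b^2) * v0 + (8*c*d - 4*b*s - 4*a*c - c*d^2) * v2 + (-3*d^2 - 12*b*c) * v3 + (3*b*d) * v4 + (-6*s^2 + d^2) * v5 + (-3*b*d) * v6 + (3*b*d) * v7) + (-36*d^2) * ((3*a*b) * v0 + (-4*a*s - 9*c^2*d) * v2 + (-27*c*d) * v3 + (9*b*c) * v4 + (6*c + 3*c*d) * v5 + (12*d + 12*s^2 - 3*b*c) * v6 + (3*b*c) * v7) + (180*c^2) * ((12*d^2 - 8*b*c + 4*a^2 - 8*b*c*d) * v2 + (-24*b*d + 12*a*b) * v3 + (6*b^2) * v4 + (2*b*d) * v5 + (-12*a*s) * v6 + (-12*b*s) * v7) + (396*c) * ((-12*c*d) * v2 + (6*a) * v5 + (12*b) * v6))) = (432*(4+3*d)*(a-d)^3) * v6 := by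
  linear_combination ((-4608*b - 4464*b*d) * v2 + (-6912*s - 6696*d*s) * v5 + (-8640*a*c - 6480*a*c*d) * v6 + (-8640*b*c - 6480*b*c*d) * v7 + (1296*b - 1296*b*d) * v8) * hsc + ((576*a*d + 432*a*d^2) * v2 + (-1728*d*s - 1296*d^2*s) * v6) * hsd + ((-3456*b - 3024*b*d - 324*b*d^2) * v0 + (7920*c^2 + 10512*c^2*d + 2160*a*c^2 + 1728*c^2*d^2) * v2 + (25920*c + 26352*c*d - 5184*a*c + 5184*c*d^2) * v3 + (-2592*d - 1944*d^2 - 6264*b*c - 1296*b*c*d) * v4 + (2376*c - 4464*c*d - 432*c*d^2) * v5 + (-10368 - 12960*d + 5184*a - 3888*d^2 + 3888*a*d - 1296*a^2) * v6 + (-3456*d - 2592*d^2) * v7) * had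

theorem id4_7 (a b c d s : A) (hsc : s*c = 0) (hsd : s*d = 0) (had : a*d = b*c) (v0 v1 v2 v3 v4 v5 v6 v7 v8 : A) :
    ((-12*d - 9*d^2 + 6*b*c) * ((144*b*d - 108*a*b + 324*b*d^2 - 108*b^2*c) * v0 + (36*b^2) * v1 + (-432*c^2 + 96*a*s - 936*c^2*d + 432*a*c^2 - 909*c^2*d^2 + 324*b*c^3 - 216*c^2*d^3) * v2 + (-972*c*d - 144*b*s + 864*a*c - 2079*c*d^2 + 1080*b*c^2 - 648*c*d^3 + 324*b*c^2*d) * v3 + (-324*b*c - 216*a^2 + 243*d^3 - 108*b*c*d - 162*a*b*c + 162*b*c*d^2) * v4 + (360*c + 450*c*d - 72*a*c + 369*c*d^2 - 54*b*c^2 + 54*c*d^3) * v5 + (720*d - 288*s^2 + 972*d^2 + 756*b*c + 837*b*c*d) * v6 + (-864*a + 144*d^2 - 1080*b*c - 216*a^2 + 324*d^3 - 351*b*c*d - 162*a*b*c) * v7 + (-216*b - 45*b*d - 108*a*s - 54*a*b) * v8) + (27*d^2 - 18*b*c) * ((144*b*d + 108*b*d^2) * v0 + (-144*c^2 - 564*c^2*d + 120*a*c^2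 - 438*c^2*d^2 + 90*b*c^3 - 72*c^2*d^3) * v2 + (-1080*c*d + 216*a*c - 1098*c*d^2 + 306*b*c^2 - 216*c*d^3 + 108*b*c^2*d) * v3 + (108*d^2 + 108*b*c + 81*d^3 + 153*b*c*d + 54*b*c*d^2) * v4 + (216*c + 378*c*d + 186*c*d^2 + 18*c*d^3) * v5 + (432*d + 324*d^2 + 216*b*c - 72*a^2 + 162*b*c*d - 54*a*b*c) * v6 + (144*d^2 + 108*d^3) * v7) + (b) * ((1728*d^2 - 6336*b*c + 288*a^2 + 1296*d^3 - 3024*b*c*d) * v0 + (-576*b*d + 1632*a*b - 432*b*d^2 + 1008*b^2*c) * v1 + (2592*c^3 + 648*c^3*d) * v2 + (7776*c^2 + 1152*a*s + 1944*c^2*d) * v3 + (-2592*c*d + 3840*b*s - 1728*a*c - 1944*b*c^2) * v4 + (-2592*c^2 - 648*c^2*d) * v5 + (3456*c*d - 288*a*c + 1944*b*c^2) * v6 + (-1536*c - 7680*s^2 - 3456*c*d - 2304*a*c - 1944*b*c^2) * v7 + (-384*d - 864*d^2 + 2280*b*c - 432*a^2 - 432*d^3 + 1008*b*c*d) * v8)) + ((4+3*d) * ((-400*b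 - 96*b*d) * ((-9*b*c) * v0 + (3*a*b) * v1 + (6*b*s) * v4 + (12*c - 12*s^2) * v7 + (3*d + 3*b*c) * v8) + (-216*c - 108*c*d + 72*a*c) * ((3*b^2) * v0 + (8*c*d - 4*b*s - 4*a*c - c*d^2) * v2 + (-3*d^2 - 12*b*c) * v3 + (3*b*d) * v4 + (-6*s^2 + d^2) * v5 + (-3*b*d) * v6 + (3*b*d) * v7) + (-288*b) * ((4*b*c + a^2 + 3*b*c*d) * v0 + (b*d - 2*a*b - b^2*c) * v1 + (-3*c^3) * v2 + (-9*c^2 + 4*a*s) * v3 + (-2*b*s + 3*a*c) * v4 + (3*c^2) * v5 + (-a*c) * v6 + (4*s^2 + a*c) * v7 + (-2*b*c - b*c*d) * v8) + (180*d + 216*a) * ((3*a*b) * v0 + (-4*a*s - 9*c^2*d) * v2 + (-27*c*d) * v3 + (9*b*c) * v4 + (6*c + 3*c*d) * v5 + (12*d + 12*s^2 - 3*b*c) * v6 + (3*b*c) * v7) + (180*d + 72*a) * ((-6*a*b) * v0 + (3*b^2) * v1 + (-12*c^2 + 4*a*s + 6*c^2*d) * v2 + (18*c*d - 12*b*s) * v3 + (-18*b*c) * v4 + (-6*c*d + 6*a*c) * v5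 + (-12*s^2 + 18*b*c) * v6 + (-6*b*c) * v7 + (3*b*d) * v8) + (144*s + 72*c^2) * ((12*d^2 - 8*b*c + 4*a^2 - 8*b*c*d) * v2 + (-24*b*d + 12*a*b) * v3 + (6*b^2) * v4 + (2*b*d) * v5 + (-12*a*s) * v6 + (-12*b*s) * v7) + (-216*c + 72*c*d - 72*a*c) * ((-12*c*d) * v2 + (6*a) * v5 + (12*b) * v6) + (216*d - 81*d^2 + 36*a^2) * ((-3*c^2*d) * v2 + (-9*c*d) * v3 + (9*b*c) * v4 + (3*c*d) * v5 + (-9*b*c) * v6 + (12*a + 9*b*c) * v7 + (3*b) * v8))) = (432*(4+3*d)*(a-d)^3) * v7 := by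
  linear_combination ((-1152*b - 3744*b*d - 576*a*b - 2160*b*d^2 - 864*a*b*d) * v2 + (-864*b^2) * v3 + (5184*s + 6480*d*s - 1728*a*s + 1944*d^2*s - 1296*a*d*s) * v5 + (-1728*b*s - 3456*a*c - 2592*a*c*d) * v6 + (-3456*b*c - 2592*b*c*d) * v7 + (-648*a*b) * v8) * hsc + ((6912*d - 1152*a + 5184*d^2 - 864*a*d) * v2 + (-20736*b - 15552*b*d - 864*a*b) * v3 + (-5184*b^2 - 1728*b^2*d) * v4 + (1152*b + 864*b*d) * v5 + (3456*s + 2592*d*s) * v6 + (10368*b*s + 3456*b*d*s) * v7 + (1296*a + 972*a*d) * v8) * hsd + ((-864*b - 648*b*d - 216*a*b + 648*b^2*c) * v0 + (-2376*b^2 - 864*b^2*d) * v1 + (-3744*c^2 + 144*c^2*d - 432*a*c^2 - 216*c^2*d^2 - 324*b*c^3 - 324*a*c^2*d) * v2 + (-28512*c - 16416*c*d - 1296*a*c - 648*c*d^2 - 972*b*c^2 - 972*a*c*d) * v3 + (2592*a + 4104*b*c + 1944*a*d + 2106*b*c*d + 972*a*b*c)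 * v4 + (7776*c + 6120*c*d + 432*a*c + 216*c*d^2 + 324*b*c^2 + 324*a*c*d) * v5 + (10368 + 7776*d - 2592*b*c - 1944*a*d - 2106*b*c*d - 972*a*b*c) * v6 + (20736 + 6480*d + 7776*a - 6804*d^2 + 8424*b*c + 5832*a*d + 2106*b*c*d + 972*a*b*c) * v7 + (1512*b + 1134*b*d + 324*a*b) * v8) * had

theorem id4_8 (a b c d s : A) (hsc : s*c = 0) (hsd : s*d = 0) (had : a*d = b*c) (v0 v1 v2 v3 v4 v5 v6 v7 v8 : A) :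
    ((48*c + 36*c*d) * ((144*b*d - 108*a*b + 324*b*d^2 - 108*b^2*c) * v0 + (36*b^2) * v1 + (-432*c^2 + 96*a*s - 936*c^2*d + 432*a*c^2 - 909*c^2*d^2 + 324*b*c^3 - 216*c^2*d^3) * v2 + (-972*c*d - 144*b*s + 864*a*c - 2079*c*d^2 + 1080*b*c^2 - 648*c*d^3 + 324*b*c^2*d) * v3 + (-324*b*c - 216*a^2 + 243*d^3 - 108*b*c*d - 162*a*b*c + 162*b*c*d^2) * v4 + (360*c + 450*c*d - 72*a*c + 369*c*d^2 - 54*b*c^2 + 54*c*d^3) * v5 + (720*d - 288*s^2 + 972*d^2 + 756*b*c + 837*b*c*d) * v6 + (-864*a + 144*d^2 - 1080*b*c - 216*a^2 + 324*d^3 - 351*b*c*d - 162*a*b*c) * v7 + (-216*b - 45*b*d - 108*a*s - 54*a*b) * v8) + (-108*c*d) * ((144*b*d + 108*b*d^2) * v0 + (-144*c^2 - 564*c^2*d + 120*a*c^2 - 438*c^2*d^2 + 90*b*c^3 - 72*c^2*d^3) * v2 + (-1080*c*d + 216*a*c - 1098*c*d^2 + 306*b*c^2 - 216*c*d^3 + 108*b*c^2*d) * v3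 + (108*d^2 + 108*b*c + 81*d^3 + 153*b*c*d + 54*b*c*d^2) * v4 + (216*c + 378*c*d + 186*c*d^2 + 18*c*d^3) * v5 + (432*d + 324*d^2 + 216*b*c - 72*a^2 + 162*b*c*d - 54*a*b*c) * v6 + (144*d^2 + 108*d^3) * v7) + (-4*a - 3*b*c) * ((1728*d^2 - 6336*b*c + 288*a^2 + 1296*d^3 - 3024*b*c*d) * v0 + (-576*b*d + 1632*a*b - 432*b*d^2 + 1008*b^2*c) * v1 + (2592*c^3 + 648*c^3*d) * v2 + (7776*c^2 + 1152*a*s + 1944*c^2*d) * v3 + (-2592*c*d + 3840*b*s - 1728*a*c - 1944*b*c^2) * v4 + (-2592*c^2 - 648*c^2*d) * v5 + (3456*c*d - 288*a*c + 1944*b*c^2) * v6 + (-1536*c - 7680*s^2 - 3456*c*d - 2304*a*c - 1944*b*c^2) * v7 + (-384*d - 864*d^2 + 2280*b*c - 432*a^2 - 432*d^3 + 1008*b*c*d) * v8)) + ((4+3*d) * ((-1008*b - 432*b*d) * ((-4*c*d + 8*a*c - 3*c*d^2) * v0 + (-d^2 + 2*b*c - 3*a^2 + b*c*d) * v1 + (6*c^2 - 6*a*s) * v4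 + (-8*c^2) * v6 + (8*c^2) * v7 + (-3*s^2 + 2*c*d - 3*a*c + c*d^2) * v8) + (-272*a - 144*d^2) * ((-9*b*c) * v0 + (3*a*b) * v1 + (6*b*s) * v4 + (12*c - 12*s^2) * v7 + (3*d + 3*b*c) * v8) + (432*c^2) * ((3*b^2) * v0 + (8*c*d - 4*b*s - 4*a*c - c*d^2) * v2 + (-3*d^2 - 12*b*c) * v3 + (3*b*d) * v4 + (-6*s^2 + d^2) * v5 + (-3*b*d) * v6 + (3*b*d) * v7) + (-1008*d + 288*a - 432*d^2) * ((4*b*c + a^2 + 3*b*c*d) * v0 + (b*d - 2*a*b - b^2*c) * v1 + (-3*c^3) * v2 + (-9*c^2 + 4*a*s) * v3 + (-2*b*s + 3*a*c) * v4 + (3*c^2) * v5 + (-a*c) * v6 + (4*s^2 + a*c) * v7 + (-2*b*c - b*c*d) * v8) + (-720*c) * ((3*a*b) * v0 + (-4*a*s - 9*c^2*d) * v2 + (-27*c*d) * v3 + (9*b*c) * v4 + (6*c + 3*c*d) * v5 + (12*d + 12*s^2 - 3*b*c) * v6 + (3*b*c) * v7) + (-432*c) * ((-6*a*b) * v0 + (3*b^2) * v1 + (-12*c^2 + 4*a*s + 6*c^2*d)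 * v2 + (18*c*d - 12*b*s) * v3 + (-18*b*c) * v4 + (-6*c*d + 6*a*c) * v5 + (-12*s^2 + 18*b*c) * v6 + (-6*b*c) * v7 + (3*b*d) * v8) + (1008*c - 1008*s^2 + 756*c*d) * ((-3*c^2*d) * v2 + (-9*c*d) * v3 + (9*b*c) * v4 + (3*c*d) * v5 + (-9*b*c) * v6 + (12*a + 9*b*c) * v7 + (3*b) * v8))) = (432*(4+3*d)*(a-d)^3) * v8 := by
  linear_combination ((9216*a - 6912*b*c + 6912*a*d + 12096*c*d*s - 5184*b*c*d + 9072*c*d^2*s) * v2 + (13824*b + 36288*d*s + 10368*b*d - 3456*a*b + 27216*d^2*s) * v3 + (-36288*b*s - 11520*b^2 - 27216*b*d*s) * v4 + (-12096*d*s - 10368*c*s - 9072*d^2*s - 7776*c*d*s) * v5 + (-27648*s - 20736*d*s + 36288*b*s + 27216*b*d*s) * v6 + (-13248*b*s - 27216*b*d*s) * v7 + (-5184*a - 3888*a*d) * v8) * hsc + ((-16128*a - 19008*a*d + 3456*a^2 - 5184*a*d^2) * v3 + (8064*b + 6048*b*d + 21888*a*b +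 7776*a*b*d) * v4 + (-16128*s - 12096*d*s - 23040*a*s) * v7 + (5184*b*s + 3888*b*d*s) * v8) * hsd + ((-6912*d - 4032*a - 5184*d^2 - 19008*b*c - 4752*a*d + 864*a^2 - 9072*b*c*d - 1296*a*d^2) * v0 + (11520*b + 10368*b*d + 10080*a*b + 1296*b*d^2 + 3024*b^2*c + 3888*a*b*d) * v1 + (-7776*c^3) * v2 + (-7776*c^2) * v3 + (-1728*c - 14256*c*d - 5184*a*c - 3888*c*d^2 - 5832*b*c^2) * v4 + (-5184*c^2) * v5 + (-9792*c + 4752*c*d + 6912*a*c + 1296*c*d^2 + 5832*b*c^2) * v6 + (41472*c + 22464*c*d - 6912*a*c - 1296*c*d^2 - 5832*b*c^2) * v7 + (-1728 - 4176*d + 5184*a - 2160*d^2 + 6840*b*c + 3888*a*d - 1296*a^2 + 3024*b*c*d) * v8) * had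

theorem id6_0 (a b c d s : A) (hsc : s*c = 0) (hsd : s*d = 0) (had : a*d = b*c) (v0 v1 v2 v3 : A) :
    ((288*s^2 - 672*c*d + 960*a*c - 504*c*d^2 + 336*b*c^2) * ((4*s) * v0 + (24*c + 12*c*d) * v1 + (-24*c - 36*c*d) * v2 + (-d) * v3) + (-168*d^2 + 240*b*c - 312*a^2) * ((16*s) * v1 + (4*c + 3*c*d) * v3) + (1008*c^2 - 624*a*s) * ((-4*c + 4*c*d) * v0 + (16*d - 8*a + 12*d^2 - 6*b*c) * v1 + (-16*d - 36*d^2 + 18*b*c) * v2 + (2*s) * v3) + (-336*c^3) * ((6*d) * v0 + (48*b) * v2) + (-960*c^2) * ((-3*c + 3*c*d) * v0 + (-24*a) * v2) + (-384*c^2 - 672*c^2*d) * ((-12*d - 9*d^2 + 6*b*c) * v1 + (27*d^2 - 18*b*c) * v2 + (b) * v3) + (-312*s^2 - 96*c*d - 312*a*c) * ((48*c + 36*c*d) * v1 + (-108*c*d) * v2 + (-4*a - 3*b*c) * v3)) = (288*(4+3*d)*(s-c)^3) * v0 := by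
  linear_combination ((3456*s - 2688*d - 3456*c + 6336*a + 2592*d*s - 2016*d^2 - 2592*c*d + 1344*b*c - 2496*a*d) * v0 + (-8064*s + 3840*b - 7776*d*s + 3744*a*b) * v1 + (-6912*s + 23328*d*s - 11232*a*b) * v2 + (2016*c + 936*b*s) * v3) * hsc + ((-864*s^2) * v0 + (-2688*d - 9984*a - 7488*a*d) * v1 + (9984*a + 22464*a*d) * v2 + (-288*s) * v3) * hsd + ((288*c^2) * v1 + (-864*c^2) * v2 + (-576*c - 936*a*c) * v3) * had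

theorem id6_1 (a b c d s : A) (hsc : s*c = 0) (hsd : s*d = 0) (had : a*d = b*c) (v0 v1 v2 v3 : A) :
    ((216*a*c^2) * ((4*s) * v0 + (24*c + 12*c*d) * v1 + (-24*c - 36*c*d) * v2 + (-d) * v3) + (72*s^2 - 24*a*c - 81*a^2*c) * ((16*s) * v1 + (4*c + 3*c*d) * v3) + (162*c^3) * ((-4*c + 4*c*d) * v0 + (16*d - 8*a + 12*d^2 - 6*b*c) * v1 + (-16*d - 36*d^2 + 18*b*c) * v2 + (2*s) * v3) + (-216*c^3) * ((-3*c + 3*c*d) * v0 + (-24*a) * v2) + (216*c^3) * ((-12*d - 9*d^2 + 6*b*c) * v1 + (27*d^2 - 18*b*c) * v2 + (b) * v3) + (-24*c^2 - 81*a*c^2) * ((48*c + 36*c*d) * v1 + (-108*c*d) * v2 + (-4*a - 3*b*c) * v3)) = (288*(4+3*d)*(s-c)^3) * v1 := by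
  linear_combination ((864*a*c) * v0 + (3456*s - 3456*c - 384*a + 2592*d*s - 2592*c*d - 1296*a^2) * v1 + (288*s + 216*d*s + 324*c^2) * v3) * hsc + ((-864*s^2) * v1) * hsd + ((-324*c^3) * v1 + (972*c^3) * v2 + (-288*c^2 - 243*a*c^2) * v3) * had

theorem id6_2 (a b c d s : A) (hsc : s*c = 0) (hsd : s*d = 0) (had : a*d = b*c) (v0 v1 v2 v3 : A) :
    ((48*c^2 + 12*b*s + 36*c^2*d + 72*a*c^2) * ((4*s) * v0 + (24*c + 12*c*d) * v1 + (-24*c - 36*c*d) * v2 + (-d) * v3) + (12*c*d - 24*a*c - 12*b*c^2 - 27*a^2*c) * ((16*s) * v1 + (4*c + 3*c*d) * v3) + (-16*s^2) * ((3*b) * v0 + (-72*s) * v2) + (54*c^3) * ((-4*c + 4*c*d) * v0 + (16*d - 8*a + 12*d^2 - 6*b*c) * v1 + (-16*d - 36*d^2 + 18*b*c) * v2 + (2*s) * v3) + (-72*c^3) * ((-3*c + 3*c*d) * v0 + (-24*a) * v2) + (72*c^3) * ((-12*d - 9*d^2 + 6*b*c) * v1 + (27*d^2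 - 18*b*c) * v2 + (b) * v3) + (-24*c^2 - 12*c^2*d - 27*a*c^2) * ((48*c + 36*c*d) * v1 + (-108*c*d) * v2 + (-4*a - 3*b*c) * v3)) = (288*(4+3*d)*(s-c)^3) * v2 := by
  linear_combination ((192*c + 144*c*d + 288*a*c) * v0 + (192*d + 288*b - 384*a + 144*b*d - 192*b*c - 432*a^2) * v1 + (3456*s - 3456*c - 288*b + 2592*d*s - 2592*c*d - 432*b*d) * v2 + (108*c^2) * v3) * hsc + ((-864*s^2) * v2 + (-12*b) * v3) * hsd + ((-108*c^3) * v1 + (324*c^3) * v2 + (-96*c^2 - 81*a*c^2) * v3) * had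

theorem id6_3 (a b c d s : A) (hsc : s*c = 0) (hsd : s*d = 0) (had : a*d = b*c) (v0 v1 v2 v3 : A) :
    ((-288*c^2 + 288*a*s) * ((16*s) * v1 + (4*c + 3*c*d) * v3) + (576*s^2) * ((-4*c + 4*c*d) * v0 + (16*d - 8*a + 12*d^2 - 6*b*c) * v1 + (-16*d - 36*d^2 + 18*b*c) * v2 + (2*s) * v3)) = (288*(4+3*d)*(s-c)^3) * v3 := by
  linear_combination ((-2304*s + 2304*d*s) * v0 + (-4608*c - 3456*b*s) * v1 + (10368*b*s) * v2 + (3456*s - 3456*c + 1152*a + 2592*d*s - 2592*c*d + 864*a*d) * v3) * hsc + ((9216*s + 6912*d*s) * v1 + (-9216*s - 20736*d*s) * v2 + (-864*s^2) * v3) * hsd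

end Pool.Agent.H950R2.PS
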