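import Pool.Agent.H950R2.PS.MatsA
import Pool.Agent.H950R2.PS.MatsB
import Pool.Agent.H950R2.PS.MatsC
set_option autoImplicit false
set_option linter.unusedVariables false
set_option linter.unusedSectionVars false
/-! The generated matrices as linear maps, and the matrix identities in vector form. -/
namespace Pool.Agent.H950R2.PS
variable {A : Type} [CommRing A]

/-- linear map of the matrix `phi1` -/
def phi1L (a b c d s : A) : (Fin 9 → A) →ₗ[A] (Fin 4 → A) where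
  toFun := phi1 a b c d s
  map_add' v w := by
    funext i
    fin_cases i <;> (simp only [phi1, Pi.add_apply, Fin.zero_eta, Fin.mk_one, Fin.reduceFinMk, Matrix.cons_val]; ring)
  map_smul' r v := by
    funext i
    fin_cases i <;> (simp only [phi1, Pi.smul_apply, smul_eq_mul, RingHom.id_apply, Fin.zero_eta, Fin.mk_one, Fin.reduceFinMk, Matrix.cons_val]; ring)

/-- linear map of the matrix `phi2` -/
def phi2L (a b c d s : A) : (Fin 9 → A) →ₗ[A] (Fin 9 → A) where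
  toFun := phi2 a b c d s
  map_add' v w := by
    funext i
    fin_cases i <;> (simp only [phi2, Pi.add_apply, Fin.zero_eta, Fin.mk_one, Fin.reduceFinMk, Matrix.cons_val]; ring)
  map_smul' r v := by
    funext i
    fin_cases i <;> (simp only [phi2, Pi.smul_apply, smul_eq_mul, RingHom.id_apply, Fin.zero_eta, Fin.mk_one, Fin.reduceFinMk, Matrix.cons_val]; ring)

/-- linear map of the matrix `phi3` -/
def phi3L (a b c d s : A) : (Fin 4 → A) →ₗ[A] (Fin 9 → A) where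
  toFun := phi3 a b c d s
  map_add' v w := by
    funext i
    fin_cases i <;> (simp only [phi3, Pi.add_apply, Fin.zero_eta, Fin.mk_one, Fin.reduceFinMk, Matrix.cons_val]; ring)
  map_smul' r v := by
    funext i
    fin_cases i <;> (simp only [phi3, Pi.smul_apply, smul_eq_mul, RingHom.id_apply, Fin.zero_eta, Fin.mk_one, Fin.reduceFinMk, Matrix.cons_val]; ring)

/-- linear map of the matrix `H0` -/
def H0L (a b c d s : A) : (Fin 4 → A) →ₗ[A] (Fin 9 → A) where
  toFun := H0 a b c d s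
  map_add' v w := by
    funext i
    fin_cases i <;> (simp only [H0, Pi.add_apply, Fin.zero_eta, Fin.mk_one, Fin.reduceFinMk, Matrix.cons_val]; ring)
  map_smul' r v := by
    funext i
    fin_cases i <;> (simp only [H0, Pi.smul_apply, smul_eq_mul, RingHom.id_apply, Fin.zero_eta, Fin.mk_one, Fin.reduceFinMk, Matrix.cons_val]; ring)

/-- linear map of the matrix `H1` -/
def H1L (a b c d s : A) : (Fin 9 → A) →ₗ[A] (Fin 9 → A) where
  toFun := H1 a b c d s
  map_add' v w := by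
    funext i
    fin_cases i <;> (simp only [H1, Pi.add_apply, Fin.zero_eta, Fin.mk_one, Fin.reduceFinMk, Matrix.cons_val]; ring)
  map_smul' r v := by
    funext i
    fin_cases i <;> (simp only [H1, Pi.smul_apply, smul_eq_mul, RingHom.id_apply, Fin.zero_eta, Fin.mk_one, Fin.reduceFinMk, Matrix.cons_val]; ring)

/-- linear map of the matrix `H2` -/
def H2L (a b c d s : A) : (Fin 9 → A) →ₗ[A] (Fin 4 → A) where
  toFun := H2 a b c d s
  map_add' v w := by
    funext i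
    fin_cases i <;> (simp only [H2, Pi.add_apply, Fin.zero_eta, Fin.mk_one, Fin.reduceFinMk, Matrix.cons_val]; ring)
  map_smul' r v := by
    funext i
    fin_cases i <;> (simp only [H2, Pi.smul_apply, smul_eq_mul, RingHom.id_apply, Fin.zero_eta, Fin.mk_one, Fin.reduceFinMk, Matrix.cons_val]; ring)

/-- linear map of the matrix `K0` -/
def K0L (a b c d s : A) : (Fin 4 → A) →ₗ[A] (Fin 9 → A) where
  toFun := K0 a b c d s
  map_add' v w := by
    funext i
    fin_cases i <;> (simp only [K0, Pi.add_apply, Fin.zero_eta, Fin.mk_one, Fin.reduceFinMk, Matrix.cons_val]; ring)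
  map_smul' r v := by
    funext i
    fin_cases i <;> (simp only [K0, Pi.smul_apply, smul_eq_mul, RingHom.id_apply, Fin.zero_eta, Fin.mk_one, Fin.reduceFinMk, Matrix.cons_val]; ring)

/-- linear map of the matrix `K1` -/
def K1L (a b c d s : A) : (Fin 9 → A) →ₗ[A] (Fin 9 → A) where
  toFun := K1 a b c d s
  map_add' v w := by
    funext i
    fin_cases i <;> (simp only [K1, Pi.add_apply, Fin.zero_eta, Fin.mk_one, Fin.reduceFinMk, Matrix.cons_val]; ring)
  map_smul' r v := by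
    funext i
    fin_cases i <;> (simp only [K1, Pi.smul_apply, smul_eq_mul, RingHom.id_apply, Fin.zero_eta, Fin.mk_one, Fin.reduceFinMk, Matrix.cons_val]; ring)

/-- linear map of the matrix `K2` -/
def K2L (a b c d s : A) : (Fin 9 → A) →ₗ[A] (Fin 4 → A) where
  toFun := K2 a b c d s
  map_add' v w := by
    funext i
    fin_cases i <;> (simp only [K2, Pi.add_apply, Fin.zero_eta, Fin.mk_one, Fin.reduceFinMk, Matrix.cons_val]; ring)
  map_smul' r v := by
    funext i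
    fin_cases i <;> (simp only [K2, Pi.smul_apply, smul_eq_mul, RingHom.id_apply, Fin.zero_eta, Fin.mk_one, Fin.reduceFinMk, Matrix.cons_val]; ring)

/-- linear map of the matrix `L2` -/
def L2L (a b c d s : A) : (Fin 9 → A) →ₗ[A] (Fin 4 → A) where
  toFun := L2 a b c d s
  map_add' v w := by
    funext i
    fin_cases i <;> (simp only [L2, Pi.add_apply, Fin.zero_eta, Fin.mk_one, Fin.reduceFinMk, Matrix.cons_val]; ring)
  map_smul' r v := by
    funext i
    fin_cases i <;> (simp only [L2, Pi.smul_apply, smul_eq_mul, RingHom.id_apply, Fin.zero_eta, Fin.mk_one, Fin.reduceFinMk, Matrix.cons_val]; ring)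

/-- linear map of the matrix `HC` -/
def HCL (a b c d s : A) : (Fin 4 → A) →ₗ[A] (Fin 9 → A) where
  toFun := HC a b c d s
  map_add' v w := by
    funext i
    fin_cases i <;> (simp only [HC, Pi.add_apply, Fin.zero_eta, Fin.mk_one, Fin.reduceFinMk, Matrix.cons_val]; ring)
  map_smul' r v := by
    funext i
    fin_cases i <;> (simp only [HC, Pi.smul_apply, smul_eq_mul, RingHom.id_apply, Fin.zero_eta, Fin.mk_one, Fin.reduceFinMk, Matrix.cons_val]; ring)

theorem c12 (a b c d s : A) (hsc : s*c = 0) (hsd : s*d = 0) (had : a*d = b*c) (v : Fin 9 → A) :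
    phi1L a b c d s (phi2L a b c d s v) = 0 := by
  funext i
  fin_cases i
  · exact c12_0 a b c d s hsc hsd had (v 0) (v 1) (v 2) (v 3) (v 4) (v 5) (v 6) (v 7) (v 8)
  · exact c12_1 a b c d s hsc hsd had (v 0) (v 1) (v 2) (v 3) (v 4) (v 5) (v 6) (v 7) (v 8)
  · exact c12_2 a b c d s hsc hsd had (v 0) (v 1) (v 2) (v 3) (v 4) (v 5) (v 6) (v 7) (v 8)
  · exact c12_3 a b c d s hsc hsd had (v 0) (v 1) (v 2) (v 3) (v 4) (v 5) (v 6) (v 7) (v 8)

theorem c23 (a b c d s : A) (hsc : s*c = 0) (hsd : s*d = 0) (had : a*d = b*c) (v : Fin 4 → A) :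
    phi2L a b c d s (phi3L a b c d s v) = 0 := by
  funext i
  fin_cases i
  · exact c23_0 a b c d s hsc hsd had (v 0) (v 1) (v 2) (v 3)
  · exact c23_1 a b c d s hsc hsd had (v 0) (v 1) (v 2) (v 3)
  · exact c23_2 a b c d s hsc hsd had (v 0) (v 1) (v 2) (v 3)
  · exact c23_3 a b c d s hsc hsd had (v 0) (v 1) (v 2) (v 3)
  · exact c23_4 a b c d s hsc hsd had (v 0) (v 1) (v 2) (v 3)
  · exact c23_5 a b c d s hsc hsd had (v 0) (v 1) (v 2) (v 3)
  · exact c23_6 a b c d s hsc hsd had (v 0) (v 1) (v 2) (v 3)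
  · exact c23_7 a b c d s hsc hsd had (v 0) (v 1) (v 2) (v 3)
  · exact c23_8 a b c d s hsc hsd had (v 0) (v 1) (v 2) (v 3)

theorem id1 (a b c d s : A) (hsc : s*c = 0) (hsd : s*d = 0) (had : a*d = b*c) (v : Fin 9 → A) :
    phi2L a b c d s (H1L a b c d s v) + H0L a b c d s (phi1L a b c d s v) = (36*(b-c)^3) • v := by
  funext i
  fin_cases i
  · exact id1_0 a b c d s hsc hsd had (v 0) (v 1) (v 2) (v 3) (v 4) (v 5) (v 6) (v 7) (v 8)
  · exact id1_1 a b c d s hsc hsd had (v 0) (v 1) (v 2) (v 3) (v 4) (v 5) (v 6) (v 7) (v 8)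
  · exact id1_2 a b c d s hsc hsd had (v 0) (v 1) (v 2) (v 3) (v 4) (v 5) (v 6) (v 7) (v 8)
  · exact id1_3 a b c d s hsc hsd had (v 0) (v 1) (v 2) (v 3) (v 4) (v 5) (v 6) (v 7) (v 8)
  · exact id1_4 a b c d s hsc hsd had (v 0) (v 1) (v 2) (v 3) (v 4) (v 5) (v 6) (v 7) (v 8)
  · exact id1_5 a b c d s hsc hsd had (v 0) (v 1) (v 2) (v 3) (v 4) (v 5) (v 6) (v 7) (v 8)
  · exact id1_6 a b c d s hsc hsd had (v 0) (v 1) (v 2) (v 3) (v 4) (v 5) (v 6) (v 7) (v 8)
  · exact id1_7 a b c d s hsc hsd had (v 0) (v 1) (v 2) (v 3) (v 4) (v 5) (v 6) (v 7) (v 8)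
  · exact id1_8 a b c d s hsc hsd had (v 0) (v 1) (v 2) (v 3) (v 4) (v 5) (v 6) (v 7) (v 8)

theorem id2 (a b c d s : A) (hsc : s*c = 0) (hsd : s*d = 0) (had : a*d = b*c) (v : Fin 9 → A) :
    phi3L a b c d s (H2L a b c d s v) + (8*(4+3*d)) • (H1L a b c d s (phi2L a b c d s v)) = (288*(4+3*d)*(b-c)^3) • v := by
  funext i
  fin_cases i
  · exact id2_0 a b c d s hsc hsd had (v 0) (v 1) (v 2) (v 3) (v 4) (v 5) (v 6) (v 7) (v 8)
  · exact id2_1 a b c d s hsc hsd had (v 0) (v 1) (v 2) (v 3) (v 4) (v 5) (v 6) (v 7) (v 8)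
  · exact id2_2 a b c d s hsc hsd had (v 0) (v 1) (v 2) (v 3) (v 4) (v 5) (v 6) (v 7) (v 8)
  · exact id2_3 a b c d s hsc hsd had (v 0) (v 1) (v 2) (v 3) (v 4) (v 5) (v 6) (v 7) (v 8)
  · exact id2_4 a b c d s hsc hsd had (v 0) (v 1) (v 2) (v 3) (v 4) (v 5) (v 6) (v 7) (v 8)
  · exact id2_5 a b c d s hsc hsd had (v 0) (v 1) (v 2) (v 3) (v 4) (v 5) (v 6) (v 7) (v 8)
  · exact id2_6 a b c d s hsc hsd had (v 0) (v 1) (v 2) (v 3) (v 4) (v 5) (v 6) (v 7) (v 8)
  · exact id2_7 a b c d s hsc hsd had (v 0) (v 1) (v 2) (v 3) (v 4) (v 5) (v 6) (v 7) (v 8)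
  · exact id2_8 a b c d s hsc hsd had (v 0) (v 1) (v 2) (v 3) (v 4) (v 5) (v 6) (v 7) (v 8)

theorem id4 (a b c d s : A) (hsc : s*c = 0) (hsd : s*d = 0) (had : a*d = b*c) (v : Fin 9 → A) :
    phi3L a b c d s (K2L a b c d s v) + (4+3*d) • (K1L a b c d s (phi2L a b c d s v)) = (432*(4+3*d)*(a-d)^3) • v := by
  funext i
  fin_cases i
  · exact id4_0 a b c d s hsc hsd had (v 0) (v 1) (v 2) (v 3) (v 4) (v 5) (v 6) (v 7) (v 8)
  · exact id4_1 a b c d s hsc hsd had (v 0) (v 1) (v 2) (v 3) (v 4) (v 5) (v 6) (v 7) (v 8)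
  · exact id4_2 a b c d s hsc hsd had (v 0) (v 1) (v 2) (v 3) (v 4) (v 5) (v 6) (v 7) (v 8)
  · exact id4_3 a b c d s hsc hsd had (v 0) (v 1) (v 2) (v 3) (v 4) (v 5) (v 6) (v 7) (v 8)
  · exact id4_4 a b c d s hsc hsd had (v 0) (v 1) (v 2) (v 3) (v 4) (v 5) (v 6) (v 7) (v 8)
  · exact id4_5 a b c d s hsc hsd had (v 0) (v 1) (v 2) (v 3) (v 4) (v 5) (v 6) (v 7) (v 8)
  · exact id4_6 a b c d s hsc hsd had (v 0) (v 1) (v 2) (v 3) (v 4) (v 5) (v 6) (v 7) (v 8)
  · exact id4_7 a b c d s hsc hsd had (v 0) (v 1) (v 2) (v 3) (v 4) (v 5) (v 6) (v 7) (v 8)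
  · exact id4_8 a b c d s hsc hsd had (v 0) (v 1) (v 2) (v 3) (v 4) (v 5) (v 6) (v 7) (v 8)

theorem id5 (a b c d s : A) (hsc : s*c = 0) (hsd : s*d = 0) (had : a*d = b*c) (v : Fin 4 → A) :
    K2L a b c d s (phi3L a b c d s v) = (432*(4+3*d)*(a-d)^3) • v := by
  funext i
  fin_cases i
  · exact id5_0 a b c d s hsc hsd had (v 0) (v 1) (v 2) (v 3)
  · exact id5_1 a b c d s hsc hsd had (v 0) (v 1) (v 2) (v 3)
  · exact id5_2 a b c d s hsc hsd had (v 0) (v 1) (v 2) (v 3)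
  · exact id5_3 a b c d s hsc hsd had (v 0) (v 1) (v 2) (v 3)

theorem id6 (a b c d s : A) (hsc : s*c = 0) (hsd : s*d = 0) (had : a*d = b*c) (v : Fin 4 → A) :
    L2L a b c d s (phi3L a b c d s v) = (288*(4+3*d)*(s-c)^3) • v := by
  funext i
  fin_cases i
  · exact id6_0 a b c d s hsc hsd had (v 0) (v 1) (v 2) (v 3)
  · exact id6_1 a b c d s hsc hsd had (v 0) (v 1) (v 2) (v 3)
  · exact id6_2 a b c d s hsc hsd had (v 0) (v 1) (v 2) (v 3)
  · exact id6_3 a b c d s hsc hsd had (v 0) (v 1) (v 2) (v 3)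

theorem kx (a b c d s : A) (hsc : s*c = 0) (hsd : s*d = 0) (had : a*d = b*c) (v : Fin 4 → A) :
    phi1L a b c d s (H0L a b c d s v) = (36*(b-c)^3) • v := by
  funext i
  fin_cases i
  · exact kx_0 a b c d s hsc hsd had (v 0) (v 1) (v 2) (v 3)
  · exact kx_1 a b c d s hsc hsd had (v 0) (v 1) (v 2) (v 3)
  · exact kx_2 a b c d s hsc hsd had (v 0) (v 1) (v 2) (v 3)
  · exact kx_3 a b c d s hsc hsd had (v 0) (v 1) (v 2) (v 3)

theorem ky (a b c d s : A) (hsc : s*c = 0) (hsd : s*d = 0) (had : a*d = b*c) (v : Fin 4 → A) :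
    phi1L a b c d s (K0L a b c d s v) = (12*(a-d)^3) • v := by
  funext i
  fin_cases i
  · exact ky_0 a b c d s hsc hsd had (v 0) (v 1) (v 2) (v 3)
  · exact ky_1 a b c d s hsc hsd had (v 0) (v 1) (v 2) (v 3)
  · exact ky_2 a b c d s hsc hsd had (v 0) (v 1) (v 2) (v 3)
  · exact ky_3 a b c d s hsc hsd had (v 0) (v 1) (v 2) (v 3)

theorem kc (a b c d s : A) (hsc : s*c = 0) (hsd : s*d = 0) (had : a*d = b*c) (v : Fin 4 → A) :
    phi1L a b c d s (HCL a b c d s v) = (3*c^3) • v := by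
  funext i
  fin_cases i
  · exact kc_0 a b c d s hsc hsd had (v 0) (v 1) (v 2) (v 3)
  · exact kc_1 a b c d s hsc hsd had (v 0) (v 1) (v 2) (v 3)
  · exact kc_2 a b c d s hsc hsd had (v 0) (v 1) (v 2) (v 3)
  · exact kc_3 a b c d s hsc hsd had (v 0) (v 1) (v 2) (v 3)

end Pool.Agent.H950R2.PS
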