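import Mathlib
set_option autoImplicit false
set_option linter.unusedVariables false
set_option linter.unusedSectionVars false
/-! Explicit matrices (generated) for the counterexample to the dimension inequality. -/
namespace Pool.Agent.H950R2.PS
variable {A : Type} [CommRing A]

/-- generated matrix `phi1` (as a function) -/
def phi1 (a b c d s : A) (v : Fin 9 → A) : Fin 4 → A :=
  ![(-2*b - b*d) * v 1 + (-3*b) * v 3 + (a) * v 4 + (d) * v 5 + (s) * v 6 + (-c) * v 7 + (2*d) * v 8,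
    (a) * v 2 + (-b) * v 4 + (c) * v 6 + (d + s^2) * v 7,
    (b) * v 0 + (a) * v 1 + (d) * v 3 + (-c + s^2) * v 8,
    (-b) * v 1 + (-3*c) * v 2 + (2*a) * v 4 + (a) * v 5 + (s) * v 6 + (-2*c - a*c) * v 7 + (d) * v 8]

/-- generated matrix `phi2` (as a function) -/
def phi2 (a b c d s : A) (v : Fin 9 → A) : Fin 9 → A :=
  ![(-4*c*d + 8*a*c - 3*c*d^2) * v 0 + (-d^2 + 2*b*c - 3*a^2 + b*c*d) * v 1 + (6*c^2 - 6*a*s) * v 4 + (-8*c^2) * v 6 + (8*c^2) * v 7 + (-3*s^2 + 2*c*d - 3*a*c + c*d^2) * v 8,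
    (-9*b*c) * v 0 + (3*a*b) * v 1 + (6*b*s) * v 4 + (12*c - 12*s^2) * v 7 + (3*d + 3*b*c) * v 8,
    (3*b^2) * v 0 + (8*c*d - 4*b*s - 4*a*c - c*d^2) * v 2 + (-3*d^2 - 12*b*c) * v 3 + (3*b*d) * v 4 + (-6*s^2 + d^2) * v 5 + (-3*b*d) * v 6 + (3*b*d) * v 7,
    (4*b*c + a^2 + 3*b*c*d) * v 0 + (b*d - 2*a*b - b^2*c) * v 1 + (-3*c^3) * v 2 + (-9*c^2 + 4*a*s) * v 3 + (-2*b*s + 3*a*c) * v 4 + (3*c^2) * v 5 + (-a*c) * v 6 + (4*s^2 + a*c) * v 7 + (-2*b*c - b*c*d) * v 8,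
    (3*a*b) * v 0 + (-4*a*s - 9*c^2*d) * v 2 + (-27*c*d) * v 3 + (9*b*c) * v 4 + (6*c + 3*c*d) * v 5 + (12*d + 12*s^2 - 3*b*c) * v 6 + (3*b*c) * v 7,
    (-6*a*b) * v 0 + (3*b^2) * v 1 + (-12*c^2 + 4*a*s + 6*c^2*d) * v 2 + (18*c*d - 12*b*s) * v 3 + (-18*b*c) * v 4 + (-6*c*d + 6*a*c) * v 5 + (-12*s^2 + 18*b*c) * v 6 + (-6*b*c) * v 7 + (3*b*d) * v 8,
    (12*d^2 - 8*b*c + 4*a^2 - 8*b*c*d) * v 2 + (-24*b*d + 12*a*b) * v 3 + (6*b^2) * v 4 + (2*b*d) * v 5 + (-12*a*s) * v 6 + (-12*b*s) * v 7,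
    (-12*c*d) * v 2 + (6*a) * v 5 + (12*b) * v 6,
    (-3*c^2*d) * v 2 + (-9*c*d) * v 3 + (9*b*c) * v 4 + (3*c*d) * v 5 + (-9*b*c) * v 6 + (12*a + 9*b*c) * v 7 + (3*b) * v 8]

/-- generated matrix `phi3` (as a function) -/
def phi3 (a b c d s : A) (v : Fin 4 → A) : Fin 9 → A :=
  ![(4*s) * v 0 + (24*c + 12*c*d) * v 1 + (-24*c - 36*c*d) * v 2 + (-d) * v 3,
    (16*s) * v 1 + (4*c + 3*c*d) * v 3,
    (3*b) * v 0 + (-72*s) * v 2,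
    (2*d - a) * v 0 + (4*b + 3*b*d) * v 1 + (-9*b*d) * v 2,
    (-4*c + 4*c*d) * v 0 + (16*d - 8*a + 12*d^2 - 6*b*c) * v 1 + (-16*d - 36*d^2 + 18*b*c) * v 2 + (2*s) * v 3,
    (6*d) * v 0 + (48*b) * v 2,
    (-3*c + 3*c*d) * v 0 + (-24*a) * v 2,
    (-12*d - 9*d^2 + 6*b*c) * v 1 + (27*d^2 - 18*b*c) * v 2 + (b) * v 3,
    (48*c + 36*c*d) * v 1 + (-108*c*d) * v 2 + (-4*a - 3*b*c) * v 3]

/-- generated matrix `H0` (as a function) -/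
def H0 (a b c d s : A) (v : Fin 4 → A) : Fin 9 → A :=
  ![(-36*c*d + 12*b*d) * v 0 + (-24*d^2 - 324*c^2 + 12*b*c) * v 1 + (108*c^2 - 108*b*c + 36*b^2) * v 2 + (108*s^2 - 24*b*d + 36*a*b - 12*b*d^2) * v 3,
    (-648*c + 648*s^2) * v 1 + (-108*d - 36*b^2) * v 3,
    (-18*d^2 - 24*c^2 - 12*a*c^2) * v 0 + (-108*b*d) * v 1 + (12*c*d - 24*b*s - 24*a*c) * v 2 + (9*d^2 + 12*c^2) * v 3,
    (-54*c^2 + 36*b*c - 12*b^2) * v 0 + (-216*s^2 + 24*b*d - 12*a*b) * v 1 + (27*c^2 + 24*b^2 + 12*b^2*d) * v 3,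
    (-54*c*d) * v 0 + (-36*b^2) * v 1 + (-24*a*s) * v 2 + (81*c*d) * v 3,
    (108*c*d) * v 0 + (72*b^2) * v 1 + (-72*c^2 + 24*a*s) * v 2 + (-54*c*d - 108*b*d) * v 3,
    (-36*c*d - 36*b*d + 24*a*c + 12*a^2*c) * v 0 + (-36*c^2 + 648*b*s + 108*b*c) * v 1 + (-12*b*c + 24*a^2) * v 2 + (72*b*d - 12*a*c) * v 3,
    (36*c^2) * v 0,
    (-54*c*d) * v 0 + (-648*a - 324*b*c) * v 1 + (36*c^2) * v 2 + (-108*b + 27*c*d) * v 3]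

/-- generated matrix `H1` (as a function) -/
def H1 (a b c d s : A) (v : Fin 9 → A) : Fin 9 → A :=
  ![(8*s) * v 0 + (12*b) * v 2 + (36*c) * v 7 + (12*d) * v 8,
    (36*s) * v 2 + (24*b) * v 4 + (-36*c + 12*b) * v 5 + (-24*c) * v 6 + (24*s - 24*d) * v 7 + (-48*c - 12*b*d) * v 8,
    (-6*a - 3*b*c) * v 1 + (-3*a*c) * v 4 + (3*c) * v 5 + (6*c - 6*s^2) * v 8,
    (-2*a) * v 0 + (3*a*c + b*c^2) * v 1 + (-9*c + 9*b) * v 2 + (4*c + 3*a*c) * v 3 + (-2*c^2) * v 4 + (-c^2) * v 5 + (6*b + 3*b*s) * v 7 + (3*d - 2*c^2) * v 8,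
    (-6*c) * v 0 + (-6*d^2 + 4*c^2) * v 1 + (36*d - 18*a) * v 2 + (-18*d + 12*c^2) * v 3 + (36*s - 4*c^3) * v 4 + (-12*c) * v 5 + (-12*s - 18*c + 6*b) * v 6 + (24*d - 12*a + 6*d^2 + 12*c^2 + 6*b*s) * v 7 + (-24*s - 6*c) * v 8,
    (-6*c^2) * v 4 + (18*d) * v 5 + (-18*b*d) * v 7 + (36*d) * v 8,
    (9*c^2) * v 3 + (-3*c^3) * v 4 + (-9*c) * v 5 + (9*c^2 + 3*b^2) * v 7 + (-18*c) * v 8,
    (-9*d - 3*c^2) * v 1 + (-27*d + 54*a) * v 2 + (-36*b) * v 4 + (54*c - 6*b) * v 6 + (18*d + 54*s^2 + 3*b^2) * v 7 + (-12*b) * v 8,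
    (36*c - 36*b) * v 1 + (36*a) * v 5 + (36*s + 24*a) * v 6 + (72*c - 12*a*b) * v 7 + (36*d + 48*a + 12*b^2) * v 8]

/-- generated matrix `H2` (as a function) -/
def H2 (a b c d s : A) (v : Fin 9 → A) : Fin 4 → A :=
  ![(-384*a*c - 576*b*c^2 + 96*a^2*c - 216*b*c^2*d + 72*a*b*c^2) * v 0 + (-96*b*c + 192*a^2 - 72*b*c*d + 240*a*b*c + 72*b^2*c^2) * v 1 + (1152*c^2 - 1152*b*c + 384*b^2 + 864*c^2*d - 864*b*c*d + 288*b^2*d - 288*c^4 - 216*c^4*d) * v 2 + (-864*c^3 - 648*c^3*d) * v 3 + (384*a*s + 288*a*c^2 + 216*b*c^3) * v 4 + (576*b*s + 96*c^3 + 72*c^3*d) * v 5 + (384*c^2 + 288*c^2*d - 96*a*c^2 - 72*b*c^3) * v 6 + (96*a*c^2 + 72*b*c^3) * v 7 + (192*s^2 + 192*a*c + 240*b*c^2 + 72*b*c^2*d) * v 8,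
    (216*b*c - 216*b^2 + 108*c^2*d + 162*b*c*d + 81*c^2*d^2) * v 0 + (-24*a*c + 27*c*d^2 - 81*b*d^2 - 54*b*c^2 - 27*b*c^2*d) * v 1 + (576*c*d + 288*b*s - 192*b*d + 96*a*b + 396*c*d^2 - 108*b*d^2 - 324*c*d^3) * v 2 + (216*d^2 + 288*b^2) * v 3 + (-216*b*d) * v 4 + (-288*a + 432*s^2 - 72*d^2 + 54*b^2*d) * v 5 + (-576*b - 288*b*s + 216*b*d + 324*b*d^2) * v 6 + (-288*c - 648*c*d - 216*b*d - 324*c*d^2) * v 7 + (-72*d - 162*d^2 - 24*c^2 - 81*d^3 - 54*c^2*d - 27*c^2*d^2) * v 8,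
    (48*c^2 + 72*b*c + 72*c^2*d + 54*b*c*d + 27*c^2*d^2) * v 0 + (12*c*d - 36*b*d - 24*a*c + 9*c*d^2 - 27*b*d^2 - 30*b*c^2 - 9*b*c^2*d) * v 1 + (144*c*d - 48*b*d - 36*c*d^2 - 36*b*d^2 - 108*c*d^3) * v 2 + (24*b^2 + 18*b^2*d) * v 5 + (144*b*d + 108*b*d^2) * v 6 + (-288*c - 360*c*d - 108*c*d^2) * v 7 + (-72*d - 90*d^2 - 24*c^2 - 27*d^3 - 30*c^2*d - 9*c^2*d^2) * v 8,
    (-1728*a*b) * v 0 + (-288*c^2 + 864*b*c) * v 1 + (-3456*c^2 - 384*b*c + 2304*a*s + 768*a^2 + 576*c^2*d - 384*b*c*d - 288*b*c*d^2) * v 2 + (1728*c*d - 1152*b*d + 2304*a*b - 864*b*d^2) * v 3 + (-1728*b*c + 1152*b^2 + 864*b^2*d) * v 4 + (-576*c*d + 384*b*d + 1728*a*c - 576*a*b + 288*b*d^2) * v 5 + (-6912*s^2 + 1728*b*c - 1152*b^2 - 2304*a*s - 864*b^2*d) * v 6 + (4608*a - 2304*b*s + 1728*b*c + 1152*b^2 + 864*b^2*d) * v 7 + (1152*b + 864*b*d)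 * v 8]

/-- generated matrix `K0` (as a function) -/
def K0 (a b c d s : A) (v : Fin 4 → A) : Fin 9 → A :=
  ![(-24*c^2) * v 0 + (-84*s^2 + 32*c*d - 12*a*c) * v 2 + (-24*c^2) * v 3,
    (-24*c + 24*s^2) * v 0 + (-24*c^2) * v 1 + (84*d + 36*d^2 - 24*b*c + 12*a^2) * v 2 + (-24*c + 24*s^2) * v 3,
    (-12*b*d + 12*a*b) * v 0 + (36*s^2 - 36*b*c + 12*a^2 + 3*d^3) * v 1 + (24*b^2 + 12*b^2*d) * v 2 + (-12*b*d) * v 3,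
    (-8*s^2) * v 0 + (-24*c^2 + 9*c^2*d) * v 1 + (-12*d^2 + 4*b*c) * v 2 + (-8*s^2 - 12*c*d) * v 3,
    (-12*b*c + 12*a^2) * v 0 + (-36*c - 72*c*d + 3*c*d^2) * v 1 + (24*a*b + 12*b^2*c) * v 2 + (-12*b*c) * v 3,
    (-12*d^2 + 60*b*c - 24*a^2) * v 0 + (36*c*d - 18*c*d^2) * v 1 + (48*b*d - 36*a*b + 36*b*d^2 - 24*b^2*c) * v 2 + (24*d^2 - 12*b*c + 12*a^2) * v 3,
    (24*b*s) * v 0 + (-36*b*d) * v 1 + (24*b*s) * v 3,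
    (-36*a - 12*d^2) * v 1,
    (-24*a - 24*b*c) * v 0 + (-24*c*d - 24*a*c + 9*c*d^2) * v 1 + (84*b + 36*b*d) * v 2 + (-24*a - 12*d^2 - 24*b*c) * v 3]

/-- generated matrix `K1` (as a function) -/
def K1 (a b c d s : A) (v : Fin 9 → A) : Fin 9 → A :=
  ![(-288*b - 144*b*d) * v 0 + (-32*d - 48*d^2) * v 1 + (-48*s + 144*c^2) * v 2 + (-432*d + 432*a - 144*d^2) * v 3 + (-144*c) * v 4 + (-144*c) * v 5 + (-240*s) * v 7 + (432*c - 144*s^2 + 252*c*d + 72*a*c) * v 8,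
    (432*d - 144*a) * v 0 + (128*c) * v 1 + (864*c) * v 3 + (48*s) * v 4 + (-48*s) * v 5 + (288*s + 216*c^2 + 72*a*s) * v 8,
    (-36*b) * v 2 + (-36*d + 108*a) * v 6 + (-180*b) * v 7 + (108*b*s) * v 8,
    (-72*d + 12*a + 36*b*c) * v 2 + (12*b) * v 4 + (-12*b) * v 5 + (-24*c) * v 6 + (-192*d + 60*a - 12*d^2 + 12*b*c) * v 7 + (72*b + 27*b*d + 18*a*b) * v 8,
    (-368*s) * v 1 + (288*c + 96*c*d - 72*a*c) * v 2 + (-144*s) * v 3 + (-96*d - 24*a) * v 4 + (-48*d + 24*a) * v 5 + (144*c^2) * v 6 + (384*c - 96*c*d - 48*a*c) * v 7 + (288*d - 144*a + 108*d^2 + 18*b*c - 36*a^2) * v 8,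
    (-648*d + 216*a) * v 2 + (-216*b) * v 4 + (216*c - 144*c*d) * v 6 + (-576*d + 216*s^2 - 144*d^2 - 216*b*c + 72*a^2) * v 7,
    (324*c) * v 2 + (-36*d^2) * v 4 + (180*c^2) * v 6 + (396*c) * v 7,
    (-400*b - 96*b*d) * v 1 + (-216*c - 108*c*d + 72*a*c) * v 2 + (-288*b) * v 3 + (180*d + 216*a) * v 4 + (180*d + 72*a) * v 5 + (144*s + 72*c^2) * v 6 + (-216*c + 72*c*d - 72*a*c) * v 7 + (216*d - 81*d^2 + 36*a^2) * v 8,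
    (-1008*b - 432*b*d) * v 0 + (-272*a - 144*d^2) * v 1 + (432*c^2) * v 2 + (-1008*d + 288*a - 432*d^2) * v 3 + (-720*c) * v 4 + (-432*c) * v 5 + (1008*c - 1008*s^2 + 756*c*d) * v 8]

/-- generated matrix `K2` (as a function) -/
def K2 (a b c d s : A) (v : Fin 9 → A) : Fin 4 → A :=
  ![(144*b^2 + 108*b^2*d) * v 0 + (-2880*c*d - 192*b*s - 576*a*c - 2592*c*d^2 + 720*b*c^2 - 324*c*d^3 + 864*b*c^2*d) * v 2 + (-1296*d^2 + 3456*b*c - 1728*a^2 - 972*d^3 + 2592*b*c*d - 1296*a*b*c) * v 3 + (432*b*d - 864*a*b + 324*b*d^2 - 648*b^2*c) * v 4 + (1440*a - 288*s^2 + 144*d^2 + 792*b*c + 108*d^3 - 216*b*c*d) * v 5 + (2880*b + 2016*b*d - 108*b*d^2) * v 6 + (144*b*d + 108*b*d^2) * v 7 + (-432*b*s) * v 8,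
    (144*b*d - 108*a*b + 324*b*d^2 - 108*b^2*c) * v 0 + (36*b^2) * v 1 + (-432*c^2 + 96*a*s - 936*c^2*d + 432*a*c^2 - 909*c^2*d^2 + 324*b*c^3 - 216*c^2*d^3) * v 2 + (-972*c*d - 144*b*s + 864*a*c - 2079*c*d^2 + 1080*b*c^2 - 648*c*d^3 + 324*b*c^2*d) * v 3 + (-324*b*c - 216*a^2 + 243*d^3 - 108*b*c*d - 162*a*b*c + 162*b*c*d^2) * v 4 + (360*c + 450*c*d - 72*a*c + 369*c*d^2 - 54*b*c^2 + 54*c*d^3) * v 5 + (720*d - 288*s^2 + 972*d^2 + 756*b*c + 837*b*c*d) * v 6 + (-864*a + 144*d^2 - 1080*b*c - 216*a^2 + 324*d^3 - 351*b*c*d - 162*a*b*c) * v 7 + (-216*b - 45*b*d - 108*a*s - 54*a*b) * v 8,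
    (144*b*d + 108*b*d^2) * v 0 + (-144*c^2 - 564*c^2*d + 120*a*c^2 - 438*c^2*d^2 + 90*b*c^3 - 72*c^2*d^3) * v 2 + (-1080*c*d + 216*a*c - 1098*c*d^2 + 306*b*c^2 - 216*c*d^3 + 108*b*c^2*d) * v 3 + (108*d^2 + 108*b*c + 81*d^3 + 153*b*c*d + 54*b*c*d^2) * v 4 + (216*c + 378*c*d + 186*c*d^2 + 18*c*d^3) * v 5 + (432*d + 324*d^2 + 216*b*c - 72*a^2 + 162*b*c*d - 54*a*b*c) * v 6 + (144*d^2 + 108*d^3) * v 7,
    (1728*d^2 - 6336*b*c + 288*a^2 + 1296*d^3 - 3024*b*c*d) * v 0 + (-576*b*d + 1632*a*b - 432*b*d^2 + 1008*b^2*c) * v 1 + (2592*c^3 + 648*c^3*d) * v 2 + (7776*c^2 + 1152*a*s + 1944*c^2*d) * v 3 + (-2592*c*d + 3840*b*s - 1728*a*c - 1944*b*c^2) * v 4 + (-2592*c^2 - 648*c^2*d) * v 5 + (3456*c*d - 288*a*c + 1944*b*c^2) * v 6 + (-1536*c - 7680*s^2 - 3456*c*d - 2304*a*c - 1944*b*c^2) * v 7 + (-384*d - 864*d^2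 + 2280*b*c - 432*a^2 - 432*d^3 + 1008*b*c*d) * v 8]

/-- generated matrix `L2` (as a function) -/
def L2 (a b c d s : A) (v : Fin 9 → A) : Fin 4 → A :=
  ![(288*s^2 - 672*c*d + 960*a*c - 504*c*d^2 + 336*b*c^2) * v 0 + (-168*d^2 + 240*b*c - 312*a^2) * v 1 + (1008*c^2 - 624*a*s) * v 4 + (-336*c^3) * v 5 + (-960*c^2) * v 6 + (-384*c^2 - 672*c^2*d) * v 7 + (-312*s^2 - 96*c*d - 312*a*c) * v 8,
    (216*a*c^2) * v 0 + (72*s^2 - 24*a*c - 81*a^2*c) * v 1 + (162*c^3) * v 4 + (-216*c^3) * v 6 + (216*c^3) * v 7 + (-24*c^2 - 81*a*c^2) * v 8,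
    (48*c^2 + 12*b*s + 36*c^2*d + 72*a*c^2) * v 0 + (12*c*d - 24*a*c - 12*b*c^2 - 27*a^2*c) * v 1 + (-16*s^2) * v 2 + (54*c^3) * v 4 + (-72*c^3) * v 6 + (72*c^3) * v 7 + (-24*c^2 - 12*c^2*d - 27*a*c^2) * v 8,
    (-288*c^2 + 288*a*s) * v 1 + (576*s^2) * v 4]

/-- generated matrix `HC` (as a function) -/
def HC (a b c d s : A) (v : Fin 4 → A) : Fin 9 → A :=
  ![0,
    0,
    (2*c^2 + a*c^2) * v 0 + (-c*d + 2*b*s + 2*a*c) * v 2 + (-c^2) * v 3,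
    0,
    (2*a*s) * v 2,
    (6*c^2 - 2*a*s) * v 2,
    (3*c*d - 2*a*c - a^2*c) * v 0 + (3*c^2) * v 1 + (b*c - 2*a^2) * v 2 + (a*c) * v 3,
    (-3*c^2) * v 0,
    (-3*c^2) * v 2]

theorem c12_0 (a b c d s : A) (hsc : s*c = 0) (hsd : s*d = 0) (had : a*d = b*c) (v0 v1 v2 v3 v4 v5 v6 v7 v8 : A) :
    ((-2*b - b*d) * ((-9*b*c) * v0 + (3*a*b) * v1 + (6*b*s) * v4 + (12*c - 12*s^2) * v7 + (3*d + 3*b*c) * v8) + (-3*b) * ((4*b*c + a^2 + 3*b*c*d) * v0 + (b*d - 2*a*b - b^2*c) * v1 + (-3*c^3) * v2 + (-9*c^2 + 4*a*s) * v3 + (-2*b*s + 3*a*c) * v4 + (3*c^2) * v5 + (-a*c) * v6 + (4*s^2 + a*c) * v7 + (-2*b*c - b*c*d) * v8) + (a) * ((3*a*b) * v0 + (-4*a*s - 9*c^2*d) * v2 + (-27*c*d) * v3 + (9*b*c) * v4 + (6*c + 3*c*d) * v5 + (12*d + 12*s^2 - 3*b*c) * v6 + (3*b*c) * v7) + (d) * ((-6*a*b) * v0 + (3*b^2) * v1 + (-12*c^2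 + 4*a*s + 6*c^2*d) * v2 + (18*c*d - 12*b*s) * v3 + (-18*b*c) * v4 + (-6*c*d + 6*a*c) * v5 + (-12*s^2 + 18*b*c) * v6 + (-6*b*c) * v7 + (3*b*d) * v8) + (s) * ((12*d^2 - 8*b*c + 4*a^2 - 8*b*c*d) * v2 + (-24*b*d + 12*a*b) * v3 + (6*b^2) * v4 + (2*b*d) * v5 + (-12*a*s) * v6 + (-12*b*s) * v7) + (-c) * ((-12*c*d) * v2 + (6*a) * v5 + (12*b) * v6) + (2*d) * ((-3*c^2*d) * v2 + (-9*c*d) * v3 + (9*b*c) * v4 + (3*c*d) * v5 + (-9*b*c) * v6 + (12*a + 9*b*c) * v7 + (3*b) * v8)) = 0 := by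
  linear_combination ((-8*b - 8*b*d) * v2) * hsc + ((12*d + 4*a) * v2 + (-36*b) * v3 + (-6*b^2) * v4 + (2*b) * v5 + (-12*s) * v6 + (12*b*s) * v7) * hsd + ((-6*b) * v0 + (-3*b^2) * v1 + (-9*c^2) * v2 + (-27*c) * v3 + (9*c) * v5 + (12) * v6 + (24) * v7) * had

theorem c12_1 (a b c d s : A) (hsc : s*c = 0) (hsd : s*d = 0) (had : a*d = b*c) (v0 v1 v2 v3 v4 v5 v6 v7 v8 : A) :
    ((a) * ((3*b^2) * v0 + (8*c*d - 4*b*s - 4*a*c - c*d^2) * v2 + (-3*d^2 - 12*b*c) * v3 + (3*b*d) * v4 + (-6*s^2 + d^2) * v5 + (-3*b*d) * v6 + (3*b*d) * v7) + (-b) * ((3*a*b) * v0 + (-4*a*s - 9*c^2*d) * v2 + (-27*c*d) * v3 + (9*b*c) * v4 + (6*c + 3*c*d) * v5 + (12*d + 12*s^2 - 3*b*c) * v6 + (3*b*c) * v7) + (c) * ((12*d^2 - 8*b*c + 4*a^2 - 8*b*c*d) * v2 + (-24*b*d + 12*a*b) * v3 + (6*b^2) * v4 + (2*b*d) * v5 + (-12*a*s) * v6 + (-12*b*s)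 * v7) + (d + s^2) * ((-12*c*d) * v2 + (6*a) * v5 + (12*b) * v6)) = 0 := by
  linear_combination ((-12*d*s) * v2 + (-12*a) * v6 + (-12*b) * v7) * hsc + ((8*c - c*d) * v2 + (-3*d) * v3 + (3*b) * v4 + (6 + d) * v5 + (-3*b) * v6 + (3*b) * v7) * had

theorem c12_2 (a b c d s : A) (hsc : s*c = 0) (hsd : s*d = 0) (had : a*d = b*c) (v0 v1 v2 v3 v4 v5 v6 v7 v8 : A) :
    ((b) * ((-4*c*d + 8*a*c - 3*c*d^2) * v0 + (-d^2 + 2*b*c - 3*a^2 + b*c*d) * v1 + (6*c^2 - 6*a*s) * v4 + (-8*c^2) * v6 + (8*c^2) * v7 + (-3*s^2 + 2*c*d - 3*a*c + c*d^2) * v8) + (a) * ((-9*b*c) * v0 + (3*a*b) * v1 + (6*b*s) * v4 + (12*c - 12*s^2) * v7 + (3*d + 3*b*c) * v8) + (d) * ((4*b*c + a^2 + 3*b*c*d) * v0 + (b*d - 2*a*b - b^2*c) * v1 + (-3*c^3) * v2 + (-9*c^2 + 4*a*s) * v3 + (-2*b*s + 3*a*c) * v4 + (3*c^2) * v5 + (-a*c) * v6 + (4*s^2 + a*c)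 * v7 + (-2*b*c - b*c*d) * v8) + (-c + s^2) * ((-3*c^2*d) * v2 + (-9*c*d) * v3 + (9*b*c) * v4 + (3*c*d) * v5 + (-9*b*c) * v6 + (12*a + 9*b*c) * v7 + (3*b) * v8)) = 0 := by
  linear_combination ((-3*c*d*s) * v2 + (-9*d*s) * v3 + (9*b*s) * v4 + (3*d*s) * v5 + (-9*b*s) * v6 + (9*b*s) * v7) * hsc + ((4*a) * v3 + (-2*b) * v4 + (4*s) * v7) * hsd + ((a) * v0 + (-2*b) * v1 + (3*c) * v4 + (-c) * v6 + (c) * v7 + (3) * v8) * had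

theorem c12_3 (a b c d s : A) (hsc : s*c = 0) (hsd : s*d = 0) (had : a*d = b*c) (v0 v1 v2 v3 v4 v5 v6 v7 v8 : A) :
    ((-b) * ((-9*b*c) * v0 + (3*a*b) * v1 + (6*b*s) * v4 + (12*c - 12*s^2) * v7 + (3*d + 3*b*c) * v8) + (-3*c) * ((3*b^2) * v0 + (8*c*d - 4*b*s - 4*a*c - c*d^2) * v2 + (-3*d^2 - 12*b*c) * v3 + (3*b*d) * v4 + (-6*s^2 + d^2) * v5 + (-3*b*d) * v6 + (3*b*d) * v7) + (2*a) * ((3*a*b) * v0 + (-4*a*s - 9*c^2*d) * v2 + (-27*c*d) * v3 + (9*b*c) * v4 + (6*c + 3*c*d) * v5 + (12*d + 12*s^2 - 3*b*c) * v6 + (3*b*c) * v7) + (a) * ((-6*a*b) * v0 + (3*b^2) * v1 + (-12*c^2 + 4*a*s + 6*c^2*d) * v2 + (18*c*d - 12*b*s) * v3 + (-18*b*c) * v4 + (-6*c*d + 6*a*c) * v5 + (-12*s^2 + 18*b*c) * v6 + (-6*b*c) * v7 + (3*b*d) * v8) + (s) * ((12*d^2 - 8*b*c + 4*a^2 - 8*b*c*d) * v2 + (-24*b*d + 12*a*b) * v3 + (6*b^2) *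 v4 + (2*b*d) * v5 + (-12*a*s) * v6 + (-12*b*s) * v7) + (-2*c - a*c) * ((-12*c*d) * v2 + (6*a) * v5 + (12*b) * v6) + (d) * ((-3*c^2*d) * v2 + (-9*c*d) * v3 + (9*b*c) * v4 + (3*c*d) * v5 + (-9*b*c) * v6 + (12*a + 9*b*c) * v7 + (3*b) * v8)) = 0 := by
  linear_combination ((4*b - 8*b*d) * v2 + (18*s) * v5) * hsc + ((12*d) * v2 + (-24*b) * v3 + (2*b) * v5) * hsd + ((-36*c) * v3 + (24) * v6 + (12) * v7 + (3*b) * v8) * had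

theorem c23_0 (a b c d s : A) (hsc : s*c = 0) (hsd : s*d = 0) (had : a*d = b*c) (v0 v1 v2 v3 : A) :
    ((-4*c*d + 8*a*c - 3*c*d^2) * ((4*s) * v0 + (24*c + 12*c*d) * v1 + (-24*c - 36*c*d) * v2 + (-d) * v3) + (-d^2 + 2*b*c - 3*a^2 + b*c*d) * ((16*s) * v1 + (4*c + 3*c*d) * v3) + (6*c^2 - 6*a*s) * ((-4*c + 4*c*d) * v0 + (16*d - 8*a + 12*d^2 - 6*b*c) * v1 + (-16*d - 36*d^2 + 18*b*c) * v2 + (2*s) * v3) + (-8*c^2) * ((-3*c + 3*c*d) * v0 + (-24*a) * v2) + (8*c^2) * ((-12*d - 9*d^2 + 6*b*c) * v1 + (27*d^2 - 18*b*c) * v2 + (b) * v3) + (-3*s^2 + 2*c*d - 3*a*c + c*d^2) * ((48*c + 36*c*d) * v1 + (-108*c*d) * v2 + (-4*a - 3*b*c) * v3)) = 0 := by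
  linear_combination ((-16*d + 56*a - 12*d^2 - 24*a*d) * v0 + (-144*s + 32*b - 108*d*s + 16*b*d + 36*a*b) * v1 + (324*d*s - 108*a*b) * v2 + (12*c + 9*b*s) * v3) * hsc + ((-16*d - 96*a - 72*a*d) * v1 + (96*a + 216*a*d) * v2) * hsd + ((-12*c^2) * v1 + (36*c^2) * v2 + (-16*c - 4*c*d - 9*a*c) * v3) * had

theorem c23_1 (a b c d s : A) (hsc : s*c = 0) (hsd : s*d = 0) (had : a*d = b*c) (v0 v1 v2 v3 : A) :
    ((-9*b*c) * ((4*s) * v0 + (24*c + 12*c*d) * v1 + (-24*c - 36*c*d) * v2 + (-d) * v3) + (3*a*b) * ((16*s) * v1 + (4*c + 3*c*d) * v3) + (6*b*s) * ((-4*c + 4*c*d) * v0 + (16*d - 8*a + 12*d^2 - 6*b*c) * v1 + (-16*d - 36*d^2 + 18*b*c) * v2 + (2*s) * v3) + (12*c - 12*s^2) * ((-12*d - 9*d^2 + 6*b*c) * v1 + (27*d^2 - 18*b*c) * v2 + (b) * v3) + (3*d + 3*b*c) * ((48*c + 36*c*d) * v1 + (-108*c*d) * v2 + (-4*a -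 3*b*c) * v3)) = 0 := by
  linear_combination ((-60*b + 24*b*d) * v0 + (-72*b*s - 36*b^2) * v1 + (216*b*s + 108*b^2) * v2) * hsc + ((144*s + 96*b + 108*d*s + 72*b*d) * v1 + (-96*b - 324*d*s - 216*b*d) * v2) * hsd + ((-12 + 9*b*c) * v3) * had

theorem c23_2 (a b c d s : A) (hsc : s*c = 0) (hsd : s*d = 0) (had : a*d = b*c) (v0 v1 v2 v3 : A) :
    ((3*b^2) * ((4*s) * v0 + (24*c + 12*c*d) * v1 + (-24*c - 36*c*d) * v2 + (-d) * v3) + (8*c*d - 4*b*s - 4*a*c - c*d^2) * ((3*b) * v0 + (-72*s) * v2) + (-3*d^2 - 12*b*c) * ((2*d - a) * v0 + (4*b + 3*b*d) * v1 + (-9*b*d) * v2) + (3*b*d) * ((-4*c + 4*c*d) * v0 + (16*d - 8*a + 12*d^2 - 6*b*c) * v1 + (-16*d - 36*d^2 + 18*b*c) * v2 + (2*s) * v3) + (-6*s^2 + d^2) * ((6*d) * v0 + (48*b) * v2) + (-3*b*d) * ((-3*c + 3*c*d) * v0 + (-24*a) * v2) + (3*b*d) * ((-12*d - 9*d^2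 + 6*b*c) * v1 + (27*d^2 - 18*b*c) * v2 + (b) * v3)) = 0 := by
  linear_combination ((-576*d + 288*a + 72*d^2) * v2) * hsc + ((-36*s) * v0 + (6*b) * v3) * hsd + ((3*d) * v0 + (-24*b) * v1 + (72*b) * v2) * had

theorem c23_3 (a b c d s : A) (hsc : s*c = 0) (hsd : s*d = 0) (had : a*d = b*c) (v0 v1 v2 v3 : A) :
    ((4*b*c + a^2 + 3*b*c*d) * ((4*s) * v0 + (24*c + 12*c*d) * v1 + (-24*c - 36*c*d) * v2 + (-d) * v3) + (b*d - 2*a*b - b^2*c) * ((16*s) * v1 + (4*c + 3*c*d) * v3) + (-3*c^3) * ((3*b) * v0 + (-72*s) * v2) + (-9*c^2 + 4*a*s) * ((2*d - a) * v0 + (4*b + 3*b*d) * v1 + (-9*b*d) * v2) + (-2*b*s + 3*a*c) * ((-4*c + 4*c*d) * v0 + (16*d - 8*a + 12*d^2 - 6*b*c) * v1 + (-16*d - 36*d^2 + 18*b*c) * v2 + (2*s) * v3) + (3*c^2) * ((6*d) * v0 + (48*b) * v2) + (-a*c) * ((-3*c + 3*c*d) * v0 + (-24*a) * v2) + (4*s^2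 + a*c) * ((-12*d - 9*d^2 + 6*b*c) * v1 + (27*d^2 - 18*b*c) * v2 + (b) * v3) + (-2*b*c - b*c*d) * ((48*c + 36*c*d) * v1 + (-108*c*d) * v2 + (-4*a - 3*b*c) * v3)) = 0 := by
  linear_combination ((24*b + 4*b*d) * v0 + (24*b*s - 4*b^2) * v1 + (216*c^2 - 72*b*s - 36*b^2) * v2 + (6*a) * v3) * hsc + ((8*a) * v0 + (-48*s - 16*b - 36*d*s - 24*b*d + 12*a*b) * v1 + (32*b + 108*d*s + 72*b*d - 36*a*b) * v2) * hsd + ((9*c^2) * v0 + (36*c + 27*c*d + 12*a*c) * v1 + (-48*c - 81*c*d - 36*a*c) * v2 + (-a - 2*b*c) * v3) * had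

theorem c23_4 (a b c d s : A) (hsc : s*c = 0) (hsd : s*d = 0) (had : a*d = b*c) (v0 v1 v2 v3 : A) :
    ((3*a*b) * ((4*s) * v0 + (24*c + 12*c*d) * v1 + (-24*c - 36*c*d) * v2 + (-d) * v3) + (-4*a*s - 9*c^2*d) * ((3*b) * v0 + (-72*s) * v2) + (-27*c*d) * ((2*d - a) * v0 + (4*b + 3*b*d) * v1 + (-9*b*d) * v2) + (9*b*c) * ((-4*c + 4*c*d) * v0 + (16*d - 8*a + 12*d^2 - 6*b*c) * v1 + (-16*d - 36*d^2 + 18*b*c) * v2 + (2*s) * v3) + (6*c + 3*c*d) * ((6*d) * v0 + (48*b) * v2) + (12*d + 12*s^2 - 3*b*c) * ((-3*c + 3*c*d) * v0 + (-24*a) * v2) + (3*b*c) * ((-12*d - 9*d^2 + 6*b*c) * v1 + (27*d^2 - 18*b*c) * v2 + (b) * v3)) = 0 := by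
  linear_combination ((-36*s + 36*d*s) * v0 + (648*c*d) * v2 + (18*b) * v3) * hsc + ((27*c) * v0 + (36*b*c) * v1 + (-288 - 108*b*c) * v2 + (-3*b) * v3) * had

theorem c23_5 (a b c d s : A) (hsc : s*c = 0) (hsd : s*d = 0) (had : a*d = b*c) (v0 v1 v2 v3 : A) :
    ((-6*a*b) * ((4*s) * v0 + (24*c + 12*c*d) * v1 + (-24*c - 36*c*d) * v2 + (-d) * v3) + (3*b^2) * ((16*s) * v1 + (4*c + 3*c*d) * v3) + (-12*c^2 + 4*a*s + 6*c^2*d) * ((3*b) * v0 + (-72*s) * v2) + (18*c*d - 12*b*s) * ((2*d - a) * v0 + (4*b + 3*b*d) * v1 + (-9*b*d) * v2) + (-18*b*c) * ((-4*c + 4*c*d) * v0 + (16*d - 8*a + 12*d^2 - 6*b*c) * v1 + (-16*d - 36*d^2 + 18*b*c) * v2 + (2*s) * v3) + (-6*c*d + 6*a*c) * ((6*d) * v0 + (48*b) * v2) + (-12*s^2 + 18*b*c) * ((-3*c + 3*c*d) * v0 + (-24*a) * v2) + (-6*b*c) * ((-12*d - 9*d^2 + 6*b*c) * v1 + (27*d^2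 - 18*b*c) * v2 + (b) * v3) + (3*b*d) * ((48*c + 36*c*d) * v1 + (-108*c*d) * v2 + (-4*a - 3*b*c) * v3)) = 0 := by
  linear_combination ((36*s - 36*d*s) * v0 + (864*c - 432*c*d) * v2 + (-36*b) * v3) * hsc + ((-24*b) * v0 + (-36*b^2) * v1 + (108*b^2) * v2) * hsd + ((18*c) * v0 + (-72*b*c) * v1 + (216*b*c) * v2 + (-6*b) * v3) * had

theorem c23_6 (a b c d s : A) (hsc : s*c = 0) (hsd : s*d = 0) (had : a*d = b*c) (v0 v1 v2 v3 : A) :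
    ((12*d^2 - 8*b*c + 4*a^2 - 8*b*c*d) * ((3*b) * v0 + (-72*s) * v2) + (-24*b*d + 12*a*b) * ((2*d - a) * v0 + (4*b + 3*b*d) * v1 + (-9*b*d) * v2) + (6*b^2) * ((-4*c + 4*c*d) * v0 + (16*d - 8*a + 12*d^2 - 6*b*c) * v1 + (-16*d - 36*d^2 + 18*b*c) * v2 + (2*s) * v3) + (2*b*d) * ((6*d) * v0 + (48*b) * v2) + (-12*a*s) * ((-3*c + 3*c*d) * v0 + (-24*a) * v2) + (-12*b*s) * ((-12*d - 9*d^2 + 6*b*c) * v1 + (27*d^2 - 18*b*c) * v2 + (b) * v3)) = 0 := by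
  linear_combination ((36*a - 36*a*d) * v0 + (-72*b^2) * v1 + (576*b + 576*b*d + 216*b^2) * v2) * hsc + ((144*b + 108*b*d) * v1 + (-864*d - 324*b*d) * v2) * hsd + ((48*b) * v0 + (36*b^2) * v1 + (-108*b^2) * v2) * had

theorem c23_7 (a b c d s : A) (hsc : s*c = 0) (hsd : s*d = 0) (had : a*d = b*c) (v0 v1 v2 v3 : A) :
    ((-12*c*d) * ((3*b) * v0 + (-72*s) * v2) + (6*a) * ((6*d) * v0 + (48*b) * v2) + (12*b) * ((-3*c + 3*c*d) * v0 + (-24*a) * v2)) = 0 := by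
  linear_combination ((864*d) * v2) * hsc + ((36) * v0) * had

theorem c23_8 (a b c d s : A) (hsc : s*c = 0) (hsd : s*d = 0) (had : a*d = b*c) (v0 v1 v2 v3 : A) :
    ((-3*c^2*d) * ((3*b) * v0 + (-72*s) * v2) + (-9*c*d) * ((2*d - a) * v0 + (4*b + 3*b*d) * v1 + (-9*b*d) * v2) + (9*b*c) * ((-4*c + 4*c*d) * v0 + (16*d - 8*a + 12*d^2 - 6*b*c) * v1 + (-16*d - 36*d^2 + 18*b*c) * v2 + (2*s) * v3) + (3*c*d) * ((6*d) * v0 + (48*b) * v2) + (-9*b*c) * ((-3*c + 3*c*d) * v0 + (-24*a) * v2) + (12*a + 9*b*c) * ((-12*d - 9*d^2 + 6*b*c) * v1 + (27*d^2 - 18*b*c) * v2 + (b) * v3) + (3*b) * ((48*c + 36*c*d) * v1 + (-108*c*d) * v2 + (-4*a - 3*b*c) * v3)) = 0 := by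
  linear_combination ((216*c*d) * v2 + (18*b) * v3) * hsc + ((9*c) * v0 + (-144 - 108*d) * v1 + (324*d) * v2) * had

theorem kx_0 (a b c d s : A) (hsc : s*c = 0) (hsd : s*d = 0) (had : a*d = b*c) (v0 v1 v2 v3 : A) :
    ((-2*b - b*d) * ((-648*c + 648*s^2) * v1 + (-108*d - 36*b^2) * v3) + (-3*b) * ((-54*c^2 + 36*b*c - 12*b^2) * v0 + (-216*s^2 + 24*b*d - 12*a*b) * v1 + (27*c^2 + 24*b^2 + 12*b^2*d) * v3) + (a) * ((-54*c*d) * v0 + (-36*b^2) * v1 + (-24*a*s) * v2 + (81*c*d) * v3) + (d) * ((108*c*d) * v0 + (72*b^2) * v1 + (-72*c^2 + 24*a*s) * v2 + (-54*c*d - 108*b*d) * v3) + (s) * ((-36*c*d - 36*b*d + 24*a*c + 12*a^2*c) * v0 + (-36*c^2 + 648*b*s + 108*b*c) * v1 + (-12*b*c + 24*a^2) * v2 + (72*b*d - 12*a*c) * v3) + (-c) * ((36*c^2) * v0) + (2*d) * ((-54*c*d) * v0 + (-648*a - 324*b*c) * v1 + (36*c^2) * v2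 + (-108*b + 27*c*d) * v3)) = (36*(b-c)^3) * v0 := by
  linear_combination ((-36*d + 24*a + 12*a^2) * v0 + (-36*c + 108*b) * v1 + (-12*b) * v2 + (-12*a) * v3) * hsc + ((-36*b) * v0 + (-648*b*s) * v1 + (24*a) * v2 + (72*b) * v3) * hsd + ((-54*c) * v0 + (-1296) * v1 + (81*c) * v3) * had

theorem kx_1 (a b c d s : A) (hsc : s*c = 0) (hsd : s*d = 0) (had : a*d = b*c) (v0 v1 v2 v3 : A) :
    ((a) * ((-18*d^2 - 24*c^2 - 12*a*c^2) * v0 + (-108*b*d) * v1 + (12*c*d - 24*b*s - 24*a*c) * v2 + (9*d^2 + 12*c^2) * v3) + (-b) * ((-54*c*d) * v0 + (-36*b^2) * v1 + (-24*a*s) * v2 + (81*c*d) * v3) + (c) * ((-36*c*d - 36*b*d + 24*a*c + 12*a^2*c) * v0 + (-36*c^2 + 648*b*s + 108*b*c) * v1 + (-12*b*c + 24*a^2) * v2 + (72*b*d - 12*a*c) * v3) + (d + s^2) * ((36*c^2) * v0)) = (36*(b-c)^3) * v1 := by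
  linear_combination ((36*c*s) * v0 + (648*b) * v1) * hsc + ((-18*d) * v0 + (-108*b) * v1 + (12*c) * v2 + (9*d) * v3) * had

theorem kx_2 (a b c d s : A) (hsc : s*c = 0) (hsd : s*d = 0) (had : a*d = b*c) (v0 v1 v2 v3 : A) :
    ((b) * ((-36*c*d + 12*b*d) * v0 + (-24*d^2 - 324*c^2 + 12*b*c) * v1 + (108*c^2 - 108*b*c + 36*b^2) * v2 + (108*s^2 - 24*b*d + 36*a*b - 12*b*d^2) * v3) + (a) * ((-648*c + 648*s^2) * v1 + (-108*d - 36*b^2) * v3) + (d) * ((-54*c^2 + 36*b*c - 12*b^2) * v0 + (-216*s^2 + 24*b*d - 12*a*b) * v1 + (27*c^2 + 24*b^2 + 12*b^2*d) * v3) + (-c + s^2) * ((-54*c*d) * v0 + (-648*a - 324*b*c) * v1 + (36*c^2) * v2 + (-108*b + 27*c*d) * v3)) = (36*(b-c)^3) * v2 := by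
  linear_combination ((-54*d*s) * v0 + (-324*b*s) * v1 + (36*c*s) * v2 + (27*d*s) * v3) * hsc + ((-216*s) * v1) * hsd + ((-12*b) * v1 + (-108) * v3) * had

theorem kx_3 (a b c d s : A) (hsc : s*c = 0) (hsd : s*d = 0) (had : a*d = b*c) (v0 v1 v2 v3 : A) :
    ((-b) * ((-648*c + 648*s^2) * v1 + (-108*d - 36*b^2) * v3) + (-3*c) * ((-18*d^2 - 24*c^2 - 12*a*c^2) * v0 + (-108*b*d) * v1 + (12*c*d - 24*b*s - 24*a*c) * v2 + (9*d^2 + 12*c^2) * v3) + (2*a) * ((-54*c*d) * v0 + (-36*b^2) * v1 + (-24*a*s) * v2 + (81*c*d) * v3) + (a) * ((108*c*d) * v0 + (72*b^2) * v1 + (-72*c^2 + 24*a*s) * v2 + (-54*c*d - 108*b*d) * v3) + (s) * ((-36*c*d - 36*b*d + 24*a*c + 12*a^2*c) * v0 + (-36*c^2 + 648*b*s + 108*b*c) * v1 + (-12*b*c + 24*a^2) * v2 + (72*b*d - 12*a*c) * v3) + (-2*c - a*c) * ((36*c^2) * v0) + (d) * ((-54*c*d) *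 v0 + (-648*a - 324*b*c) * v1 + (36*c^2) * v2 + (-108*b + 27*c*d) * v3)) = (36*(b-c)^3) * v3 := by
  linear_combination ((-36*d + 24*a + 12*a^2) * v0 + (-36*c + 108*b) * v1 + (60*b) * v2 + (-12*a) * v3) * hsc + ((-36*b) * v0 + (72*b) * v3) * hsd + ((-648) * v1 + (108*c - 108*b) * v3) * had

theorem ky_0 (a b c d s : A) (hsc : s*c = 0) (hsd : s*d = 0) (had : a*d = b*c) (v0 v1 v2 v3 : A) :
    ((-2*b - b*d) * ((-24*c + 24*s^2) * v0 + (-24*c^2) * v1 + (84*d + 36*d^2 - 24*b*c + 12*a^2) * v2 + (-24*c + 24*s^2) * v3) + (-3*b) * ((-8*s^2) * v0 + (-24*c^2 + 9*c^2*d) * v1 + (-12*d^2 + 4*b*c) * v2 + (-8*s^2 - 12*c*d) * v3) + (a) * ((-12*b*c + 12*a^2) * v0 + (-36*c - 72*c*d + 3*c*d^2) * v1 + (24*a*b + 12*b^2*c) * v2 + (-12*b*c) * v3) + (d) * ((-12*d^2 + 60*b*c - 24*a^2) * v0 + (36*c*d - 18*c*d^2) * v1 + (48*b*d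 - 36*a*b + 36*b*d^2 - 24*b^2*c) * v2 + (24*d^2 - 12*b*c + 12*a^2) * v3) + (s) * ((24*b*s) * v0 + (-36*b*d) * v1 + (24*b*s) * v3) + (-c) * ((-36*a - 12*d^2) * v1) + (2*d) * ((-24*a - 24*b*c) * v0 + (-24*c*d - 24*a*c + 9*c*d^2) * v1 + (84*b + 36*b*d) * v2 + (-24*a - 12*d^2 - 24*b*c) * v3)) = (12*(a-d)^3) * v0 := by
  linear_combination ((-24*b*s) * v0 + (-36*b) * v1 + (-24*b*s) * v3) * hsd + ((-48 - 36*d + 12*a) * v0 + (-120*c + 3*c*d) * v1 + (-36*b - 12*a*b) * v2 + (-48 + 12*a) * v3) * had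

theorem ky_1 (a b c d s : A) (hsc : s*c = 0) (hsd : s*d = 0) (had : a*d = b*c) (v0 v1 v2 v3 : A) :
    ((a) * ((-12*b*d + 12*a*b) * v0 + (36*s^2 - 36*b*c + 12*a^2 + 3*d^3) * v1 + (24*b^2 + 12*b^2*d) * v2 + (-12*b*d) * v3) + (-b) * ((-12*b*c + 12*a^2) * v0 + (-36*c - 72*c*d + 3*c*d^2) * v1 + (24*a*b + 12*b^2*c) * v2 + (-12*b*c) * v3) + (c) * ((24*b*s) * v0 + (-36*b*d) * v1 + (24*b*s) * v3) + (d + s^2) * ((-36*a - 12*d^2) * v1)) = (12*(a-d)^3) * v1 := by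
  linear_combination ((24*b) * v0 + (24*b) * v3) * hsc + ((-12*d*s) * v1) * hsd + ((-12*b) * v0 + (-36 - 36*d + 36*a + 3*d^2) * v1 + (12*b^2) * v2 + (-12*b) * v3) * had

theorem ky_2 (a b c d s : A) (hsc : s*c = 0) (hsd : s*d = 0) (had : a*d = b*c) (v0 v1 v2 v3 : A) :
    ((b) * ((-24*c^2) * v0 + (-84*s^2 + 32*c*d - 12*a*c) * v2 + (-24*c^2) * v3) + (a) * ((-24*c + 24*s^2) * v0 + (-24*c^2) * v1 + (84*d + 36*d^2 - 24*b*c + 12*a^2) * v2 + (-24*c + 24*s^2) * v3) + (d) * ((-8*s^2) * v0 + (-24*c^2 + 9*c^2*d) * v1 + (-12*d^2 + 4*b*c) * v2 + (-8*s^2 - 12*c*d) * v3) + (-c + s^2) * ((-24*a - 24*b*c) * v0 + (-24*c*d - 24*a*c + 9*c*d^2) * v1 + (84*b + 36*b*d) * v2 + (-24*a - 12*d^2 - 24*b*c) * v3)) = (12*(a-d)^3) * v2 := by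
  linear_combination ((-24*b*s) * v0 + (-24*d*s - 24*a*s + 9*d^2*s) * v1 + (-24*b*s) * v3) * hsc + ((-8*s) * v0 + (36*b*s) * v2 + (-8*s - 12*d*s) * v3) * hsd + ((84 + 36*a) * v2) * had

theorem ky_3 (a b c d s : A) (hsc : s*c = 0) (hsd : s*d = 0) (had : a*d = b*c) (v0 v1 v2 v3 : A) :
    ((-b) * ((-24*c + 24*s^2) * v0 + (-24*c^2) * v1 + (84*d + 36*d^2 - 24*b*c + 12*a^2) * v2 + (-24*c + 24*s^2) * v3) + (-3*c) * ((-12*b*d + 12*a*b) * v0 + (36*s^2 - 36*b*c + 12*a^2 + 3*d^3) * v1 + (24*b^2 + 12*b^2*d) * v2 + (-12*b*d) * v3) + (2*a) * ((-12*b*c + 12*a^2) * v0 + (-36*c - 72*c*d + 3*c*d^2) * v1 + (24*a*b + 12*b^2*c) * v2 + (-12*b*c) * v3) + (a) * ((-12*d^2 + 60*b*c - 24*a^2) * v0 + (36*c*d - 18*c*d^2) * v1 + (48*b*d - 36*a*b + 36*b*d^2 - 24*b^2*c) * v2 + (24*d^2 - 12*b*c + 12*a^2) * v3) + (s) * ((24*b*s)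 * v0 + (-36*b*d) * v1 + (24*b*s) * v3) + (-2*c - a*c) * ((-36*a - 12*d^2) * v1) + (d) * ((-24*a - 24*b*c) * v0 + (-24*c*d - 24*a*c + 9*c*d^2) * v1 + (84*b + 36*b*d) * v2 + (-24*a - 12*d^2 - 24*b*c) * v3)) = (12*(a-d)^3) * v3 := by
  linear_combination ((-108*s) * v1) * hsc + ((-36*b) * v1) * hsd + ((-24 - 12*d) * v0 + (-132*c) * v1 + (48*b + 36*b*d) * v2 + (-24 - 12*d + 36*a) * v3) * had

theorem kc_0 (a b c d s : A) (hsc : s*c = 0) (hsd : s*d = 0) (had : a*d = b*c) (v0 v1 v2 v3 : A) :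
    ((-2*b - b*d) * (0) + (-3*b) * (0) + (a) * ((2*a*s) * v2) + (d) * ((6*c^2 - 2*a*s) * v2) + (s) * ((3*c*d - 2*a*c - a^2*c) * v0 + (3*c^2) * v1 + (b*c - 2*a^2) * v2 + (a*c) * v3) + (-c) * ((-3*c^2) * v0) + (2*d) * ((-3*c^2) * v2)) = (3*c^3) * v0 := by
  linear_combination ((3*d - 2*a - a^2) * v0 + (3*c) * v1 + (b) * v2 + (a) * v3) * hsc + ((-2*a) * v2) * hsd

theorem kc_1 (a b c d s : A) (hsc : s*c = 0) (hsd : s*d = 0) (had : a*d = b*c) (v0 v1 v2 v3 : A) :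
    ((a) * ((2*c^2 + a*c^2) * v0 + (-c*d + 2*b*s + 2*a*c) * v2 + (-c^2) * v3) + (-b) * ((2*a*s) * v2) + (c) * ((3*c*d - 2*a*c - a^2*c) * v0 + (3*c^2) * v1 + (b*c - 2*a^2) * v2 + (a*c) * v3) + (d + s^2) * ((-3*c^2) * v0)) = (3*c^3) * v1 := by
  linear_combination ((-3*c*s) * v0) * hsc + ((-c) * v2) * had

theorem kc_2 (a b c d s : A) (hsc : s*c = 0) (hsd : s*d = 0) (had : a*d = b*c) (v0 v1 v2 v3 : A) :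
    ((b) * (0) + (a) * (0) + (d) * (0) + (-c + s^2) * ((-3*c^2) * v2)) = (3*c^3) * v2 := by
  linear_combination ((-3*c*s) * v2) * hsc

theorem kc_3 (a b c d s : A) (hsc : s*c = 0) (hsd : s*d = 0) (had : a*d = b*c) (v0 v1 v2 v3 : A) :
    ((-b) * (0) + (-3*c) * ((2*c^2 + a*c^2) * v0 + (-c*d + 2*b*s + 2*a*c) * v2 + (-c^2) * v3) + (2*a) * ((2*a*s) * v2) + (a) * ((6*c^2 - 2*a*s) * v2) + (s) * ((3*c*d - 2*a*c - a^2*c) * v0 + (3*c^2) * v1 + (b*c - 2*a^2) * v2 + (a*c) * v3) + (-2*c - a*c) * ((-3*c^2) * v0) + (d) * ((-3*c^2) * v2)) = (3*c^3) * v3 := by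
  linear_combination ((3*d - 2*a - a^2) * v0 + (3*c) * v1 + (-5*b) * v2 + (a) * v3) * hsc

end Pool.Agent.H950R2.PS
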