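import Pool.Agent.H950R2.PS.Mats
set_option autoImplicit false
set_option linter.unusedVariables false
set_option linter.unusedSectionVars false
/-! Generated matrix identities. -/
namespace Pool.Agent.H950R2.PS
variable {A : Type} [CommRing A]

theorem id1_0 (a b c d s : A) (hsc : s*c = 0) (hsd : s*d = 0) (had : a*d = b*c) (v0 v1 v2 v3 v4 v5 v6 v7 v8 : A) :
    ((-4*c*d + 8*a*c - 3*c*d^2) * ((8*s) * v0 + (12*b) * v2 + (36*c) * v7 + (12*d) * v8) + (-d^2 + 2*b*c - 3*a^2 + b*c*d) * ((36*s) * v2 + (24*b) * v4 + (-36*c + 12*b) * v5 + (-24*c) * v6 + (24*s - 24*d) * v7 + (-48*c - 12*b*d) * v8) + (6*c^2 - 6*a*s) * ((-6*c) * v0 + (-6*d^2 + 4*c^2) * v1 + (36*d - 18*a) * v2 + (-18*d + 12*c^2) * v3 + (36*s - 4*c^3) * v4 + (-12*c) * v5 + (-12*s - 18*c + 6*b) * v6 + (24*d - 12*a + 6*d^2 + 12*c^2 + 6*b*s) * v7 + (-24*s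 - 6*c) * v8) + (-8*c^2) * ((9*c^2) * v3 + (-3*c^3) * v4 + (-9*c) * v5 + (9*c^2 + 3*b^2) * v7 + (-18*c) * v8) + (8*c^2) * ((-9*d - 3*c^2) * v1 + (-27*d + 54*a) * v2 + (-36*b) * v4 + (54*c - 6*b) * v6 + (18*d + 54*s^2 + 3*b^2) * v7 + (-12*b) * v8) + (-3*s^2 + 2*c*d - 3*a*c + c*d^2) * ((36*c - 36*b) * v1 + (36*a) * v5 + (36*s + 24*a) * v6 + (72*c - 12*a*b) * v7 + (36*d + 48*a + 12*b^2) * v8)) + ((-36*c*d + 12*b*d) * ((-2*b - b*d) * v1 + (-3*b) * v3 + (a) * v4 + (d) * v5 + (s) * v6 + (-c) * v7 + (2*d) * v8) + (-24*d^2 - 324*c^2 + 12*b*c) * ((a) * v2 + (-b) * v4 + (c) * v6 + (d + s^2) * v7) + (108*c^2 - 108*b*c + 36*b^2) * ((b) * v0 + (a) * v1 + (d) * v3 + (-c + s^2) * v8) + (108*s^2 - 24*b*d + 36*a*b - 12*b*d^2) * ((-b) * v1 + (-3*c) * v2 + (2*a) * v4 + (a) * v5 + (s) * v6 + (-2*c - a*c) * v7 + (d) * v8))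 = (36*(b-c)^3) * v0 := by
  linear_combination ((-32*d + 100*a - 24*d^2) * v0 + (-108*s - 24*a*c) * v1 + (-324*s + 72*b + 36*b*d) * v2 + (-72*a*c) * v3 + (216*c + 24*a*c^2) * v4 + (72*a) * v5 + (36*d - 72*c + 36*d^2) * v6 + (-432*s + 48*b + 108*c*s + 12*b*s + 24*b*d + 36*b*c - 108*a*s - 72*a*c) * v7 + (-144*c + 36*a + 108*c*s - 108*b*s) * v8) * hsc + ((36*a*d) * v1 + (-36*d - 216*a) * v2 + (108*a) * v3 + (-12*b - 12*b*d) * v6 + (-24*d - 144*a - 24*d*s - 36*a*d) * v7) * hsd + ((-24*d) * v2 + (-36*c - 36*b - 24*b*d) * v4 + (72*c - 24*b + 36*c*d - 12*b*d) * v5 + (48*c + 24*c*d) * v6 + (72*a) * v7 + (84*c + 36*b + 48*c*d + 36*a*b) * v8) * had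

theorem id1_1 (a b c d s : A) (hsc : s*c = 0) (hsd : s*d = 0) (had : a*d = b*c) (v0 v1 v2 v3 v4 v5 v6 v7 v8 : A) :
    ((-9*b*c) * ((8*s) * v0 + (12*b) * v2 + (36*c) * v7 + (12*d) * v8) + (3*a*b) * ((36*s) * v2 + (24*b) * v4 + (-36*c + 12*b) * v5 + (-24*c) * v6 + (24*s - 24*d) * v7 + (-48*c - 12*b*d) * v8) + (6*b*s) * ((-6*c) * v0 + (-6*d^2 + 4*c^2) * v1 + (36*d - 18*a) * v2 + (-18*d + 12*c^2) * v3 + (36*s - 4*c^3) * v4 + (-12*c) * v5 + (-12*s - 18*c + 6*b) * v6 + (24*d - 12*a + 6*d^2 + 12*c^2 + 6*b*s) * v7 + (-24*s - 6*c) * v8) + (12*c - 12*s^2) * ((-9*d - 3*c^2) * v1 + (-27*d + 54*a) * v2 + (-36*b) * v4 + (54*c - 6*b) * v6 + (18*d + 54*s^2 + 3*b^2) * v7 + (-12*b) * v8) + (3*d + 3*b*c) * ((36*c - 36*b) * v1 + (36*a) * v5 + (36*s + 24*a) * v6 + (72*c - 12*a*b) * v7 + (36*d + 48*a + 12*b^2) * v8)) +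 ((-648*c + 648*s^2) * ((a) * v2 + (-b) * v4 + (c) * v6 + (d + s^2) * v7) + (-108*d - 36*b^2) * ((-b) * v1 + (-3*c) * v2 + (2*a) * v4 + (a) * v5 + (s) * v6 + (-2*c - a*c) * v7 + (d) * v8)) = (36*(b-c)^3) * v1 := by
  linear_combination ((-108*b) * v0 + (36*c*s + 24*b*c) * v1 + (72*b*c) * v3 + (-24*b*c^2) * v4 + (-72*b) * v5 + (72*b*c) * v7 + (-36*b) * v8) * hsc + ((108*s - 36*b*d) * v1 + (324*s + 216*b) * v2 + (-108*b) * v3 + (432*s + 144*b + 36*b*d) * v7) * hsd + ((-216) * v4 + (72) * v6 + (108*c - 108*b) * v7 + (144 - 36*b^2) * v8) * had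

theorem id1_2 (a b c d s : A) (hsc : s*c = 0) (hsd : s*d = 0) (had : a*d = b*c) (v0 v1 v2 v3 v4 v5 v6 v7 v8 : A) :
    ((3*b^2) * ((8*s) * v0 + (12*b) * v2 + (36*c) * v7 + (12*d) * v8) + (8*c*d - 4*b*s - 4*a*c - c*d^2) * ((-6*a - 3*b*c) * v1 + (-3*a*c) * v4 + (3*c) * v5 + (6*c - 6*s^2) * v8) + (-3*d^2 - 12*b*c) * ((-2*a) * v0 + (3*a*c + b*c^2) * v1 + (-9*c + 9*b) * v2 + (4*c + 3*a*c) * v3 + (-2*c^2) * v4 + (-c^2) * v5 + (6*b + 3*b*s) * v7 + (3*d - 2*c^2) * v8) + (3*b*d) * ((-6*c) * v0 + (-6*d^2 + 4*c^2) * v1 + (36*d - 18*a) * v2 + (-18*d + 12*c^2) * v3 + (36*s - 4*c^3) * v4 + (-12*c) * v5 + (-12*s - 18*c + 6*b) * v6 + (24*d - 12*a + 6*d^2 + 12*c^2 + 6*b*s) * v7 + (-24*s - 6*c) * v8) + (-6*s^2 + d^2) * ((-6*c^2) * v4 + (18*d) * v5 + (-18*b*d) * v7 + (36*d) * v8) + (-3*b*d) * ((9*c^2) * v3 + (-3*c^3)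 * v4 + (-9*c) * v5 + (9*c^2 + 3*b^2) * v7 + (-18*c) * v8) + (3*b*d) * ((-9*d - 3*c^2) * v1 + (-27*d + 54*a) * v2 + (-36*b) * v4 + (54*c - 6*b) * v6 + (18*d + 54*s^2 + 3*b^2) * v7 + (-12*b) * v8)) + ((-18*d^2 - 24*c^2 - 12*a*c^2) * ((-2*b - b*d) * v1 + (-3*b) * v3 + (a) * v4 + (d) * v5 + (s) * v6 + (-c) * v7 + (2*d) * v8) + (-108*b*d) * ((a) * v2 + (-b) * v4 + (c) * v6 + (d + s^2) * v7) + (12*c*d - 24*b*s - 24*a*c) * ((b) * v0 + (a) * v1 + (d) * v3 + (-c + s^2) * v8) + (9*d^2 + 12*c^2) * ((-b) * v1 + (-3*c) * v2 + (2*a) * v4 + (a) * v5 + (s) * v6 + (-2*c - a*c) * v7 + (d) * v8)) = (36*(b-c)^3) * v2 := by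
  linear_combination ((12*b^2) * v1 + (36*c*s + 12*a*b) * v4 + (-12*b) * v5 + (-12*c - 12*a*c) * v6 + (-36*b^2) * v7 + (-36*d*s + 6*d^2*s) * v8) * hsc + ((-24*b) * v3 + (108*b) * v4 + (-108*s) * v5 + (-9*d - 36*b) * v6 + (162*b*s - 9*b*d + 18*b^2) * v7 + (-216*s - 72*b) * v8) * hsd + ((6*d) * v0 + (-36*c - 3*c*d + 12*b*c^2) * v1 + (-24*c - 9*c*d) * v3 + (-24*c^2 + 3*c^2*d) * v4 + (9*d - 12*c^2) * v5 + (-36*b - 9*c*d) * v7 + (-24*c^2) * v8) * had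

theorem id1_3 (a b c d s : A) (hsc : s*c = 0) (hsd : s*d = 0) (had : a*d = b*c) (v0 v1 v2 v3 v4 v5 v6 v7 v8 : A) :
    ((4*b*c + a^2 + 3*b*c*d) * ((8*s) * v0 + (12*b) * v2 + (36*c) * v7 + (12*d) * v8) + (b*d - 2*a*b - b^2*c) * ((36*s) * v2 + (24*b) * v4 + (-36*c + 12*b) * v5 + (-24*c) * v6 + (24*s - 24*d) * v7 + (-48*c - 12*b*d) * v8) + (-3*c^3) * ((-6*a - 3*b*c) * v1 + (-3*a*c) * v4 + (3*c) * v5 + (6*c - 6*s^2) * v8) + (-9*c^2 + 4*a*s) * ((-2*a) * v0 + (3*a*c + b*c^2) * v1 + (-9*c + 9*b) * v2 + (4*c + 3*a*c) * v3 + (-2*c^2) * v4 + (-c^2) * v5 + (6*b + 3*b*s) * v7 + (3*d - 2*c^2) * v8) + (-2*b*s + 3*a*c) * ((-6*c) * v0 + (-6*d^2 + 4*c^2) * v1 + (36*d - 18*a) * v2 + (-18*d + 12*c^2) * v3 + (36*s - 4*c^3) * v4 + (-12*c) * v5 + (-12*s - 18*c + 6*b) * v6 + (24*d - 12*a + 6*d^2 + 12*c^2 + 6*b*s) * v7 + (-24*s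 - 6*c) * v8) + (3*c^2) * ((-6*c^2) * v4 + (18*d) * v5 + (-18*b*d) * v7 + (36*d) * v8) + (-a*c) * ((9*c^2) * v3 + (-3*c^3) * v4 + (-9*c) * v5 + (9*c^2 + 3*b^2) * v7 + (-18*c) * v8) + (4*s^2 + a*c) * ((-9*d - 3*c^2) * v1 + (-27*d + 54*a) * v2 + (-36*b) * v4 + (54*c - 6*b) * v6 + (18*d + 54*s^2 + 3*b^2) * v7 + (-12*b) * v8) + (-2*b*c - b*c*d) * ((36*c - 36*b) * v1 + (36*a) * v5 + (36*s + 24*a) * v6 + (72*c - 12*a*b) * v7 + (36*d + 48*a + 12*b^2) * v8)) + ((-54*c^2 + 36*b*c - 12*b^2) * ((-2*b - b*d) * v1 + (-3*b) * v3 + (a) * v4 + (d) * v5 + (s) * v6 + (-c) * v7 + (2*d) * v8) + (-216*s^2 + 24*b*d - 12*a*b) * ((a) * v2 + (-b) * v4 + (c) * v6 + (d + s^2) * v7) + (27*c^2 + 24*b^2 + 12*b^2*d) * ((-b) * v1 + (-3*c) * v2 + (2*a) * v4 + (a) * v5 + (s) * v6 + (-2*c - a*c) * v7 + (d) * v8)) = (36*(b-c)^3) * v3 :=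 by
  linear_combination ((44*b + 24*b*d) * v0 + (-12*c*s - 8*b*c + 12*a^2 + 4*a*b*c) * v1 + (-36*a - 36*b^2) * v2 + (16*a - 24*b*c + 12*a^2) * v3 + (108*a - 8*a*c + 8*b*c^2) * v4 + (24*b - 4*a*c) * v5 + (-27*c - 36*a - 36*b*d) * v6 + (-51*b*c - 24*b^2 + 54*a*s + 18*a*b) * v7 + (12*b - 72*a - 8*a*c + 18*c^2*s) * v8) * hsc + ((-36*s + 12*b*d) * v1 + (-108*s - 36*b) * v2 + (36*b) * v3 + (12*b^2) * v6 + (-144*s - 24*b + 24*b*s - 12*b*d) * v7 + (12*a) * v8) * hsd + ((-9*c - 18*c*d) * v1 + (81*c + 24*b) * v2 + (-54*c) * v3 + (24*b^2) * v4 + (-36*b*c + 12*b^2) * v5 + (-24*b*c) * v6 + (90*c + 36*b + 18*c*d) * v7 + (12*a - 48*b*c + 24*b^2) * v8) * had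

theorem id1_4 (a b c d s : A) (hsc : s*c = 0) (hsd : s*d = 0) (had : a*d = b*c) (v0 v1 v2 v3 v4 v5 v6 v7 v8 : A) :
    ((3*a*b) * ((8*s) * v0 + (12*b) * v2 + (36*c) * v7 + (12*d) * v8) + (-4*a*s - 9*c^2*d) * ((-6*a - 3*b*c) * v1 + (-3*a*c) * v4 + (3*c) * v5 + (6*c - 6*s^2) * v8) + (-27*c*d) * ((-2*a) * v0 + (3*a*c + b*c^2) * v1 + (-9*c + 9*b) * v2 + (4*c + 3*a*c) * v3 + (-2*c^2) * v4 + (-c^2) * v5 + (6*b + 3*b*s) * v7 + (3*d - 2*c^2) * v8) + (9*b*c) * ((-6*c) * v0 + (-6*d^2 + 4*c^2) * v1 + (36*d - 18*a) * v2 + (-18*d + 12*c^2) * v3 + (36*s - 4*c^3) * v4 + (-12*c) * v5 + (-12*s - 18*c + 6*b) * v6 + (24*d - 12*a + 6*d^2 + 12*c^2 + 6*b*s) * v7 + (-24*s - 6*c) * v8) + (6*c + 3*c*d) * ((-6*c^2) * v4 + (18*d) * v5 + (-18*b*d) * v7 + (36*d) * v8) + (12*d + 12*s^2 - 3*b*c) * ((9*c^2) * v3 + (-3*c^3) * v4 +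 (-9*c) * v5 + (9*c^2 + 3*b^2) * v7 + (-18*c) * v8) + (3*b*c) * ((-9*d - 3*c^2) * v1 + (-27*d + 54*a) * v2 + (-36*b) * v4 + (54*c - 6*b) * v6 + (18*d + 54*s^2 + 3*b^2) * v7 + (-12*b) * v8)) + ((-54*c*d) * ((-2*b - b*d) * v1 + (-3*b) * v3 + (a) * v4 + (d) * v5 + (s) * v6 + (-c) * v7 + (2*d) * v8) + (-36*b^2) * ((a) * v2 + (-b) * v4 + (c) * v6 + (d + s^2) * v7) + (-24*a*s) * ((b) * v0 + (a) * v1 + (d) * v3 + (-c + s^2) * v8) + (81*c*d) * ((-b) * v1 + (-3*c) * v2 + (2*a) * v4 + (a) * v5 + (s) * v6 + (-2*c - a*c) * v7 + (d) * v8)) = (36*(b-c)^3) * v4 := by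
  linear_combination ((12*a*b) * v1 + (108*c*s) * v3 + (324*b + 12*a^2 - 36*c^2*s) * v4 + (-108*s - 12*a) * v5 + (27*d - 108*b) * v6 + (108*c*s + 162*b*s - 81*b*d + 54*b^2) * v7 + (-216*s - 216*b + 54*c*d*s) * v8) * hsc + ((-24*a) * v3) * hsd + ((54*c) * v0 + (-27*c^2) * v1 + (-81*c^2) * v3 + (108*c + 27*c^3) * v4 + (81*c) * v5 + (-81*c^2) * v7 + (36*b) * v8) * had

theorem id1_5 (a b c d s : A) (hsc : s*c = 0) (hsd : s*d = 0) (had : a*d = b*c) (v0 v1 v2 v3 v4 v5 v6 v7 v8 : A) :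
    ((-6*a*b) * ((8*s) * v0 + (12*b) * v2 + (36*c) * v7 + (12*d) * v8) + (3*b^2) * ((36*s) * v2 + (24*b) * v4 + (-36*c + 12*b) * v5 + (-24*c) * v6 + (24*s - 24*d) * v7 + (-48*c - 12*b*d) * v8) + (-12*c^2 + 4*a*s + 6*c^2*d) * ((-6*a - 3*b*c) * v1 + (-3*a*c) * v4 + (3*c) * v5 + (6*c - 6*s^2) * v8) + (18*c*d - 12*b*s) * ((-2*a) * v0 + (3*a*c + b*c^2) * v1 + (-9*c + 9*b) * v2 + (4*c + 3*a*c) * v3 + (-2*c^2) * v4 + (-c^2) * v5 + (6*b + 3*b*s) * v7 + (3*d - 2*c^2) * v8) + (-18*b*c) * ((-6*c) * v0 + (-6*d^2 + 4*c^2) * v1 + (36*d - 18*a) * v2 + (-18*d + 12*c^2) * v3 + (36*s - 4*c^3) * v4 + (-12*c) * v5 + (-12*s - 18*c + 6*b) * v6 + (24*d - 12*a + 6*d^2 + 12*c^2 + 6*b*s) * v7 + (-24*s - 6*c) * v8) + (-6*c*d + 6*a*c) * ((-6*c^2) * v4 + (18*d) * v5 + (-18*b*d) * v7 + (36*d) * v8) + (-12*s^2 + 18*b*c) * ((9*c^2)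 * v3 + (-3*c^3) * v4 + (-9*c) * v5 + (9*c^2 + 3*b^2) * v7 + (-18*c) * v8) + (-6*b*c) * ((-9*d - 3*c^2) * v1 + (-27*d + 54*a) * v2 + (-36*b) * v4 + (54*c - 6*b) * v6 + (18*d + 54*s^2 + 3*b^2) * v7 + (-12*b) * v8) + (3*b*d) * ((36*c - 36*b) * v1 + (36*a) * v5 + (36*s + 24*a) * v6 + (72*c - 12*a*b) * v7 + (36*d + 48*a + 12*b^2) * v8)) + ((108*c*d) * ((-2*b - b*d) * v1 + (-3*b) * v3 + (a) * v4 + (d) * v5 + (s) * v6 + (-c) * v7 + (2*d) * v8) + (72*b^2) * ((a) * v2 + (-b) * v4 + (c) * v6 + (d + s^2) * v7) + (-72*c^2 + 24*a*s) * ((b) * v0 + (a) * v1 + (d) * v3 + (-c + s^2) * v8) + (-54*c*d - 108*b*d) * ((-b) * v1 + (-3*c) * v2 + (2*a) * v4 + (a) * v5 + (s) * v6 + (-2*c - a*c) * v7 + (d) * v8)) = (36*(b-c)^3) * v5 := by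
  linear_combination ((-48*a*b - 12*b^2*c) * v1 + (108*b) * v2 + (-48*b - 108*c*s - 36*a*b) * v3 + (-648*b + 24*b*c - 12*a^2 + 36*c^2*s) * v4 + (108*s + 12*a + 12*b*c) * v5 + (54*d + 216*b) * v6 + (-108*c*s - 324*b*s + 54*b*d - 108*b^2) * v7 + (216*s + 432*b + 24*b*c - 36*c*d*s) * v8) * hsc + ((24*a) * v3 + (-36*b) * v8) * hsd + ((-36*c) * v0 + (18*c^2) * v1 + (54*c^2) * v3 + (-216*b - 18*c^3) * v4 + (54*c) * v5 + (72*b) * v6 + (54*c^2 - 36*b^2) * v7 + (216*c + 72*b) * v8) * had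

theorem id1_6 (a b c d s : A) (hsc : s*c = 0) (hsd : s*d = 0) (had : a*d = b*c) (v0 v1 v2 v3 v4 v5 v6 v7 v8 : A) :
    ((12*d^2 - 8*b*c + 4*a^2 - 8*b*c*d) * ((-6*a - 3*b*c) * v1 + (-3*a*c) * v4 + (3*c) * v5 + (6*c - 6*s^2) * v8) + (-24*b*d + 12*a*b) * ((-2*a) * v0 + (3*a*c + b*c^2) * v1 + (-9*c + 9*b) * v2 + (4*c + 3*a*c) * v3 + (-2*c^2) * v4 + (-c^2) * v5 + (6*b + 3*b*s) * v7 + (3*d - 2*c^2) * v8) + (6*b^2) * ((-6*c) * v0 + (-6*d^2 + 4*c^2) * v1 + (36*d - 18*a) * v2 + (-18*d + 12*c^2) * v3 + (36*s - 4*c^3) * v4 + (-12*c) * v5 + (-12*s - 18*c + 6*b) * v6 + (24*d - 12*a + 6*d^2 + 12*c^2 + 6*b*s) * v7 + (-24*s - 6*c) * v8) + (2*b*d) * ((-6*c^2) * v4 + (18*d) * v5 + (-18*b*d) * v7 + (36*d) * v8) + (-12*a*s) * ((9*c^2) * v3 + (-3*c^3) * v4 + (-9*c) * v5 + (9*c^2 + 3*b^2) * v7 + (-18*c) * v8) + (-12*b*s)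 * ((-9*d - 3*c^2) * v1 + (-27*d + 54*a) * v2 + (-36*b) * v4 + (54*c - 6*b) * v6 + (18*d + 54*s^2 + 3*b^2) * v7 + (-12*b) * v8)) + ((-36*c*d - 36*b*d + 24*a*c + 12*a^2*c) * ((-2*b - b*d) * v1 + (-3*b) * v3 + (a) * v4 + (d) * v5 + (s) * v6 + (-c) * v7 + (2*d) * v8) + (-36*c^2 + 648*b*s + 108*b*c) * ((a) * v2 + (-b) * v4 + (c) * v6 + (d + s^2) * v7) + (-12*b*c + 24*a^2) * ((b) * v0 + (a) * v1 + (d) * v3 + (-c + s^2) * v8) + (72*b*d - 12*a*c) * ((-b) * v1 + (-3*c) * v2 + (2*a) * v4 + (a) * v5 + (s) * v6 + (-2*c - a*c) * v7 + (d) * v8)) = (36*(b-c)^3) * v6 := by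
  linear_combination ((36*b*c) * v1 + (-108*a*c) * v3 + (36*a*c^2) * v4 + (108*a) * v5 + (-36*d + 12*a + 12*a^2) * v6 + (-36*c*s + 108*b*s - 108*a*c) * v7 + (216*a + 36*b*s + 48*b*d*s) * v8) * hsc + ((108*b) * v1 + (324*b) * v2 + (36*b) * v6 + (432*b - 72*b^2) * v7 + (-72*d*s) * v8) * hsd + ((48*b) * v0 + (-72*d - 48*b*c - 12*a*b*c) * v1 + (24*a - 72*b*c) * v3 + (-36*c + 108*b - 36*c*d + 24*b*c^2) * v4 + (24*c + 72*b + 12*a*c) * v5 + (-72*b*c) * v7 + (36*c + 36*b + 24*a*c) * v8) * had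

theorem id1_7 (a b c d s : A) (hsc : s*c = 0) (hsd : s*d = 0) (had : a*d = b*c) (v0 v1 v2 v3 v4 v5 v6 v7 v8 : A) :
    ((-12*c*d) * ((-6*a - 3*b*c) * v1 + (-3*a*c) * v4 + (3*c) * v5 + (6*c - 6*s^2) * v8) + (6*a) * ((-6*c^2) * v4 + (18*d) * v5 + (-18*b*d) * v7 + (36*d) * v8) + (12*b) * ((9*c^2) * v3 + (-3*c^3) * v4 + (-9*c) * v5 + (9*c^2 + 3*b^2) * v7 + (-18*c) * v8)) + ((36*c^2) * ((-2*b - b*d) * v1 + (-3*b) * v3 + (a) * v4 + (d) * v5 + (s) * v6 + (-c) * v7 + (2*d) * v8)) = (36*(b-c)^3) * v7 := by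
  linear_combination ((36*c) * v6 + (72*d*s) * v8) * hsc + ((72*c) * v1 + (36*c^2) * v4 + (108) * v5 + (-108*b) * v7 + (216) * v8) * had

theorem id1_8 (a b c d s : A) (hsc : s*c = 0) (hsd : s*d = 0) (had : a*d = b*c) (v0 v1 v2 v3 v4 v5 v6 v7 v8 : A) :
    ((-3*c^2*d) * ((-6*a - 3*b*c) * v1 + (-3*a*c) * v4 + (3*c) * v5 + (6*c - 6*s^2) * v8) + (-9*c*d) * ((-2*a) * v0 + (3*a*c + b*c^2) * v1 + (-9*c + 9*b) * v2 + (4*c + 3*a*c) * v3 + (-2*c^2) * v4 + (-c^2) * v5 + (6*b + 3*b*s) * v7 + (3*d - 2*c^2) * v8) + (9*b*c) * ((-6*c) * v0 + (-6*d^2 + 4*c^2) * v1 + (36*d - 18*a) * v2 + (-18*d + 12*c^2) * v3 + (36*s - 4*c^3) * v4 + (-12*c) * v5 + (-12*s - 18*c + 6*b) * v6 + (24*d - 12*a + 6*d^2 + 12*c^2 + 6*b*s) * v7 + (-24*s - 6*c) * v8) + (3*c*d) * ((-6*c^2) * v4 + (18*d) * v5 + (-18*b*d) * v7 + (36*d) * v8) + (-9*b*c)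 * ((9*c^2) * v3 + (-3*c^3) * v4 + (-9*c) * v5 + (9*c^2 + 3*b^2) * v7 + (-18*c) * v8) + (12*a + 9*b*c) * ((-9*d - 3*c^2) * v1 + (-27*d + 54*a) * v2 + (-36*b) * v4 + (54*c - 6*b) * v6 + (18*d + 54*s^2 + 3*b^2) * v7 + (-12*b) * v8) + (3*b) * ((36*c - 36*b) * v1 + (36*a) * v5 + (36*s + 24*a) * v6 + (72*c - 12*a*b) * v7 + (36*d + 48*a + 12*b^2) * v8)) + ((-54*c*d) * ((-2*b - b*d) * v1 + (-3*b) * v3 + (a) * v4 + (d) * v5 + (s) * v6 + (-c) * v7 + (2*d) * v8) + (-648*a - 324*b*c) * ((a) * v2 + (-b) * v4 + (c) * v6 + (d + s^2) * v7) + (36*c^2) * ((b) * v0 + (a) * v1 + (d) * v3 + (-c + s^2) * v8) + (-108*b + 27*c*d) * ((-b) * v1 + (-3*c) * v2 + (2*a) * v4 + (a) * v5 + (s) * v6 + (-2*c - a*c) * v7 + (d) * v8)) = (36*(b-c)^3) * v8 := by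
  linear_combination ((324*b) * v4 + (-27*d - 108*b) * v6 + (162*b*s - 27*b*d + 54*b^2) * v7 + (-216*b + 36*c*s + 18*c*d*s) * v8) * hsc + ((18*c) * v0 + (-108 - 9*c^2) * v1 + (-324) * v2 + (-27*c^2) * v3 + (9*c^3) * v4 + (27*c) * v5 + (-432 - 27*c^2) * v7) * had

theorem id5_0 (a b c d s : A) (hsc : s*c = 0) (hsd : s*d = 0) (had : a*d = b*c) (v0 v1 v2 v3 : A) :
    ((144*b^2 + 108*b^2*d) * ((4*s) * v0 + (24*c + 12*c*d) * v1 + (-24*c - 36*c*d) * v2 + (-d) * v3) + (-2880*c*d - 192*b*s - 576*a*c - 2592*c*d^2 + 720*b*c^2 - 324*c*d^3 + 864*b*c^2*d) * ((3*b) * v0 + (-72*s) * v2) + (-1296*d^2 + 3456*b*c - 1728*a^2 - 972*d^3 + 2592*b*c*d - 1296*a*b*c) * ((2*d - a) * v0 + (4*b + 3*b*d) * v1 + (-9*b*d) * v2) + (432*b*d - 864*a*b + 324*b*d^2 - 648*b^2*c) * ((-4*c + 4*c*d) * v0 + (16*d - 8*a + 12*d^2 - 6*b*c) *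 v1 + (-16*d - 36*d^2 + 18*b*c) * v2 + (2*s) * v3) + (1440*a - 288*s^2 + 144*d^2 + 792*b*c + 108*d^3 - 216*b*c*d) * ((6*d) * v0 + (48*b) * v2) + (2880*b + 2016*b*d - 108*b*d^2) * ((-3*c + 3*c*d) * v0 + (-24*a) * v2) + (144*b*d + 108*b*d^2) * ((-12*d - 9*d^2 + 6*b*c) * v1 + (27*d^2 - 18*b*c) * v2 + (b) * v3) + (-432*b*s) * ((48*c + 36*c*d) * v1 + (-108*c*d) * v2 + (-4*a - 3*b*c) * v3)) = (432*(4+3*d)*(a-d)^3) * v0 := by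
  linear_combination ((-20736*b - 15552*b*d) * v1 + (207360*d + 41472*a + 186624*d^2 + 46656*b*d - 51840*b*c + 23328*d^3 - 62208*b*c*d) * v2) * hsc + ((-1728*s + 432*b^2) * v0 + (864*b + 648*b*d) * v3) * hsd + ((8640 - 3888*d + 1728*a - 2916*d^2 - 4752*b*c + 3888*a*d - 1296*a^2) * v0 + (-17280*b - 12960*b*d - 5184*a*b - 3888*b^2*c) * v1 + (-34560*b + 33696*b*d + 15552*a*b + 11664*b^2*c) * v2) * had

theorem id5_1 (a b c d s : A) (hsc : s*c = 0) (hsd : s*d = 0) (had : a*d = b*c) (v0 v1 v2 v3 : A) :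
    ((144*b*d - 108*a*b + 324*b*d^2 - 108*b^2*c) * ((4*s) * v0 + (24*c + 12*c*d) * v1 + (-24*c - 36*c*d) * v2 + (-d) * v3) + (36*b^2) * ((16*s) * v1 + (4*c + 3*c*d) * v3) + (-432*c^2 + 96*a*s - 936*c^2*d + 432*a*c^2 - 909*c^2*d^2 + 324*b*c^3 - 216*c^2*d^3) * ((3*b) * v0 + (-72*s) * v2) + (-972*c*d - 144*b*s + 864*a*c - 2079*c*d^2 + 1080*b*c^2 - 648*c*d^3 + 324*b*c^2*d) * ((2*d - a) * v0 + (4*b + 3*b*d) * v1 + (-9*b*d) * v2) + (-324*b*c - 216*a^2 + 243*d^3 - 108*b*c*d - 162*a*b*c + 162*b*c*d^2) * ((-4*c + 4*c*d) * v0 + (16*d - 8*a + 12*d^2 - 6*b*c) * v1 + (-16*d - 36*d^2 + 18*b*c) * v2 + (2*s) * v3) + (360*c + 450*c*d - 72*a*c + 369*c*d^2 - 54*b*c^2 + 54*c*d^3) * ((6*d) * v0 + (48*b) * v2) + (720*d - 288*s^2 + 972*d^2 + 756*b*c + 837*b*c*d) * ((-3*c + 3*c*d) * v0 + (-24*a) * v2) + (-864*a + 144*d^2 -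 1080*b*c - 216*a^2 + 324*d^3 - 351*b*c*d - 162*a*b*c) * ((-12*d - 9*d^2 + 6*b*c) * v1 + (27*d^2 - 18*b*c) * v2 + (b) * v3) + (-216*b - 45*b*d - 108*a*s - 54*a*b) * ((48*c + 36*c*d) * v1 + (-108*c*d) * v2 + (-4*a - 3*b*c) * v3)) = (432*(4+3*d)*(a-d)^3) * v1 := by
  linear_combination ((864*s - 864*d*s - 432*b^2) * v0 + (-5184*a - 3888*a*d) * v1 + (31104*c + 67392*c*d + 11664*a*d - 31104*a*c + 65448*c*d^2 - 23328*b*c^2 + 15552*c*d^3) * v2 + (-648*b - 216*b*d + 324*b*d^2) * v3) * hsc + ((288*b + 1296*b*d) * v0 + (-432*b^2) * v1 + (1296*b^2) * v2 + (486*d^2) * v3) * hsd + ((2268*c + 2079*c*d - 864*a*c + 648*c*d^2 - 972*b*c^2) * v0 + (10368 + 2592*d + 4320*a - 5832*d^2 + 2808*b*c + 3240*a*d - 1296*a^2 - 1782*b*c*d) * v1 + (-17280 - 46656*d + 3456*a - 13608*b*c + 1944*a*d + 1458*b*c*d) * v2 + (288*b) * v3)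 * had

theorem id5_2 (a b c d s : A) (hsc : s*c = 0) (hsd : s*d = 0) (had : a*d = b*c) (v0 v1 v2 v3 : A) :
    ((144*b*d + 108*b*d^2) * ((4*s) * v0 + (24*c + 12*c*d) * v1 + (-24*c - 36*c*d) * v2 + (-d) * v3) + (-144*c^2 - 564*c^2*d + 120*a*c^2 - 438*c^2*d^2 + 90*b*c^3 - 72*c^2*d^3) * ((3*b) * v0 + (-72*s) * v2) + (-1080*c*d + 216*a*c - 1098*c*d^2 + 306*b*c^2 - 216*c*d^3 + 108*b*c^2*d) * ((2*d - a) * v0 + (4*b + 3*b*d) * v1 + (-9*b*d) * v2) + (108*d^2 + 108*b*c + 81*d^3 + 153*b*c*d + 54*b*c*d^2) * ((-4*c + 4*c*d) * v0 + (16*d - 8*a + 12*d^2 - 6*b*c) * v1 + (-16*d - 36*d^2 + 18*b*c) * v2 + (2*s) * v3) + (216*c + 378*c*d + 186*c*d^2 + 18*c*d^3) * ((6*d) * v0 + (48*b) * v2) + (432*d + 324*d^2 + 216*b*c - 72*a^2 + 162*b*c*d - 54*a*b*c) * ((-3*c + 3*c*d) * v0 + (-24*a) * v2) + (144*d^2 + 108*d^3) * ((-12*d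 - 9*d^2 + 6*b*c) * v1 + (27*d^2 - 18*b*c) * v2 + (b) * v3)) = (432*(4+3*d)*(a-d)^3) * v2 := by
  linear_combination ((10368*c + 40608*c*d - 8640*a*c + 31536*c*d^2 - 6480*b*c^2 + 5184*c*d^3) * v2 + (216*b + 306*b*d + 108*b*d^2) * v3) * hsc + ((576*b + 432*b*d) * v0 + (216*d + 162*d^2) * v3) * hsd + ((1512*c + 1098*c*d - 216*a*c + 216*c*d^2 - 270*b*c^2) * v0 + (-864*d - 648*d^2 - 576*b*c - 432*b*c*d) * v1 + (-10368 - 12960*d + 5184*a - 3888*d^2 - 1944*b*c + 3888*a*d - 1296*a^2) * v2) * had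

theorem id5_3 (a b c d s : A) (hsc : s*c = 0) (hsd : s*d = 0) (had : a*d = b*c) (v0 v1 v2 v3 : A) :
    ((1728*d^2 - 6336*b*c + 288*a^2 + 1296*d^3 - 3024*b*c*d) * ((4*s) * v0 + (24*c + 12*c*d) * v1 + (-24*c - 36*c*d) * v2 + (-d) * v3) + (-576*b*d + 1632*a*b - 432*b*d^2 + 1008*b^2*c) * ((16*s) * v1 + (4*c + 3*c*d) * v3) + (2592*c^3 + 648*c^3*d) * ((3*b) * v0 + (-72*s) * v2) + (7776*c^2 + 1152*a*s + 1944*c^2*d) * ((2*d - a) * v0 + (4*b + 3*b*d) * v1 + (-9*b*d) * v2) + (-2592*c*d + 3840*b*s - 1728*a*c - 1944*b*c^2) * ((-4*c + 4*c*d) * v0 + (16*d - 8*a + 12*d^2 - 6*b*c) * v1 + (-16*d - 36*d^2 + 18*b*c) * v2 + (2*s) * v3) + (-2592*c^2 - 648*c^2*d) * ((6*d) * v0 + (48*b) * v2) + (3456*c*d - 288*a*c + 1944*b*c^2) * ((-3*c + 3*c*d) * v0 + (-24*a) * v2) + (-1536*c - 7680*s^2 - 3456*c*d - 2304*a*c - 1944*b*c^2)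 * ((-12*d - 9*d^2 + 6*b*c) * v1 + (27*d^2 - 18*b*c) * v2 + (b) * v3) + (-384*d - 864*d^2 + 2280*b*c - 432*a^2 - 432*d^3 + 1008*b*c*d) * ((48*c + 36*c*d) * v1 + (-108*c*d) * v2 + (-4*a - 3*b*c) * v3)) = (432*(4+3*d)*(a-d)^3) * v3 := by
  linear_combination ((-40704*b + 3264*b*d) * v0 + (-46080*b*s - 6912*b^2) * v1 + (-186624*c^2 + 138240*b*s + 69120*b^2 - 46656*c^2*d) * v2 + (-5184*d - 3456*a - 3888*b*c) * v3) * hsc + ((6912*d + 2304*a + 5184*d^2) * v0 + (92160*s + 52224*b + 69120*d*s + 39168*b*d + 3456*a*b) * v1 + (-61440*b - 207360*d*s - 138240*b*d - 10368*a*b) * v2) * hsd + ((-9720*c^2) * v0 + (20736*c - 12096*a*c) * v1 + (-55296*c + 36288*a*c) * v2 + (1536 - 1728*d + 4896*a - 2160*d^2 + 4752*b*c + 3888*a*d - 1296*a^2) * v3) * had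

end Pool.Agent.H950R2.PS
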